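import Mathlib

/-!
Eigenbasis of a real symmetric matrix in coordinates, and null preimages of flows.
-/

open Set Metric MeasureTheory Filter
open scoped Topology NNReal

namespace Pool.Agent.H96.Kur

variable {V : Type*} [Fintype V]

theorem exists_eigen [DecidableEq V] (M : Matrix V V ℝ) (hM : M.IsHermitian) :
    ∃ (b : V → V → ℝ) (lam : V → ℝ),
      (∀ d e : V → ℝ, ∑ k, (∑ i, b k i * d i) * (∑ i, b k i * e i) = ∑ i, d i * e i) ∧
      (∀ (k : V) (d : V → ℝ), ∑ i, b k i * (M.mulVec d) i = lam k * ∑ i, b k i * d i) ∧
      (∀ k l : V, ∑ i, b k i * b l i = if k = l then 1 else 0) := by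
  set B := hM.eigenvectorBasis with hB
  refine ⟨fun k i => B k i, hM.eigenvalues, ?_, ?_, ?_⟩
  · intro d e
    have h := B.sum_inner_mul_inner (WithLp.toLp 2 d) (WithLp.toLp 2 e)
    simp only [PiLp.inner_apply, RCLike.inner_apply, conj_trivial] at h
    rw [← show ∑ i, e i * d i = ∑ i, d i * e i from
      Finset.sum_congr rfl fun i _ => mul_comm _ _, ← h]
    refine Finset.sum_congr rfl fun k _ => ?_
    congr 1
    refine Finset.sum_congr rfl fun i _ => mul_comm _ _
  · intro k d
    have h := hM.mulVec_eigenvectorBasis k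
    have hs : M.transpose = M := by
      have := hM
      rw [Matrix.IsHermitian, Matrix.conjTranspose_eq_transpose_of_trivial] at this
      exact this
    have h1 : ∑ i, B k i * (M.mulVec d) i = ∑ i, (M.mulVec (fun j => B k j)) i * d i := by
      have := Matrix.dotProduct_mulVec (fun i => B k i) M d
      rw [← Matrix.mulVec_transpose, hs] at this
      exact this
    rw [h1, Finset.mul_sum]
    refine Finset.sum_congr rfl fun i _ => ?_
    have h2 := congrFun h i
    simp only [Pi.smul_apply, smul_eq_mul] at h2
    rw [← mul_assoc]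
    congr 1
  · intro k l
    have h := (orthonormal_iff_ite.mp B.orthonormal) k l
    simp only [PiLp.inner_apply, RCLike.inner_apply, conj_trivial] at h
    rw [← h]
    exact Finset.sum_congr rfl fun i _ => mul_comm _ _

theorem null_image_of_lipschitz {f : (V → ℝ) → (V → ℝ)} {C : ℝ≥0} (hf : LipschitzWith C f)
    {s : Set (V → ℝ)} (hs : volume s = 0) : volume (f '' s) = 0 := by
  have h1 := hf.hausdorffMeasure_image_le (d := Fintype.card V) (Nat.cast_nonneg _) s
  rw [hausdorffMeasure_pi_real, hs, mul_zero] at h1
  exact le_antisymm h1 bot_le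

end Pool.Agent.H96.Kur
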