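import Mathlib

/-!
Global flow of a bounded, globally Lipschitz vector field.
-/

open Set Metric MeasureTheory Filter
open scoped Topology NNReal

namespace Pool.Agent.H96.Kur

variable {E : Type*} [NormedAddCommGroup E] [NormedSpace ℝ E] [CompleteSpace E]

theorem exists_local_solution (F : E → E) {K L : ℝ≥0} (hK : LipschitzWith K F)
    (hL : ∀ x, ‖F x‖ ≤ L) (x : E) (n : ℕ) :
    ∃ γ : ℝ → E, γ 0 = x ∧ ∀ t ∈ Ioo (-(n + 1 : ℝ)) (n + 1), HasDerivAt γ (F (γ t)) t := by
  have h0 : (0 : ℝ) ∈ Icc (-(n + 1 : ℝ)) (n + 1) := by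
    constructor <;> [skip; skip] <;> have : (0 : ℝ) ≤ n := Nat.cast_nonneg n
    · linarith
    · linarith
  have hpl : IsPicardLindelof (fun _ => F) (tmin := -(n + 1 : ℝ)) (tmax := (n + 1 : ℝ))
      ⟨0, h0⟩ x (L * (n + 1 : ℝ≥0)) 0 L K := by
    refine ⟨?_, ?_, ?_, ?_⟩
    · intro t _
      exact hK.lipschitzOnWith
    · intro y _
      exact continuousOn_const
    · intro t _ y _
      exact hL y
    · simp
  obtain ⟨γ, h1, h2⟩ := hpl.exists_eq_forall_mem_Icc_hasDerivWithinAt₀
  refine ⟨γ, h1, fun t ht => ?_⟩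
  exact (h2 t (Ioo_subset_Icc_self ht)).hasDerivAt (Icc_mem_nhds ht.1 ht.2)

theorem exists_global_solution (F : E → E) {K L : ℝ≥0} (hK : LipschitzWith K F)
    (hL : ∀ x, ‖F x‖ ≤ L) (x : E) :
    ∃ γ : ℝ → E, γ 0 = x ∧ ∀ t, HasDerivAt γ (F (γ t)) t := by
  choose γ h0 hd using fun n : ℕ => exists_local_solution F hK hL x n
  have key : ∀ m n : ℕ, m ≤ n → EqOn (γ m) (γ n) (Ioo (-(m + 1 : ℝ)) (m + 1)) := by
    intro m n hmn
    have hmn' : (m : ℝ) ≤ n := by exact_mod_cast hmn
    have hm0 : (0 : ℝ) ≤ m := Nat.cast_nonneg m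
    refine ODE_solution_unique_of_mem_Ioo (v := fun _ => F) (s := fun _ => univ) (K := K)
      (t₀ := 0) (fun t _ => hK.lipschitzOnWith) ⟨by linarith, by linarith⟩ ?_ ?_ ?_
    · intro t ht
      exact ⟨hd m t ht, mem_univ _⟩
    · intro t ht
      exact ⟨hd n t ⟨by linarith [ht.1], by linarith [ht.2]⟩, mem_univ _⟩
    · rw [h0, h0]
  refine ⟨fun t => γ ⌈|t|⌉₊ t, ?_, ?_⟩
  · simp [h0]
  · intro t
    set N : ℕ := ⌈|t|⌉₊ + 1 with hN
    have hNt : |t| ≤ ⌈|t|⌉₊ := Nat.le_ceil _
    have hev : (fun s => γ ⌈|s|⌉₊ s) =ᶠ[𝓝 t] γ N := by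
      have hopen : Ioo (t - 1) (t + 1) ∈ 𝓝 t := Ioo_mem_nhds (by linarith) (by linarith)
      filter_upwards [hopen] with s hs
      have hs' : |s| < |t| + 1 := by
        rcases abs_cases s with ⟨h1, h2⟩ | ⟨h1, h2⟩ <;>
        rcases abs_cases t with ⟨h3, h4⟩ | ⟨h3, h4⟩ <;>
        linarith [hs.1, hs.2]
      have hle : ⌈|s|⌉₊ ≤ N := by
        rw [hN, Nat.ceil_le]
        push_cast
        linarith
      refine key _ _ hle ?_
      have hsc : |s| ≤ ⌈|s|⌉₊ := Nat.le_ceil _
      rcases abs_le.mp hsc with ⟨h1, h2⟩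
      constructor <;> linarith
    have hfin : HasDerivAt (γ N) (F (γ N t)) t := by
      refine hd N t ?_
      rcases abs_le.mp hNt with ⟨h1, h2⟩
      rw [hN]
      push_cast
      constructor <;> linarith
    have heq : γ ⌈|t|⌉₊ t = γ N t := hev.self_of_nhds
    have := hfin.congr_of_eventuallyEq hev
    simpa [heq] using this

/-- The structure of a global flow for `F`. -/
structure IsFlow (F : E → E) (φ : ℝ → E → E) : Prop where
  zero : ∀ x, φ 0 x = x
  deriv : ∀ x t, HasDerivAt (fun s => φ s x) (F (φ t x)) t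

theorem exists_flow (F : E → E) {K L : ℝ≥0} (hK : LipschitzWith K F)
    (hL : ∀ x, ‖F x‖ ≤ L) : ∃ φ : ℝ → E → E, IsFlow F φ := by
  choose γ h0 hd using fun x => exists_global_solution F hK hL x
  exact ⟨fun t x => γ x t, h0, fun x t => hd x t⟩

namespace IsFlow

variable {F : E → E} {φ : ℝ → E → E} {K : ℝ≥0}

omit [CompleteSpace E] in
theorem unique (h : IsFlow F φ) (hK : LipschitzWith K F) {γ : ℝ → E} {t₀ : ℝ}
    (hγ : ∀ t, HasDerivAt γ (F (γ t)) t) (x : E) (h0 : γ t₀ = φ t₀ x) : γ = fun t => φ t x :=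
  ODE_solution_unique_univ (v := fun _ => F) (s := fun _ => univ) (K := K) (t₀ := t₀)
    (fun _ => hK.lipschitzOnWith) (fun t => ⟨hγ t, mem_univ _⟩)
    (fun t => ⟨h.deriv x t, mem_univ _⟩) h0

omit [CompleteSpace E] in
theorem add (h : IsFlow F φ) (hK : LipschitzWith K F) (s t : ℝ) (x : E) :
    φ (s + t) x = φ s (φ t x) := by
  have h1 : ∀ r, HasDerivAt (fun r => φ (r + t) x) (F (φ (r + t) x)) r := by
    intro r
    have := h.deriv x (r + t)
    exact HasDerivAt.comp_add_const r t this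
  have := h.unique hK (γ := fun r => φ (r + t) x) (t₀ := 0) h1 (φ t x)
    (by simp [h.zero])
  exact congrFun this s

omit [CompleteSpace E] in
theorem continuous_time (h : IsFlow F φ) (x : E) : Continuous (fun t => φ t x) :=
  continuous_iff_continuousAt.mpr fun t => (h.deriv x t).continuousAt

omit [CompleteSpace E] in
/-- Uniqueness for solutions on the half line. -/
theorem unique_half (h : IsFlow F φ) (hK : LipschitzWith K F) {γ : ℝ → E}
    (hγ : ∀ t, 0 ≤ t → HasDerivWithinAt γ (F (γ t)) (Ici 0) t) :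
    ∀ t, 0 ≤ t → γ t = φ t (γ 0) := by
  intro t ht
  have hc : ContinuousOn γ (Icc 0 t) := by
    intro s hs
    exact ((hγ s hs.1).continuousWithinAt).mono (fun r hr => hr.1)
  have := ODE_solution_unique (v := fun _ => F) (K := K) (f := γ) (g := fun s => φ s (γ 0))
    (a := 0) (b := t) (fun _ => hK) hc
    (fun s hs => (hγ s hs.1).mono (fun r hr => le_trans hs.1 hr))
    (h.continuous_time _).continuousOn
    (fun s _ => (h.deriv _ s).hasDerivWithinAt) (by simp [h.zero])
  exact this ⟨ht, le_refl t⟩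

omit [CompleteSpace E] in
theorem dist_le (h : IsFlow F φ) (hK : LipschitzWith K F) {t : ℝ} (ht : 0 ≤ t) (x y : E) :
    dist (φ t x) (φ t y) ≤ dist x y * Real.exp (K * t) := by
  have := dist_le_of_trajectories_ODE (v := fun _ => F) (K := K) (f := fun s => φ s x)
    (g := fun s => φ s y) (a := 0) (b := t) (δ := dist x y) (fun _ => hK)
    (h.continuous_time _).continuousOn (fun s _ => (h.deriv _ s).hasDerivWithinAt)
    (h.continuous_time _).continuousOn (fun s _ => (h.deriv _ s).hasDerivWithinAt)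
    (by simp [h.zero]) t ⟨ht, le_refl t⟩
  simpa using this

omit [CompleteSpace E] in
/-- Time reversal. -/
theorem neg (h : IsFlow F φ) : IsFlow (fun x => - F x) (fun t x => φ (-t) x) := by
  refine ⟨fun x => by simp [h.zero], fun x t => ?_⟩
  have h1 := (h.deriv x (-t)).scomp t (hasDerivAt_neg t)
  have h2 : HasDerivAt (fun s => φ (-s) x) ((-1 : ℝ) • F (φ (-t) x)) t := h1
  rw [neg_one_smul] at h2
  exact h2

omit [CompleteSpace E] in
theorem lipschitz (h : IsFlow F φ) (hK : LipschitzWith K F) (t : ℝ) :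
    ∃ C : ℝ≥0, LipschitzWith C (φ t) := by
  rcases le_total 0 t with ht | ht
  · refine ⟨⟨Real.exp (K * t), (Real.exp_pos _).le⟩, LipschitzWith.of_dist_le_mul fun x y => ?_⟩
    have h1 := h.dist_le hK ht x y
    rw [mul_comm] at h1
    exact h1
  · have hn := h.neg
    have hK' : LipschitzWith K (fun x => - F x) := by
      have := hK.neg
      exact this
    refine ⟨⟨Real.exp (K * (-t)), (Real.exp_pos _).le⟩,
      LipschitzWith.of_dist_le_mul fun x y => ?_⟩
    have h1 := hn.dist_le hK' (t := -t) (by linarith) x y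
    rw [mul_comm, neg_neg] at h1
    exact h1

omit [CompleteSpace E] in
theorem continuous_space (h : IsFlow F φ) (hK : LipschitzWith K F) (t : ℝ) :
    Continuous (φ t) := by
  obtain ⟨C, hC⟩ := h.lipschitz hK t
  exact hC.continuous

end IsFlow

end Pool.Agent.H96.Kur
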