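import Mathlib
import Pool.Agent.H96.Kur.Flow
import Pool.Agent.H96.Kur.Eigen

/-!
The Kuramoto vector field with symmetric coupling matrix.
-/

open Set Metric MeasureTheory Filter
open scoped Topology NNReal

namespace Pool.Agent.H96.Kur

variable {V : Type*} [Fintype V]

/-- The Kuramoto vector field with coupling matrix `A`. -/
noncomputable def kvf (A : V → V → ℝ) (θ : V → ℝ) : V → ℝ :=
  fun i => ∑ j, A i j * Real.sin (θ j - θ i)

theorem abs_sin_sub_sin_le (a b : ℝ) : |Real.sin a - Real.sin b| ≤ |a - b| := by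
  have h := Real.sin_sub_sin a b
  rw [h, abs_mul, abs_mul, abs_two]
  have h1 : |Real.sin ((a - b) / 2)| ≤ |(a - b) / 2| := Real.abs_sin_le_abs
  have h2 : |Real.cos ((a + b) / 2)| ≤ 1 := Real.abs_cos_le_one _
  rw [abs_div, abs_two] at h1
  have h3 : 0 ≤ |Real.sin ((a - b) / 2)| := abs_nonneg _
  have h4 : 0 ≤ |a - b| := abs_nonneg _
  calc 2 * |Real.sin ((a - b) / 2)| * |Real.cos ((a + b) / 2)|
      ≤ 2 * |Real.sin ((a - b) / 2)| * 1 := by
        apply mul_le_mul_of_nonneg_left h2; positivity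
    _ ≤ |a - b| := by linarith

/-- total coupling -/
noncomputable def tot (A : V → V → ℝ) : ℝ := ∑ i, ∑ j, |A i j|

theorem tot_nonneg (A : V → V → ℝ) : 0 ≤ tot A :=
  Finset.sum_nonneg fun _ _ => Finset.sum_nonneg fun _ _ => abs_nonneg _

theorem row_le_tot (A : V → V → ℝ) (i : V) : ∑ j, |A i j| ≤ tot A :=
  Finset.single_le_sum (f := fun i => ∑ j, |A i j|)
    (fun _ _ => Finset.sum_nonneg fun _ _ => abs_nonneg _) (Finset.mem_univ i)

theorem kvf_norm_le (A : V → V → ℝ) (θ : V → ℝ) : ‖kvf A θ‖ ≤ (⟨tot A, tot_nonneg A⟩ : ℝ≥0) := by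
  refine (pi_norm_le_iff_of_nonneg (tot_nonneg A)).mpr fun i => ?_
  refine (norm_sum_le _ _).trans (le_trans ?_ (row_le_tot A i))
  refine Finset.sum_le_sum fun j _ => ?_
  rw [Real.norm_eq_abs, abs_mul]
  exact mul_le_of_le_one_right (abs_nonneg _) (Real.abs_sin_le_one _)

theorem kvf_lipschitz (A : V → V → ℝ) :
    LipschitzWith (⟨2 * tot A, by have := tot_nonneg A; positivity⟩ : ℝ≥0) (kvf A) := by
  refine LipschitzWith.of_dist_le_mul fun x y => ?_
  have h0 : (0 : ℝ) ≤ 2 * tot A * dist x y := by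
    have := tot_nonneg A
    positivity
  refine (dist_pi_le_iff h0).mpr fun i => ?_
  rw [Real.dist_eq]
  unfold kvf
  rw [← Finset.sum_sub_distrib]
  refine (Finset.abs_sum_le_sum_abs _ _).trans ?_
  have hb : ∀ j, |A i j * Real.sin (x j - x i) - A i j * Real.sin (y j - y i)| ≤
      |A i j| * (2 * dist x y) := by
    intro j
    rw [← mul_sub, abs_mul]
    refine mul_le_mul_of_nonneg_left ?_ (abs_nonneg _)
    refine (abs_sin_sub_sin_le _ _).trans ?_
    have h1 : |x j - y j| ≤ dist x y := by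
      rw [← Real.dist_eq]; exact dist_le_pi_dist x y j
    have h2 : |x i - y i| ≤ dist x y := by
      rw [← Real.dist_eq]; exact dist_le_pi_dist x y i
    calc |x j - x i - (y j - y i)| = |(x j - y j) - (x i - y i)| := by ring_nf
      _ ≤ |x j - y j| + |x i - y i| := abs_sub _ _
      _ ≤ 2 * dist x y := by linarith
  refine (Finset.sum_le_sum fun j _ => hb j).trans ?_
  rw [← Finset.sum_mul]
  have := row_le_tot A i
  have hd : 0 ≤ dist x y := dist_nonneg
  nlinarith

theorem exists_kflow (A : V → V → ℝ) : ∃ φ : ℝ → (V → ℝ) → (V → ℝ), IsFlow (kvf A) φ :=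
  exists_flow (kvf A) (kvf_lipschitz A) (kvf_norm_le A)

end Pool.Agent.H96.Kur
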