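import Mathlib
import Pool.Agent.H96.Kur.Basic

/-!
Points whose trajectory stays near a strict saddle form a null set.
-/

open Set Metric MeasureTheory Filter
open scoped Topology NNReal

namespace Pool.Agent.H96.Kur

variable {V : Type*} [Fintype V]

theorem sum_quad_form (w : V → V → ℝ) (hw : ∀ i j, w i j = w j i) (d : V → ℝ) :
    ∑ i, d i * ∑ j, w i j * (d i - d j) = (1 / 2) * ∑ i, ∑ j, w i j * (d j - d i) ^ 2 := by
  have h1 : ∑ i, d i * ∑ j, w i j * (d i - d j) = ∑ i, ∑ j, w i j * (d i * (d i - d j)) := by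
    refine Finset.sum_congr rfl fun i _ => ?_
    rw [Finset.mul_sum]
    refine Finset.sum_congr rfl fun j _ => by ring
  have h2 : ∑ i, ∑ j, w i j * (d i * (d i - d j)) = ∑ i, ∑ j, w i j * (d j * (d j - d i)) := by
    rw [Finset.sum_comm]
    refine Finset.sum_congr rfl fun i _ => Finset.sum_congr rfl fun j _ => ?_
    rw [hw]
  have h3 : ∑ i, ∑ j, w i j * (d j - d i) ^ 2 =
      ∑ i, ∑ j, w i j * (d i * (d i - d j)) + ∑ i, ∑ j, w i j * (d j * (d j - d i)) := by
    rw [← Finset.sum_add_distrib]
    refine Finset.sum_congr rfl fun i _ => ?_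
    rw [← Finset.sum_add_distrib]
    refine Finset.sum_congr rfl fun j _ => by ring
  rw [h1, h3, ← h2]
  ring

theorem abs_sin_sub_sin_sub_le {a b c R : ℝ} (ha : |a - c| ≤ R) (hb : |b - c| ≤ R) :
    |Real.sin b - Real.sin a - Real.cos c * (b - a)| ≤ R * |b - a| := by
  -- convexity argument : the derivative of `sin x - cos c * x` is bounded by `R` on the segment
  have hseg : ∀ x ∈ Set.uIcc a b, |x - c| ≤ R := by
    intro x hx
    rw [Set.mem_uIcc] at hx
    rw [abs_le] at ha hb ⊢
    rcases hx with h | h <;> constructor <;> linarith [h.1, h.2, ha.1, ha.2, hb.1, hb.2]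
  have hconv : Convex ℝ (Set.uIcc a b) := convex_uIcc a b
  have hder : ∀ x ∈ Set.uIcc a b,
      HasDerivWithinAt (fun x => Real.sin x - Real.cos c * x) (Real.cos x - Real.cos c)
        (Set.uIcc a b) x := by
    intro x _
    have h1 := (Real.hasDerivAt_sin x).sub ((hasDerivAt_id x).const_mul (Real.cos c))
    simp only [mul_one] at h1
    exact h1.hasDerivWithinAt
  have hbound : ∀ x ∈ Set.uIcc a b, ‖Real.cos x - Real.cos c‖ ≤ R := by
    intro x hx
    rw [Real.norm_eq_abs]
    refine le_trans ?_ (hseg x hx)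
    have h := Real.cos_sub_cos x c
    rw [h, abs_mul, abs_mul, abs_neg, abs_two]
    have h1 : |Real.sin ((x - c) / 2)| ≤ |(x - c) / 2| := Real.abs_sin_le_abs
    have h2 : |Real.sin ((x + c) / 2)| ≤ 1 := Real.abs_sin_le_one _
    rw [abs_div, abs_two] at h1
    have h3 : 0 ≤ |Real.sin ((x - c) / 2)| := abs_nonneg _
    calc 2 * |Real.sin ((x + c) / 2)| * |Real.sin ((x - c) / 2)|
        ≤ 2 * 1 * |Real.sin ((x - c) / 2)| := by
          apply mul_le_mul_of_nonneg_right _ h3; linarith
      _ ≤ |x - c| := by linarith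
  have := hconv.norm_image_sub_le_of_norm_hasDerivWithin_le hder hbound
    (Set.left_mem_uIcc (a := a) (b := b)) (Set.right_mem_uIcc (a := a) (b := b))
  rw [Real.norm_eq_abs, Real.norm_eq_abs] at this
  convert this using 2
  ring

theorem saddle_null (A : V → V → ℝ) (hA : ∀ i j, A i j = A j i)
    {φ : ℝ → (V → ℝ) → (V → ℝ)} (hφ : IsFlow (kvf A) φ) (θs : V → ℝ) (d₀ : V → ℝ)
    (hd : ∑ i, ∑ j, A i j * Real.cos (θs j - θs i) * (d₀ j - d₀ i) ^ 2 < 0) :
    ∃ r > 0, volume {x | ∀ t : ℝ, 0 ≤ t → φ t x ∈ closedBall θs r} = 0 := by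
  classical
  set w : V → V → ℝ := fun i j => A i j * Real.cos (θs j - θs i) with hw
  have hwsymm : ∀ i j, w i j = w j i := by
    intro i j
    simp only [hw]
    rw [hA i j, ← Real.cos_neg, neg_sub]
  set M : Matrix V V ℝ := Matrix.of fun i j => (if i = j then ∑ k, w i k else 0) - w i j with hM
  have hMh : M.IsHermitian := by
    rw [Matrix.IsHermitian, Matrix.conjTranspose_eq_transpose_of_trivial]
    ext i j
    simp only [hM, Matrix.transpose_apply, Matrix.of_apply]
    rw [hwsymm j i]
    by_cases hij : i = j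
    · subst hij; rfl
    · rw [if_neg hij, if_neg (fun h => hij h.symm)]
  have hMv : ∀ (d : V → ℝ) (i : V), (M.mulVec d) i = ∑ j, w i j * (d i - d j) := by
    intro d i
    simp only [hM, Matrix.mulVec, dotProduct, Matrix.of_apply, sub_mul, Finset.sum_sub_distrib,
      ite_mul, zero_mul, Finset.sum_ite_eq, Finset.mem_univ, if_true, mul_sub, Finset.sum_mul]
  obtain ⟨b, lam, hpars, heig, horth⟩ := exists_eigen M hMh
  have hMform : ∑ k, lam k * (∑ i, b k i * d₀ i) ^ 2 < 0 := by
    have h1 : ∑ k, lam k * (∑ i, b k i * d₀ i) ^ 2 = ∑ i, d₀ i * (M.mulVec d₀) i := by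
      rw [← hpars d₀ (M.mulVec d₀)]
      refine Finset.sum_congr rfl fun k _ => ?_
      rw [heig]
      ring
    rw [h1]
    have h2 : ∑ i, d₀ i * (M.mulVec d₀) i = (1 / 2) * ∑ i, ∑ j, w i j * (d₀ j - d₀ i) ^ 2 := by
      rw [← sum_quad_form w hwsymm]
      refine Finset.sum_congr rfl fun i _ => ?_
      rw [hMv]
    rw [h2]
    simp only [hw]
    linarith
  obtain ⟨k₀, -, hk₀⟩ := Finset.exists_lt_of_sum_lt (s := Finset.univ)
    (f := fun k => lam k * (∑ i, b k i * d₀ i) ^ 2) (g := fun _ => (0 : ℝ)) (by simpa using hMform)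
  have hlam : lam k₀ < 0 := by
    by_contra hcon
    push Not at hcon
    have : 0 ≤ lam k₀ * (∑ i, b k₀ i * d₀ i) ^ 2 := by positivity
    linarith
  -- choose κ
  obtain ⟨κ, hκI, hκS⟩ : ∃ κ ∈ Ioo (0 : ℝ) (-lam k₀), κ ∉ (Finset.univ.image fun j => - lam j) :=
    (Set.Ioo_infinite (by linarith : (0 : ℝ) < -lam k₀)).exists_notMem_finset _
  have hne : ∀ j, lam j + κ ≠ 0 := by
    intro j hj
    apply hκS
    rw [Finset.mem_image]
    exact ⟨j, Finset.mem_univ _, by linarith⟩
  have : Nonempty V := ⟨k₀⟩
  obtain ⟨j₀, hj₀⟩ := Finite.exists_min (fun j => |lam j + κ|)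
  set c : ℝ := |lam j₀ + κ| with hc
  have hcpos : 0 < c := abs_pos.mpr (hne j₀)
  set s : V → ℝ := fun k => if lam k < -κ then 1 else -1 with hs
  have hs_abs : ∀ k, s k ^ 2 = 1 := by
    intro k; simp only [hs]; split_ifs <;> norm_num
  have hs_c : ∀ k, c ≤ -(s k * (lam k + κ)) := by
    intro k
    have h1 := hj₀ k
    simp only [hs]
    split_ifs with h
    · rw [abs_of_neg (a := lam k + κ) (by linarith)] at h1
      linarith
    · rw [abs_of_nonneg (a := lam k + κ) (by linarith)] at h1
      linarith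
  set N : ℝ := (Fintype.card V : ℝ) with hN
  have hN0 : 0 ≤ N := Nat.cast_nonneg _
  set T : ℝ := tot A with hT
  have hT0 : 0 ≤ T := tot_nonneg A
  set r : ℝ := c / (4 * (T + 1) * (N + 1)) with hr
  have hrpos : 0 < r := by positivity
  have hr_bound : N * (4 * r * T) ^ 2 ≤ c ^ 2 := by
    have h1 : 4 * r * T ≤ c / (N + 1) := by
      rw [hr]
      rw [le_div_iff₀ (by positivity)]
      have : 4 * (c / (4 * (T + 1) * (N + 1))) * T * (N + 1) = c * (T / (T + 1)) := by
        field_simp
      rw [this]
      have h2 : T / (T + 1) ≤ 1 := by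
        rw [div_le_one (by positivity)]; linarith
      nlinarith
    have h0 : 0 ≤ 4 * r * T := by positivity
    have h2 : (4 * r * T) ^ 2 ≤ (c / (N + 1)) ^ 2 := by
      apply pow_le_pow_left₀ h0 h1
    calc N * (4 * r * T) ^ 2 ≤ N * (c / (N + 1)) ^ 2 := mul_le_mul_of_nonneg_left h2 hN0
      _ = c ^ 2 * (N / (N + 1) ^ 2) := by field_simp
      _ ≤ c ^ 2 * 1 := by
        apply mul_le_mul_of_nonneg_left _ (sq_nonneg c)
        rw [div_le_one (by positivity)]
        nlinarith
      _ = c ^ 2 := mul_one _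
  set cf : V → (V → ℝ) → ℝ := fun k d => ∑ i, b k i * d i with hcf
  set W : (V → ℝ) → ℝ := fun d => ∑ k, s k * (cf k d) ^ 2 with hW
  set B : Set (V → ℝ) := {x | ∀ t : ℝ, 0 ≤ t → φ t x ∈ closedBall θs r} with hB
  have hsumsq : ∀ d : V → ℝ, ∑ k, (cf k d) ^ 2 = ∑ i, d i ^ 2 := by
    intro d
    have := hpars d d
    simp only [hcf]
    calc ∑ k, (∑ i, b k i * d i) ^ 2 = ∑ k, (∑ i, b k i * d i) * (∑ i, b k i * d i) :=
          Finset.sum_congr rfl fun k _ => by ring
      _ = ∑ i, d i * d i := this
      _ = ∑ i, d i ^ 2 := Finset.sum_congr rfl fun k _ => by ring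
  -- key claim
  have key : ∀ x ∈ B, ∀ y ∈ B, W (y - x) ≤ 0 := by
    intro x hx y hy
    set D : ℝ → V → ℝ := fun t => φ t y - φ t x with hD
    have hDd : ∀ t i, HasDerivAt (fun t => D t i) (kvf A (φ t y) i - kvf A (φ t x) i) t := by
      intro t i
      have h1 := (hasDerivAt_pi.mp (hφ.deriv y t)) i
      have h2 := (hasDerivAt_pi.mp (hφ.deriv x t)) i
      exact h1.sub h2
    set D' : ℝ → V → ℝ := fun t i => kvf A (φ t y) i - kvf A (φ t x) i with hD'
    have hcfd : ∀ t k, HasDerivAt (fun t => cf k (D t)) (cf k (D' t)) t := by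
      intro t k
      simp only [hcf]
      exact HasDerivAt.fun_sum fun i _ => (hDd t i).const_mul (b k i)
    have hWd : ∀ t, HasDerivAt (fun t => W (D t))
        (∑ k, s k * (2 * cf k (D t) * cf k (D' t))) t := by
      intro t
      simp only [hW]
      refine HasDerivAt.fun_sum fun k _ => ?_
      have := ((hcfd t k).pow 2).const_mul (s k)
      simpa using this
    have hineq : ∀ t, 0 ≤ t →
        0 ≤ (∑ k, s k * (2 * cf k (D t) * cf k (D' t))) - 2 * κ * W (D t) := by
      intro t ht
      set R : V → ℝ := fun i => D' t i + (M.mulVec (D t)) i with hR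
      have hRb : ∀ i, |R i| ≤ 2 * r * ∑ j, |A i j| * |D t j - D t i| := by
        intro i
        have h1 : R i = ∑ j, A i j * (Real.sin (φ t y j - φ t y i) - Real.sin (φ t x j - φ t x i)
            - Real.cos (θs j - θs i) * ((φ t y j - φ t y i) - (φ t x j - φ t x i))) := by
          simp only [hR, hD', kvf, hMv, hw, hD, Pi.sub_apply]
          rw [← Finset.sum_sub_distrib, ← Finset.sum_add_distrib]
          refine Finset.sum_congr rfl fun j _ => by ring
        rw [h1, Finset.mul_sum]
        refine (Finset.abs_sum_le_sum_abs _ _).trans (Finset.sum_le_sum fun j _ => ?_)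
        rw [abs_mul]
        have hxt := hx t ht
        have hyt := hy t ht
        rw [mem_closedBall] at hxt hyt
        have e1 : ∀ z : V → ℝ, dist z θs ≤ r → |z j - z i - (θs j - θs i)| ≤ 2 * r := by
          intro z hz
          have g1 : |z j - θs j| ≤ r := by
            rw [← Real.dist_eq]; exact (dist_le_pi_dist z θs j).trans hz
          have g2 : |z i - θs i| ≤ r := by
            rw [← Real.dist_eq]; exact (dist_le_pi_dist z θs i).trans hz
          rw [abs_le] at g1 g2 ⊢
          constructor <;> linarith [g1.1, g1.2, g2.1, g2.2]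
        have h2 := abs_sin_sub_sin_sub_le (e1 _ hxt) (e1 _ hyt)
        have h3 : φ t y j - φ t y i - (φ t x j - φ t x i) = D t j - D t i := by
          simp only [hD, Pi.sub_apply]; ring
        rw [h3] at h2 ⊢
        calc |A i j| * |Real.sin (φ t y j - φ t y i) - Real.sin (φ t x j - φ t x i) -
              Real.cos (θs j - θs i) * (D t j - D t i)|
            ≤ |A i j| * (2 * r * |D t j - D t i|) := mul_le_mul_of_nonneg_left h2 (abs_nonneg _)
          _ = 2 * r * (|A i j| * |D t j - D t i|) := by ring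
      set n2 : ℝ := ∑ i, D t i ^ 2 with hn2
      have hn2nn : 0 ≤ n2 := Finset.sum_nonneg fun _ _ => sq_nonneg _
      have hDle : ∀ i, |D t i| ≤ Real.sqrt n2 := by
        intro i
        apply Real.abs_le_sqrt
        exact Finset.single_le_sum (f := fun i => D t i ^ 2) (fun _ _ => sq_nonneg _)
          (Finset.mem_univ i)
      have hRb2 : ∀ i, |R i| ≤ 4 * r * T * Real.sqrt n2 := by
        intro i
        refine (hRb i).trans ?_
        have h1 : ∑ j, |A i j| * |D t j - D t i| ≤ T * (2 * Real.sqrt n2) := by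
          calc ∑ j, |A i j| * |D t j - D t i| ≤ ∑ j, |A i j| * (2 * Real.sqrt n2) := by
                refine Finset.sum_le_sum fun j _ => mul_le_mul_of_nonneg_left ?_ (abs_nonneg _)
                refine (abs_sub _ _).trans ?_
                linarith [hDle i, hDle j]
            _ = (∑ j, |A i j|) * (2 * Real.sqrt n2) := by rw [Finset.sum_mul]
            _ ≤ T * (2 * Real.sqrt n2) :=
              mul_le_mul_of_nonneg_right (row_le_tot A i) (by positivity)
        nlinarith
      have hR2 : ∑ i, R i ^ 2 ≤ c ^ 2 * n2 := by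
        calc ∑ i, R i ^ 2 ≤ ∑ _i : V, (4 * r * T * Real.sqrt n2) ^ 2 := by
              refine Finset.sum_le_sum fun i _ => ?_
              rw [← sq_abs]
              exact pow_le_pow_left₀ (abs_nonneg _) (hRb2 i) 2
          _ = N * (4 * r * T) ^ 2 * n2 := by
              rw [Finset.sum_const, Finset.card_univ, nsmul_eq_mul, mul_pow, Real.sq_sqrt hn2nn]
              ring
          _ ≤ c ^ 2 * n2 := mul_le_mul_of_nonneg_right hr_bound hn2nn
      have hcfD' : ∀ k, cf k (D' t) = - lam k * cf k (D t) + cf k R := by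
        intro k
        have h1 := heig k (D t)
        simp only [hcf, hR]
        simp only [mul_add, Finset.sum_add_distrib]
        rw [h1]
        ring
      have hcR := hsumsq R
      have hcD := hsumsq (D t)
      have hsum : (∑ k, s k * (2 * cf k (D t) * cf k (D' t))) - 2 * κ * W (D t) =
          ∑ k, (2 * (-(s k * (lam k + κ))) * cf k (D t) ^ 2 + 2 * (s k * cf k (D t) * cf k R)) := by
        simp only [hW]
        rw [Finset.mul_sum, ← Finset.sum_sub_distrib]
        refine Finset.sum_congr rfl fun k _ => ?_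
        rw [hcfD' k]
        ring
      rw [hsum]
      have hterm : ∀ k, c * cf k (D t) ^ 2 - c⁻¹ * cf k R ^ 2 ≤
          2 * (-(s k * (lam k + κ))) * cf k (D t) ^ 2 + 2 * (s k * cf k (D t) * cf k R) := by
        intro k
        have h1 := hs_c k
        have h2 : 2 * c * cf k (D t) ^ 2 ≤ 2 * (-(s k * (lam k + κ))) * cf k (D t) ^ 2 := by
          have := mul_le_mul_of_nonneg_right h1 (sq_nonneg (cf k (D t)))
          linarith
        have h3 : 0 ≤ c * (s k * cf k (D t) + c⁻¹ * cf k R) ^ 2 := by positivity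
        have h4 : c * (s k * cf k (D t) + c⁻¹ * cf k R) ^ 2 =
            c * (s k ^ 2) * cf k (D t) ^ 2 + 2 * (s k * cf k (D t) * cf k R) +
              c⁻¹ * cf k R ^ 2 := by
          field_simp
          ring
        rw [h4, hs_abs k] at h3
        linarith
      calc (0 : ℝ) ≤ c * n2 - c⁻¹ * ∑ i, R i ^ 2 := by
            have : c⁻¹ * ∑ i, R i ^ 2 ≤ c⁻¹ * (c ^ 2 * n2) :=
              mul_le_mul_of_nonneg_left hR2 (by positivity)
            have h5 : c⁻¹ * (c ^ 2 * n2) = c * n2 := by field_simp
            linarith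
        _ = ∑ k, (c * cf k (D t) ^ 2 - c⁻¹ * cf k R ^ 2) := by
            rw [Finset.sum_sub_distrib, ← Finset.mul_sum, ← Finset.mul_sum, hcR, hcD]
        _ ≤ _ := Finset.sum_le_sum fun k _ => hterm k
    -- monotonicity
    have hmono : MonotoneOn (fun t => W (D t) * Real.exp (-(2 * κ) * t)) (Ici 0) := by
      have hder : ∀ t, HasDerivAt (fun t => W (D t) * Real.exp (-(2 * κ) * t))
          (((∑ k, s k * (2 * cf k (D t) * cf k (D' t))) - 2 * κ * W (D t)) *
            Real.exp (-(2 * κ) * t)) t := by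
        intro t
        have h1 : HasDerivAt (fun t => Real.exp (-(2 * κ) * t))
            (Real.exp (-(2 * κ) * t) * (-(2 * κ))) t := by
          have := ((hasDerivAt_id t).const_mul (-(2 * κ))).exp
          simpa using this
        have h2 := (hWd t).mul h1
        refine h2.congr_deriv ?_
        ring
      apply monotoneOn_of_deriv_nonneg (convex_Ici 0)
      · exact fun t _ => (hder t).continuousAt.continuousWithinAt
      · exact fun t _ => (hder t).differentiableAt.differentiableWithinAt
      · intro t ht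
        rw [interior_Ici] at ht
        rw [(hder t).deriv]
        exact mul_nonneg (hineq t (le_of_lt ht)) (Real.exp_pos _).le
    have hWub : ∀ t, 0 ≤ t → W (D t) ≤ N * (2 * r) ^ 2 := by
      intro t ht
      have h1 : W (D t) ≤ ∑ k, (cf k (D t)) ^ 2 := by
        simp only [hW]
        refine Finset.sum_le_sum fun k _ => ?_
        have : s k ≤ 1 := by simp only [hs]; split_ifs <;> norm_num
        nlinarith [sq_nonneg (cf k (D t))]
      rw [hsumsq] at h1
      refine h1.trans ?_
      calc ∑ i, D t i ^ 2 ≤ ∑ _i : V, (2 * r) ^ 2 := by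
            refine Finset.sum_le_sum fun i _ => ?_
            have hxt := hx t ht
            have hyt := hy t ht
            rw [mem_closedBall] at hxt hyt
            have g1 : |φ t y i - θs i| ≤ r := by
              rw [← Real.dist_eq]; exact (dist_le_pi_dist _ θs i).trans hyt
            have g2 : |φ t x i - θs i| ≤ r := by
              rw [← Real.dist_eq]; exact (dist_le_pi_dist _ θs i).trans hxt
            have g3 : |D t i| ≤ 2 * r := by
              simp only [hD, Pi.sub_apply]
              rw [abs_le] at g1 g2 ⊢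
              constructor <;> linarith [g1.1, g1.2, g2.1, g2.2]
            rw [← sq_abs]
            exact pow_le_pow_left₀ (abs_nonneg _) g3 2
        _ = N * (2 * r) ^ 2 := by
            rw [Finset.sum_const, Finset.card_univ, nsmul_eq_mul]
    have hle : ∀ t, 0 ≤ t → W (D 0) ≤ N * (2 * r) ^ 2 * Real.exp (-(2 * κ) * t) := by
      intro t ht
      have h1 := hmono (mem_Ici.mpr (le_refl 0)) (mem_Ici.mpr ht) ht
      simp only [mul_zero, Real.exp_zero, mul_one] at h1
      exact h1.trans (mul_le_mul_of_nonneg_right (hWub t ht) (Real.exp_pos _).le)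
    have hlim : Tendsto (fun t : ℝ => N * (2 * r) ^ 2 * Real.exp (-(2 * κ) * t)) atTop (𝓝 0) := by
      have h1 : Tendsto (fun t : ℝ => -(2 * κ) * t) atTop atBot := by
        have h2 : Tendsto (fun t : ℝ => t * (-(2 * κ))) atTop atBot :=
          tendsto_id.atTop_mul_const_of_neg (by linarith [hκI.1])
        refine h2.congr fun t => by ring
      have h3 := (Real.tendsto_exp_atBot.comp h1).const_mul (N * (2 * r) ^ 2)
      simpa using h3
    have hfin : W (D 0) ≤ 0 := by
      refine ge_of_tendsto hlim ?_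
      filter_upwards [eventually_ge_atTop (0 : ℝ)] with t ht using hle t ht
    have hD0 : D 0 = y - x := by
      simp only [hD, hφ.zero]
    rwa [hD0] at hfin
  refine ⟨r, hrpos, ?_⟩
  -- closedness
  have hBclosed : IsClosed B := by
    have : B = ⋂ t : {t : ℝ // 0 ≤ t}, (φ t) ⁻¹' closedBall θs r := by
      ext x
      simp only [hB, mem_setOf_eq, mem_iInter, mem_preimage]
      exact ⟨fun h t => h t.1 t.2, fun h t ht => h ⟨t, ht⟩⟩
    rw [this]
    exact isClosed_iInter fun t => isClosed_closedBall.preimage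
      (hφ.continuous_space (kvf_lipschitz A) t)
  set u : ℕ → (V → ℝ) := fun n => ((1 / 2 : ℝ) ^ n) • (fun i => b k₀ i) with hu
  refine Measure.addHaar_eq_zero_of_disjoint_translates volume u ?_ ?_ hBclosed.measurableSet
  · have : Tendsto u atTop (𝓝 ((0 : ℝ) • (fun i => b k₀ i))) :=
      (tendsto_pow_atTop_nhds_zero_of_lt_one (by norm_num) (by norm_num)).smul_const _
    exact isBounded_range_of_tendsto _ this
  · intro m n hmn
    simp only [Function.onFun, singleton_add, disjoint_left]
    rintro z ⟨x, hx, rfl⟩ ⟨y, hy, hxy⟩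
    have h1 : y - x = ((1 / 2 : ℝ) ^ m - (1 / 2 : ℝ) ^ n) • (fun i => b k₀ i) := by
      simp only [hu] at hxy
      rw [sub_smul]
      ext i
      have := congrFun hxy i
      simp only [Pi.add_apply, Pi.smul_apply, smul_eq_mul, Pi.sub_apply] at this ⊢
      linarith
    have h2 := key x hx y hy
    rw [h1] at h2
    set α : ℝ := (1 / 2 : ℝ) ^ m - (1 / 2 : ℝ) ^ n with hα
    have hαne : α ≠ 0 := by
      rw [hα, sub_ne_zero]
      exact fun h => hmn ((pow_right_strictAnti₀ (by norm_num : (0:ℝ) < 1/2)
        (by norm_num : (1/2:ℝ) < 1)).injective h)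
    have h3 : ∀ k, cf k (α • (fun i => b k₀ i)) = α * (if k = k₀ then 1 else 0) := by
      intro k
      simp only [hcf, Pi.smul_apply, smul_eq_mul]
      rw [← horth k k₀, Finset.mul_sum]
      refine Finset.sum_congr rfl fun i _ => by ring
    have h4 : W (α • (fun i => b k₀ i)) = s k₀ * α ^ 2 := by
      simp only [hW]
      rw [Finset.sum_eq_single k₀]
      · rw [h3]; simp
      · intro k _ hk
        rw [h3, if_neg hk]; simp
      · intro h; exact absurd (Finset.mem_univ _) h
    have h5 : s k₀ = 1 := by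
      simp only [hs]
      rw [if_pos]
      linarith [hκI.2]
    rw [h4, h5] at h2
    have : 0 < α ^ 2 := by positivity
    linarith

end Pool.Agent.H96.Kur
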