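import Mathlib
import Pool.Agent.H96.Kur.Saddle

/-!
The set of initial conditions converging to a strict saddle is null.
-/

open Set Metric MeasureTheory Filter
open scoped Topology NNReal

namespace Pool.Agent.H96.Kur

variable {V : Type*} [Fintype V]

/-- `θ` is a strict saddle (negative direction of the Hessian). -/
def IsSaddle (A : V → V → ℝ) (θ : V → ℝ) : Prop :=
  ∃ d : V → ℝ, ∑ i, ∑ j, A i j * Real.cos (θ j - θ i) * (d j - d i) ^ 2 < 0

theorem bad_null (A : V → V → ℝ) (hA : ∀ i j, A i j = A j i)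
    {φ : ℝ → (V → ℝ) → (V → ℝ)} (hφ : IsFlow (kvf A) φ) :
    volume {x | ∃ θs, IsSaddle A θs ∧ Tendsto (fun t => φ t x) atTop (𝓝 θs)} = 0 := by
  classical
  have h1 : ∀ θs : V → ℝ, ∃ r : ℝ, IsSaddle A θs →
      0 < r ∧ volume {x | ∀ t : ℝ, 0 ≤ t → φ t x ∈ closedBall θs r} = 0 := by
    intro θs
    by_cases hs : IsSaddle A θs
    · obtain ⟨d, hd⟩ := hs
      obtain ⟨r, hr, hv⟩ := saddle_null A hA hφ θs d hd
      exact ⟨r, fun _ => ⟨hr, hv⟩⟩
    · exact ⟨0, fun h => absurd h hs⟩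
  choose r hr using h1
  set S : Set (V → ℝ) := {θs | IsSaddle A θs} with hS
  obtain ⟨T, hTS, hTc, hcov⟩ := TopologicalSpace.countable_cover_nhdsWithin
    (s := S) (f := fun θs => ball θs (r θs))
    (fun θs hθs => mem_nhdsWithin_of_mem_nhds (ball_mem_nhds θs (hr θs hθs).1))
  have hsub : {x | ∃ θs, IsSaddle A θs ∧ Tendsto (fun t => φ t x) atTop (𝓝 θs)} ⊆
      ⋃ θk ∈ T, ⋃ n : ℕ, (φ (-(n : ℝ))) '' {x | ∀ t : ℝ, 0 ≤ t → φ t x ∈ closedBall θk (r θk)} := by
    rintro x ⟨θs, hs, hlim⟩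
    have h2 := hcov (show θs ∈ S from hs)
    simp only [mem_iUnion, exists_prop] at h2
    obtain ⟨θk, hθk, hmem⟩ := h2
    have h3 : ∀ᶠ t in atTop, φ t x ∈ ball θk (r θk) :=
      hlim (isOpen_ball.mem_nhds hmem)
    obtain ⟨t₀, ht₀⟩ := eventually_atTop.mp h3
    obtain ⟨n, hn⟩ := exists_nat_ge t₀
    simp only [mem_iUnion, exists_prop]
    refine ⟨θk, hθk, n, φ n x, ?_, ?_⟩
    · intro t ht
      rw [← hφ.add (kvf_lipschitz A)]
      exact ball_subset_closedBall (ht₀ _ (by linarith))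
    · rw [← hφ.add (kvf_lipschitz A)]
      simp [hφ.zero]
  refine measure_mono_null hsub ?_
  rw [measure_biUnion_null_iff hTc]
  intro θk hθk
  rw [measure_iUnion_null_iff]
  intro n
  obtain ⟨C, hC⟩ := hφ.lipschitz (kvf_lipschitz A) (-(n : ℝ))
  exact null_image_of_lipschitz hC (hr θk (hTS hθk)).2

end Pool.Agent.H96.Kur
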