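import Mathlib

/-!
Linear algebra and one-class lemmas for the Lojasiewicz inequality.
-/

open Set Metric Filter
open scoped Topology

namespace Pool.Agent.H96.Kur

/-- Quantitative solvability of a linear system. -/
theorem hoffman {ι κ : Type*} [Fintype ι] [Fintype κ] (L : (ι → ℝ) →ₗ[ℝ] (κ → ℝ)) (b : κ → ℝ) :
    ∃ C : ℝ, 0 ≤ C ∧ ∃ δ : ℝ, 0 < δ ∧ ∀ s : ι → ℝ, ‖L s - b‖ ≤ δ →
      ∃ s' : ι → ℝ, L s' = b ∧ ‖s - s'‖ ≤ C * ‖L s - b‖ := by
  by_cases hb : b ∈ LinearMap.range L
  · -- solvable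
    obtain ⟨s₀, hs₀⟩ := hb
    set L' : (ι → ℝ) →ₗ[ℝ] LinearMap.range L := L.rangeRestrict with hL'
    set Lc : (ι → ℝ) →L[ℝ] LinearMap.range L := LinearMap.toContinuousLinearMap L' with hLc
    have hsurj : Function.Surjective Lc := L.surjective_rangeRestrict
    obtain ⟨C, hC, hpre⟩ := Lc.exists_preimage_norm_le hsurj
    refine ⟨C, hC.le, 1, one_pos, fun s _ => ?_⟩
    obtain ⟨x, hx, hxn⟩ := hpre (Lc (s - s₀))
    refine ⟨s - x, ?_, ?_⟩
    · have h1 : L x = L (s - s₀) := by
        have := congrArg Subtype.val hx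
        exact this
      rw [map_sub, h1, map_sub, hs₀]
      abel
    · have h2 : ‖Lc (s - s₀)‖ = ‖L s - b‖ := by
        have : ((Lc (s - s₀) : LinearMap.range L) : κ → ℝ) = L s - b := by
          change L (s - s₀) = L s - b
          rw [map_sub, hs₀]
        rw [← this]
        rfl
      rw [sub_sub_cancel, ← h2]
      exact hxn
  · -- not solvable : positive distance
    have hclosed : IsClosed (LinearMap.range L : Set (κ → ℝ)) :=
      Submodule.closed_of_finiteDimensional _
    have hpos : 0 < infDist b (LinearMap.range L : Set (κ → ℝ)) := by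
      rw [← hclosed.notMem_iff_infDist_pos ⟨0, Submodule.zero_mem _⟩]
      exact hb
    refine ⟨0, le_refl _, infDist b (LinearMap.range L : Set (κ → ℝ)) / 2, by positivity,
      fun s hs => ?_⟩
    exfalso
    have h1 : infDist b (LinearMap.range L : Set (κ → ℝ)) ≤ dist b (L s) :=
      infDist_le_dist_of_mem ⟨s, rfl⟩
    rw [dist_comm, dist_eq_norm] at h1
    linarith

/-- One class: if the class has an odd number of members, the projection of the sum of unit
vectors on a unit direction is close to an odd integer. -/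
theorem class_odd {V : Type*} (s : Finset V) (hodd : Odd s.card) (θ : V → ℝ) (zx zy : ℝ)
    (hz : zx ^ 2 + zy ^ 2 = 1) :
    ∃ κ : ℤ, Odd κ ∧ |κ| ≤ s.card ∧
      |(∑ a ∈ s, Real.cos (θ a)) * zx + (∑ a ∈ s, Real.sin (θ a)) * zy - κ| ≤
        ∑ a ∈ s, (Real.cos (θ a) * zy - Real.sin (θ a) * zx) ^ 2 := by
  classical
  set ε : V → ℤ := fun a => if 0 ≤ Real.cos (θ a) * zx + Real.sin (θ a) * zy then 1 else -1
    with hε
  refine ⟨∑ a ∈ s, ε a, ?_, ?_, ?_⟩
  · have h2 : (2 : ℤ) ∣ ∑ a ∈ s, (ε a - 1) := by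
      apply Finset.dvd_sum
      intro a _
      simp only [hε]
      split_ifs
      · simp
      · norm_num
    have h3 : ∑ a ∈ s, ε a = (s.card : ℤ) + ∑ a ∈ s, (ε a - 1) := by
      rw [Finset.sum_sub_distrib]
      simp
    rw [h3]
    obtain ⟨k, hk⟩ := h2
    obtain ⟨m, hm⟩ := hodd
    exact ⟨m + k, by rw [hk, hm]; push_cast; ring⟩
  · refine (Finset.abs_sum_le_sum_abs _ _).trans ?_
    have : ∀ a ∈ s, |ε a| ≤ 1 := by
      intro a _
      simp only [hε]
      split_ifs <;> simp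
    refine (Finset.sum_le_sum this).trans ?_
    simp
  · have h1 : (∑ a ∈ s, Real.cos (θ a)) * zx + (∑ a ∈ s, Real.sin (θ a)) * zy -
        ((∑ a ∈ s, ε a : ℤ) : ℝ) =
        ∑ a ∈ s, (Real.cos (θ a) * zx + Real.sin (θ a) * zy - (ε a : ℝ)) := by
      push_cast
      rw [Finset.sum_sub_distrib, Finset.sum_add_distrib, Finset.sum_mul, Finset.sum_mul]
    rw [h1]
    refine (Finset.abs_sum_le_sum_abs _ _).trans (Finset.sum_le_sum fun a _ => ?_)
    set p := Real.cos (θ a) * zx + Real.sin (θ a) * zy with hp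
    set q := Real.cos (θ a) * zy - Real.sin (θ a) * zx with hq
    have hpq : p ^ 2 + q ^ 2 = 1 := by
      have h2 := Real.sin_sq_add_cos_sq (θ a)
      have : p ^ 2 + q ^ 2 = (Real.sin (θ a) ^ 2 + Real.cos (θ a) ^ 2) * (zx ^ 2 + zy ^ 2) := by
        rw [hp, hq]; ring
      rw [this, h2, hz, one_mul]
    have hp1 : p ≤ 1 := by nlinarith [sq_nonneg q, sq_nonneg (p - 1)]
    have hp2 : -1 ≤ p := by nlinarith [sq_nonneg q, sq_nonneg (p + 1)]
    simp only [hε]
    split_ifs with h
    · push_cast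
      rw [abs_le]
      constructor <;> nlinarith
    · push Not at h
      push_cast
      rw [abs_le]
      constructor <;> nlinarith

end Pool.Agent.H96.Kur
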