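import Mathlib
import Pool.Agent.H96.Kur.BadNull
import Pool.Agent.H96.Kur.LinAlg

/-!
Clique blow-ups of a path: basic identities.
-/

open Set Metric MeasureTheory Filter
open scoped Topology NNReal

namespace Pool.Agent.H96.Kur

variable {V : Type*} [Fintype V]

/-- Coupling matrix of the clique blow-up of a path; `c` is the class function. -/
noncomputable def pathA (c : V → ℕ) (a b : V) : ℝ :=
  open Classical in
  if a ≠ b ∧ (c a = c b ∨ c a = c b + 1 ∨ c b = c a + 1) then 1 else 0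

omit [Fintype V] in
theorem pathA_symm (c : V → ℕ) (a b : V) : pathA c a b = pathA c b a := by
  unfold pathA
  congr 1
  apply propext
  constructor
  · rintro ⟨h1, h2 | h2 | h2⟩
    · exact ⟨h1.symm, Or.inl h2.symm⟩
    · exact ⟨h1.symm, Or.inr (Or.inr h2)⟩
    · exact ⟨h1.symm, Or.inr (Or.inl h2)⟩
  · rintro ⟨h1, h2 | h2 | h2⟩
    · exact ⟨h1.symm, Or.inl h2.symm⟩
    · exact ⟨h1.symm, Or.inr (Or.inr h2)⟩
    · exact ⟨h1.symm, Or.inr (Or.inl h2)⟩

omit [Fintype V] in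
theorem pathA_nonneg (c : V → ℕ) (a b : V) : 0 ≤ pathA c a b := by
  unfold pathA; split_ifs <;> norm_num

/-- members of a class -/
noncomputable def cls (c : V → ℕ) (k : ℕ) : Finset V := Finset.univ.filter fun a => c a = k

theorem mem_cls {c : V → ℕ} {k : ℕ} {a : V} : a ∈ cls c k ↔ c a = k := by
  simp [cls]

noncomputable def cx (c : V → ℕ) (θ : V → ℝ) (k : ℕ) : ℝ := ∑ a ∈ cls c k, Real.cos (θ a)
noncomputable def cy (c : V → ℕ) (θ : V → ℝ) (k : ℕ) : ℝ := ∑ a ∈ cls c k, Real.sin (θ a)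
noncomputable def zx (c : V → ℕ) (θ : V → ℝ) (k : ℕ) : ℝ :=
  cx c θ (k - 1) + cx c θ k + cx c θ (k + 1)
noncomputable def zy (c : V → ℕ) (θ : V → ℝ) (k : ℕ) : ℝ :=
  cy c θ (k - 1) + cy c θ k + cy c θ (k + 1)

theorem cls_zero {c : V → ℕ} (hc : ∀ a, 1 ≤ c a) : cls c 0 = ∅ := by
  ext a
  have := hc a
  simp only [mem_cls, Finset.notMem_empty, iff_false]
  omega

theorem cx_zero {c : V → ℕ} (hc : ∀ a, 1 ≤ c a) (θ : V → ℝ) : cx c θ 0 = 0 := by
  simp [cx, cls_zero hc]

theorem cy_zero {c : V → ℕ} (hc : ∀ a, 1 ≤ c a) (θ : V → ℝ) : cy c θ 0 = 0 := by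
  simp [cy, cls_zero hc]

/-- splitting a neighbour sum over the three classes, for a function vanishing at `a` -/
theorem sum_pathA {c : V → ℕ} (hc : ∀ a, 1 ≤ c a) (f : V → ℝ) (a : V) :
    ∑ b, pathA c a b * f b = (∑ b ∈ cls c (c a - 1), f b) + (∑ b ∈ cls c (c a), f b) +
      (∑ b ∈ cls c (c a + 1), f b) - f a := by
  classical
  have h1 : ∀ k, ∑ b ∈ cls c k, f b = ∑ b, if c b = k then f b else 0 := by
    intro k
    rw [cls, Finset.sum_filter]
  have h2 : f a = ∑ b, if b = a then f b else 0 := by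
    rw [Finset.sum_ite_eq' Finset.univ a f]
    simp
  rw [h1, h1, h1]
  rw [h2]
  rw [← Finset.sum_add_distrib, ← Finset.sum_add_distrib, ← Finset.sum_sub_distrib]
  refine Finset.sum_congr rfl fun b _ => ?_
  have hca := hc a
  unfold pathA
  by_cases hab : b = a
  · subst hab
    have g1 : ¬ (c b = c b - 1) := by omega
    have g2 : ¬ (c b = c b + 1) := by omega
    simp [g1]
  · have hab' : a ≠ b := fun h => hab h.symm
    rcases Nat.lt_trichotomy (c b) (c a) with h | h | h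
    · by_cases h' : c a = c b + 1
      · have g1 : c b = c a - 1 := by omega
        have g2 : ¬ (c b = c a) := by omega
        have g3 : ¬ (c b = c a + 1) := by omega
        rw [if_pos ⟨hab', Or.inr (Or.inl h')⟩, if_pos g1, if_neg g2, if_neg g3, if_neg hab]
        ring
      · have g1 : ¬ (c b = c a - 1) := by omega
        have g2 : ¬ (c b = c a) := by omega
        have g3 : ¬ (c b = c a + 1) := by omega
        have g4 : ¬ (a ≠ b ∧ (c a = c b ∨ c a = c b + 1 ∨ c b = c a + 1)) := by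
          rintro ⟨-, h | h | h⟩ <;> omega
        rw [if_neg g4, if_neg g1, if_neg g2, if_neg g3, if_neg hab]
        ring
    · have g1 : ¬ (c b = c a - 1) := by omega
      have g3 : ¬ (c b = c a + 1) := by omega
      rw [if_pos ⟨hab', Or.inl h.symm⟩, if_neg g1, if_pos h, if_neg g3, if_neg hab]
      ring
    · by_cases h' : c b = c a + 1
      · have g1 : ¬ (c b = c a - 1) := by omega
        have g2 : ¬ (c b = c a) := by omega
        rw [if_pos ⟨hab', Or.inr (Or.inr h')⟩, if_neg g1, if_neg g2, if_pos h', if_neg hab]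
        ring
      · have g1 : ¬ (c b = c a - 1) := by omega
        have g2 : ¬ (c b = c a) := by omega
        have g3 : ¬ (c b = c a + 1) := by omega
        have g4 : ¬ (a ≠ b ∧ (c a = c b ∨ c a = c b + 1 ∨ c b = c a + 1)) := by
          rintro ⟨-, h | h | h⟩ <;> omega
        rw [if_neg g4, if_neg g1, if_neg g2, if_neg g3, if_neg hab]
        ring

theorem kvf_path {c : V → ℕ} (hc : ∀ a, 1 ≤ c a) (θ : V → ℝ) (a : V) :
    kvf (pathA c) θ a = Real.cos (θ a) * zy c θ (c a) - Real.sin (θ a) * zx c θ (c a) := by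
  unfold kvf
  rw [sum_pathA hc (fun b => Real.sin (θ b - θ a))]
  simp only [Real.sin_sub, sub_self, Finset.sum_sub_distrib, ← Finset.sum_mul, zx, zy, cx, cy,
    Real.sin_zero]
  ring

theorem cossum_path {c : V → ℕ} (hc : ∀ a, 1 ≤ c a) (θ : V → ℝ) (a : V) :
    ∑ b, pathA c a b * Real.cos (θ b - θ a) =
      Real.cos (θ a) * zx c θ (c a) + Real.sin (θ a) * zy c θ (c a) - 1 := by
  rw [sum_pathA hc (fun b => Real.cos (θ b - θ a))]
  simp only [Real.cos_sub, Finset.sum_add_distrib, ← Finset.sum_mul, zx, zy, cx, cy]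
  have := Real.sin_sq_add_cos_sq (θ a)
  linear_combination (-1) * this

/-- squared norm of the gradient -/
noncomputable def gsq (A : V → V → ℝ) (θ : V → ℝ) : ℝ := ∑ a, kvf A θ a ^ 2

/-- minus twice the energy -/
noncomputable def pot (A : V → V → ℝ) (θ : V → ℝ) : ℝ := ∑ a, ∑ b, A a b * Real.cos (θ b - θ a)

theorem sum_fiber {c : V → ℕ} {n : ℕ} (hc : ∀ a, 1 ≤ c a) (hn : ∀ a, c a ≤ n) (f : V → ℝ) :
    ∑ a, f a = ∑ k ∈ Finset.Icc 1 n, ∑ a ∈ cls c k, f a := by
  classical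
  rw [← Finset.sum_fiberwise_of_maps_to (s := Finset.univ) (t := Finset.Icc 1 n) (g := c)]
  · rfl
  · intro a _
    exact Finset.mem_Icc.mpr ⟨hc a, hn a⟩

theorem pot_path {c : V → ℕ} {n : ℕ} (hc : ∀ a, 1 ≤ c a) (hn : ∀ a, c a ≤ n) (θ : V → ℝ) :
    pot (pathA c) θ + Fintype.card V =
      ∑ k ∈ Finset.Icc 1 n, (cx c θ k * zx c θ k + cy c θ k * zy c θ k) := by
  unfold pot
  have h1 : ∑ a, ∑ b, pathA c a b * Real.cos (θ b - θ a) + Fintype.card V =
      ∑ a, (Real.cos (θ a) * zx c θ (c a) + Real.sin (θ a) * zy c θ (c a)) := by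
    simp only [cossum_path hc]
    rw [Finset.sum_sub_distrib]
    simp
  rw [h1, sum_fiber hc hn]
  refine Finset.sum_congr rfl fun k _ => ?_
  rw [cx, cy, Finset.sum_mul, Finset.sum_mul, ← Finset.sum_add_distrib]
  refine Finset.sum_congr rfl fun a ha => ?_
  rw [mem_cls.mp ha]

theorem cross_class {c : V → ℕ} (hc : ∀ a, 1 ≤ c a) (θ : V → ℝ) (k : ℕ) :
    cx c θ k * zy c θ k - cy c θ k * zx c θ k = ∑ a ∈ cls c k, kvf (pathA c) θ a := by
  rw [cx, cy, Finset.sum_mul, Finset.sum_mul, ← Finset.sum_sub_distrib]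
  refine Finset.sum_congr rfl fun a ha => ?_
  rw [kvf_path hc, mem_cls.mp ha]

theorem gsq_nonneg (A : V → V → ℝ) (θ : V → ℝ) : 0 ≤ gsq A θ :=
  Finset.sum_nonneg fun _ _ => sq_nonneg _

theorem abs_kvf_le_sqrt (A : V → V → ℝ) (θ : V → ℝ) (a : V) :
    |kvf A θ a| ≤ Real.sqrt (gsq A θ) := by
  apply Real.abs_le_sqrt
  exact Finset.single_le_sum (f := fun a => kvf A θ a ^ 2) (fun _ _ => sq_nonneg _)
    (Finset.mem_univ a)

theorem card_cls_le (c : V → ℕ) (k : ℕ) : ((cls c k).card : ℝ) ≤ Fintype.card V := by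
  exact_mod_cast Finset.card_le_univ _

theorem abs_cross_class_le {c : V → ℕ} (hc : ∀ a, 1 ≤ c a) (θ : V → ℝ) (k : ℕ) :
    |cx c θ k * zy c θ k - cy c θ k * zx c θ k| ≤
      Fintype.card V * Real.sqrt (gsq (pathA c) θ) := by
  rw [cross_class hc]
  refine (Finset.abs_sum_le_sum_abs _ _).trans ?_
  refine (Finset.sum_le_sum fun a _ => abs_kvf_le_sqrt (pathA c) θ a).trans ?_
  rw [Finset.sum_const, nsmul_eq_mul]
  exact mul_le_mul_of_nonneg_right (card_cls_le c k) (Real.sqrt_nonneg _)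

theorem abs_cx_le (c : V → ℕ) (θ : V → ℝ) (k : ℕ) : |cx c θ k| ≤ Fintype.card V := by
  refine (Finset.abs_sum_le_sum_abs _ _).trans ?_
  refine (Finset.sum_le_sum fun a _ => Real.abs_cos_le_one _).trans ?_
  rw [Finset.sum_const, nsmul_eq_mul, mul_one]
  exact card_cls_le c k

theorem abs_cy_le (c : V → ℕ) (θ : V → ℝ) (k : ℕ) : |cy c θ k| ≤ Fintype.card V := by
  refine (Finset.abs_sum_le_sum_abs _ _).trans ?_
  refine (Finset.sum_le_sum fun a _ => Real.abs_sin_le_one _).trans ?_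
  rw [Finset.sum_const, nsmul_eq_mul, mul_one]
  exact card_cls_le c k

/-- the flux through the edge `k, k+1` of the path -/
noncomputable def flux (c : V → ℕ) (θ : V → ℝ) (k : ℕ) : ℝ :=
  cx c θ k * cy c θ (k + 1) - cy c θ k * cx c θ (k + 1)

theorem flux_le {c : V → ℕ} (hc : ∀ a, 1 ≤ c a) (θ : V → ℝ) (k : ℕ) :
    |flux c θ k| ≤ k * (Fintype.card V * Real.sqrt (gsq (pathA c) θ)) := by
  induction k with
  | zero => simp [flux, cx_zero hc, cy_zero hc]
  | succ k ih =>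
    have h1 := abs_cross_class_le hc θ (k + 1)
    have h2 : cx c θ (k + 1) * zy c θ (k + 1) - cy c θ (k + 1) * zx c θ (k + 1) =
        flux c θ (k + 1) - flux c θ k := by
      simp only [zx, zy, flux, Nat.add_sub_cancel]
      ring
    rw [h2] at h1
    have h3 : |flux c θ (k + 1)| ≤ |flux c θ (k + 1) - flux c θ k| + |flux c θ k| := by
      have := abs_add_le (flux c θ (k + 1) - flux c θ k) (flux c θ k)
      simpa using this
    push_cast
    linarith

/-- gradient mass of one class -/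
theorem class_gsq_le {c : V → ℕ} (hc : ∀ a, 1 ≤ c a) (θ : V → ℝ) (k : ℕ) :
    ∑ a ∈ cls c k, (Real.cos (θ a) * zy c θ k - Real.sin (θ a) * zx c θ k) ^ 2 ≤
      gsq (pathA c) θ := by
  unfold gsq
  calc ∑ a ∈ cls c k, (Real.cos (θ a) * zy c θ k - Real.sin (θ a) * zx c θ k) ^ 2
      = ∑ a ∈ cls c k, kvf (pathA c) θ a ^ 2 := by
        refine Finset.sum_congr rfl fun a ha => ?_
        rw [kvf_path hc, mem_cls.mp ha]
    _ ≤ ∑ a, kvf (pathA c) θ a ^ 2 :=
        Finset.sum_le_sum_of_subset_of_nonneg (Finset.subset_univ _) fun _ _ _ => sq_nonneg _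

/-- The one-class dichotomy. -/
theorem class_dich {c : V → ℕ} (hc : ∀ a, 1 ≤ c a) {k : ℕ} (hodd : Odd (cls c k).card)
    (θ : V → ℝ) (hz : 0 < zx c θ k ^ 2 + zy c θ k ^ 2) :
    ∃ κ : ℤ, Odd κ ∧ |(κ : ℝ)| ≤ Fintype.card V ∧ ∃ v : ℝ, 0 ≤ v ∧
      v * (zx c θ k ^ 2 + zy c θ k ^ 2) ≤ gsq (pathA c) θ ∧
      |cx c θ k ^ 2 + cy c θ k ^ 2 - κ ^ 2| ≤ 3 * Fintype.card V * v ∧
      (v < 1 / 2 → 1 / 4 ≤ cx c θ k ^ 2 + cy c θ k ^ 2) := by
  set N : ℝ := (Fintype.card V : ℝ) with hN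
  have hN0 : 0 ≤ N := Nat.cast_nonneg _
  set Z2 := zx c θ k ^ 2 + zy c θ k ^ 2 with hZ2
  set w := Real.sqrt Z2 with hw
  have hwpos : 0 < w := Real.sqrt_pos.mpr hz
  have hww : w ^ 2 = Z2 := Real.sq_sqrt hz.le
  set px := zx c θ k / w with hpx
  set py := zy c θ k / w with hpy
  have hunit : px ^ 2 + py ^ 2 = 1 := by
    rw [hpx, hpy, div_pow, div_pow, ← add_div, hww]
    exact div_self hz.ne'
  obtain ⟨κ, hκodd, hκle, hκ⟩ := class_odd (cls c k) hodd θ px py hunit
  set v := ∑ a ∈ cls c k, (Real.cos (θ a) * py - Real.sin (θ a) * px) ^ 2 with hv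
  have hv0 : 0 ≤ v := Finset.sum_nonneg fun _ _ => sq_nonneg _
  have hmle : ((cls c k).card : ℝ) ≤ N := card_cls_le c k
  have hκN : |(κ : ℝ)| ≤ N := by
    have : |(κ : ℝ)| ≤ ((cls c k).card : ℝ) := by exact_mod_cast hκle
    linarith
  refine ⟨κ, hκodd, hκN, v, hv0, ?_, ?_, ?_⟩
  · have h1 : v * Z2 = ∑ a ∈ cls c k,
        (Real.cos (θ a) * zy c θ k - Real.sin (θ a) * zx c θ k) ^ 2 := by
      rw [hv, Finset.sum_mul]
      refine Finset.sum_congr rfl fun a _ => ?_
      rw [← hww, hpx, hpy]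
      field_simp
    rw [h1]
    exact class_gsq_le hc θ k
  · -- |S|² = (S·p)² + (S×p)²
    set dp := cx c θ k * px + cy c θ k * py with hdp
    set cp := cx c θ k * py - cy c θ k * px with hcp
    have h1 : cx c θ k ^ 2 + cy c θ k ^ 2 = dp ^ 2 + cp ^ 2 := by
      have : dp ^ 2 + cp ^ 2 = (cx c θ k ^ 2 + cy c θ k ^ 2) * (px ^ 2 + py ^ 2) := by
        rw [hdp, hcp]; ring
      rw [this, hunit, mul_one]
    have h2 : |dp - κ| ≤ v := hκ
    have h3 : cp ^ 2 ≤ N * v := by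
      have h4 : cp = ∑ a ∈ cls c k, (Real.cos (θ a) * py - Real.sin (θ a) * px) := by
        rw [hcp, cx, cy, Finset.sum_mul, Finset.sum_mul, ← Finset.sum_sub_distrib]
      rw [h4]
      refine sq_sum_le_card_mul_sum_sq.trans ?_
      exact mul_le_mul_of_nonneg_right hmle hv0
    have h5 : |dp| ≤ N := by
      have h6 : dp = ∑ a ∈ cls c k, (Real.cos (θ a) * px + Real.sin (θ a) * py) := by
        rw [hdp, cx, cy, Finset.sum_mul, Finset.sum_mul, ← Finset.sum_add_distrib]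
      rw [h6]
      refine (Finset.abs_sum_le_sum_abs _ _).trans ?_
      have h7 : ∀ a ∈ cls c k, |Real.cos (θ a) * px + Real.sin (θ a) * py| ≤ 1 := by
        intro a _
        have h8 := Real.sin_sq_add_cos_sq (θ a)
        have h9 : (Real.cos (θ a) * px + Real.sin (θ a) * py) ^ 2 ≤ 1 := by
          have h10 : (Real.cos (θ a) * px + Real.sin (θ a) * py) ^ 2 +
              (Real.cos (θ a) * py - Real.sin (θ a) * px) ^ 2 =
              (Real.sin (θ a) ^ 2 + Real.cos (θ a) ^ 2) * (px ^ 2 + py ^ 2) := by ring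
          rw [h8, hunit] at h10
          nlinarith [sq_nonneg (Real.cos (θ a) * py - Real.sin (θ a) * px)]
        exact abs_le_one_iff_mul_self_le_one.mpr (by nlinarith)
      refine (Finset.sum_le_sum h7).trans ?_
      simp only [Finset.sum_const, nsmul_eq_mul, mul_one]
      exact hmle
    rw [h1]
    have h11 : dp ^ 2 + cp ^ 2 - (κ : ℝ) ^ 2 = (dp - κ) * (dp + κ) + cp ^ 2 := by ring
    rw [h11]
    have h12 : |(dp - κ) * (dp + κ)| ≤ v * (2 * N) := by
      rw [abs_mul]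
      have : |dp + κ| ≤ 2 * N := (abs_add_le _ _).trans (by linarith)
      exact mul_le_mul h2 this (abs_nonneg _) hv0
    have h13 : |cp ^ 2| ≤ N * v := by rw [abs_of_nonneg (sq_nonneg _)]; exact h3
    refine (abs_add_le _ _).trans ?_
    linarith
  · intro hvlt
    set dp := cx c θ k * px + cy c θ k * py with hdp
    have h2 : |dp - κ| ≤ v := hκ
    have h3 : 1 ≤ |(κ : ℝ)| := by
      have : κ ≠ 0 := by
        intro h; rw [h] at hκodd; exact absurd hκodd (by decide)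
      have : 1 ≤ |κ| := Int.one_le_abs this
      exact_mod_cast this
    have h4 : 1 / 2 ≤ |dp| := by
      have : |(κ : ℝ)| ≤ |dp| + |dp - κ| := by
        have := abs_sub dp (dp - κ)
        rw [sub_sub_cancel] at this
        exact this
      linarith
    have h5 : dp ^ 2 ≤ cx c θ k ^ 2 + cy c θ k ^ 2 := by
      have : dp ^ 2 + (cx c θ k * py - cy c θ k * px) ^ 2 =
          (cx c θ k ^ 2 + cy c θ k ^ 2) * (px ^ 2 + py ^ 2) := by
        rw [hdp]; ring
      rw [hunit, mul_one] at this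
      nlinarith [sq_nonneg (cx c θ k * py - cy c θ k * px)]
    have h6 : (1 / 2 : ℝ) ^ 2 ≤ dp ^ 2 := by
      rw [← sq_abs dp]
      exact pow_le_pow_left₀ (by norm_num) h4 2
    linarith

end Pool.Agent.H96.Kur
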