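import Mathlib
import Pool.Agent.H96.Kur.PathBlow

/-!
Energy barrier around the kink state of the blown-up path with a universal vertex.
-/

open Set Metric MeasureTheory Filter
open scoped Topology NNReal

namespace Pool.Agent.H96.Kur

variable {V : Type*} [Fintype V]

theorem cos_sub_cos_add_ge {D d : ℝ} (hd : |d| ≤ 1 / 5) :
    Real.sin D * d + (1 / 2) * (Real.cos D - 3 / 40) * d ^ 2 ≤ Real.cos D - Real.cos (D + d) := by
  have h1 : |d| ≤ 1 := by linarith
  have hc := Real.cos_bound h1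
  have hs := Real.sin_bound h1
  have hcD := Real.abs_cos_le_one D
  have hsD := Real.abs_sin_le_one D
  rw [Real.cos_add]
  set ec := Real.cos d - (1 - d ^ 2 / 2) with hec
  set es := Real.sin d - (d - d ^ 3 / 6) with hes
  have e1 : Real.cos d = 1 - d ^ 2 / 2 + ec := by rw [hec]; ring
  have e2 : Real.sin d = d - d ^ 3 / 6 + es := by rw [hes]; ring
  have hd2 : |d| ^ 2 = d ^ 2 := sq_abs d
  have hd4 : |d| ^ 4 ≤ (1 / 25) * d ^ 2 := by
    have : |d| ^ 4 = |d| ^ 2 * |d| ^ 2 := by ring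
    rw [this, ← hd2]
    have h3 : |d| ^ 2 ≤ (1 / 5) ^ 2 := pow_le_pow_left₀ (abs_nonneg d) hd 2
    have h4 : 0 ≤ |d| ^ 2 := by positivity
    nlinarith
  have hd3 : |d ^ 3| ≤ (1 / 5) * d ^ 2 := by
    rw [abs_pow]
    have : |d| ^ 3 = |d| * |d| ^ 2 := by ring
    rw [this, hd2]
    exact mul_le_mul_of_nonneg_right hd (sq_nonneg d)
  have b1 : |Real.cos D * ec| ≤ (1 / 480) * d ^ 2 := by
    rw [abs_mul]
    have : |Real.cos D| * |ec| ≤ 1 * (|d| ^ 4 * (5 / 96)) :=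
      mul_le_mul hcD hc (abs_nonneg _) zero_le_one
    linarith
  have b2 : |Real.sin D * es| ≤ (1 / 480) * d ^ 2 := by
    rw [abs_mul]
    have h5 : |d| ^ 5 / 100 ≤ |d| ^ 4 * (5 / 96) := by
      have : |d| ^ 5 = |d| ^ 4 * |d| := by ring
      rw [this]
      have h6 : 0 ≤ |d| ^ 4 := by positivity
      nlinarith
    have : |Real.sin D| * |es| ≤ 1 * (|d| ^ 4 * (5 / 96)) :=
      mul_le_mul hsD (hs.trans h5) (abs_nonneg _) zero_le_one
    linarith
  have b3 : |Real.sin D * d ^ 3| ≤ (1 / 5) * d ^ 2 := by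
    rw [abs_mul]
    have : |Real.sin D| * |d ^ 3| ≤ 1 * ((1 / 5) * d ^ 2) :=
      mul_le_mul hsD hd3 (abs_nonneg _) zero_le_one
    linarith
  have c1 := (abs_le.mp b1).2
  have c2 := (abs_le.mp b2).1
  have c3 := (abs_le.mp b3).2
  have e3 : Real.cos D - (Real.cos D * Real.cos d - Real.sin D * Real.sin d) =
      Real.sin D * d + (1 / 2) * Real.cos D * d ^ 2 - Real.cos D * ec + Real.sin D * es -
        (1 / 6) * (Real.sin D * d ^ 3) := by
    rw [e1, e2]; ring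
  rw [e3]
  nlinarith [sq_nonneg d]

omit [Fintype V] in
theorem pair_sum (s t : Finset V) (x : V → ℝ) (σ w : ℝ) :
    ∑ a ∈ s, ∑ b ∈ t, (σ * (x b - x a) + (1 / 2) * w * (x b - x a) ^ 2) =
      σ * (s.card * (∑ b ∈ t, x b) - t.card * ∑ a ∈ s, x a) +
      (1 / 2) * w * (s.card * (∑ b ∈ t, x b ^ 2) + t.card * (∑ a ∈ s, x a ^ 2) -
        2 * (∑ a ∈ s, x a) * (∑ b ∈ t, x b)) := by
  have h1 : ∀ a ∈ s, ∑ b ∈ t, (σ * (x b - x a) + (1 / 2) * w * (x b - x a) ^ 2) =
      σ * (∑ b ∈ t, x b) - σ * t.card * x a + (1 / 2) * w * (∑ b ∈ t, x b ^ 2) +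
      (1 / 2) * w * t.card * x a ^ 2 - w * (∑ b ∈ t, x b) * x a := by
    intro a _
    have h2 : ∀ b, σ * (x b - x a) + (1 / 2) * w * (x b - x a) ^ 2 =
      σ * x b - σ * x a + (1 / 2) * w * x b ^ 2 + (1 / 2) * w * x a ^ 2 - (w * x a) * x b := by
      intro b; ring
    simp only [h2, Finset.sum_add_distrib, Finset.sum_sub_distrib, ← Finset.mul_sum,
      Finset.sum_const, nsmul_eq_mul]
    ring
  rw [Finset.sum_congr rfl h1]
  simp only [Finset.sum_add_distrib, Finset.sum_sub_distrib, ← Finset.mul_sum,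
      Finset.sum_const, nsmul_eq_mul]
  ring

/-- Reduce the full pair sum to sums over consecutive classes. -/
theorem pair_reduce {c : V → ℕ} (hc : ∀ a, 1 ≤ c a) (h7 : ∀ a, c a ≤ 7) (h : V → V → ℝ)
    (hsym : ∀ a b, h a b = h b a) (h0 : ∀ a, h a a = 0) (hin : ∀ a b, c a = c b → 0 ≤ h a b) :
    2 * ((∑ a ∈ cls c 1, ∑ b ∈ cls c 2, h a b) + (∑ a ∈ cls c 2, ∑ b ∈ cls c 3, h a b) +
      (∑ a ∈ cls c 3, ∑ b ∈ cls c 4, h a b) + (∑ a ∈ cls c 4, ∑ b ∈ cls c 5, h a b) +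
      (∑ a ∈ cls c 5, ∑ b ∈ cls c 6, h a b) + (∑ a ∈ cls c 6, ∑ b ∈ cls c 7, h a b)) ≤
    ∑ a, ∑ b, pathA c a b * h a b := by
  classical
  have h1 : ∀ a, (∑ b ∈ cls c (c a - 1), h a b) + (∑ b ∈ cls c (c a + 1), h a b) ≤
      ∑ b, pathA c a b * h a b := by
    intro a
    rw [sum_pathA hc (fun b => h a b) a, h0]
    have : 0 ≤ ∑ b ∈ cls c (c a), h a b :=
      Finset.sum_nonneg fun b hb => hin a b (mem_cls.mp hb).symm
    linarith
  refine le_trans ?_ (Finset.sum_le_sum fun a _ => h1 a)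
  rw [sum_fiber hc h7]
  set H : ℕ → ℕ → ℝ := fun k l => ∑ a ∈ cls c k, ∑ b ∈ cls c l, h a b with hH
  have hHsym : ∀ k l, H k l = H l k := by
    intro k l
    simp only [hH]
    rw [Finset.sum_comm]
    refine Finset.sum_congr rfl fun a _ => Finset.sum_congr rfl fun b _ => hsym _ _
  have h2 : ∀ k ∈ Finset.Icc 1 7, ∑ a ∈ cls c k, ((∑ b ∈ cls c (c a - 1), h a b) +
      (∑ b ∈ cls c (c a + 1), h a b)) = H k (k - 1) + H k (k + 1) := by
    intro k _
    simp only [hH]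
    rw [← Finset.sum_add_distrib]
    refine Finset.sum_congr rfl fun a ha => ?_
    rw [mem_cls.mp ha]
  rw [Finset.sum_congr rfl h2]
  have h3 : Finset.Icc 1 7 = ({1, 2, 3, 4, 5, 6, 7} : Finset ℕ) := by decide
  have h4 : H 1 0 = 0 := by simp only [hH, cls_zero hc]; simp
  have h5 : H 7 8 = 0 := by
    have : cls c 8 = ∅ := by
      ext a
      have := h7 a
      simp only [mem_cls, Finset.notMem_empty, iff_false]
      omega
    simp only [hH, this]; simp
  rw [h3, Finset.sum_insert (by decide), Finset.sum_insert (by decide),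
    Finset.sum_insert (by decide), Finset.sum_insert (by decide), Finset.sum_insert (by decide),
    Finset.sum_insert (by decide), Finset.sum_singleton]
  simp only [Nat.reduceAdd, Nat.reduceSub]
  rw [h4, h5, hHsym 2 1, hHsym 3 2, hHsym 4 3, hHsym 5 4, hHsym 6 5, hHsym 7 6]
  apply le_of_eq
  simp only [hH]
  ring

end Pool.Agent.H96.Kur
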