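import Mathlib
import Pool.Agent.H96.Kur.PathBlow

/-!
Convergence of trajectories from a Lojasiewicz inequality.
-/

open Set Metric MeasureTheory Filter
open scoped Topology NNReal

namespace Pool.Agent.H96.Kur

variable {V : Type*} [Fintype V]

theorem pot_hasDerivAt (A : V → V → ℝ) (hA : ∀ i j, A i j = A j i) {θ : ℝ → V → ℝ} {t : ℝ}
    (hθ : HasDerivAt θ (kvf A (θ t)) t) :
    HasDerivAt (fun s => pot A (θ s)) (2 * gsq A (θ t)) t := by
  have hcoord : ∀ a, HasDerivAt (fun s => θ s a) (kvf A (θ t) a) t := fun a =>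
    (hasDerivAt_pi.mp hθ) a
  have h1 : HasDerivAt (fun s => pot A (θ s))
      (∑ a, ∑ b, A a b * (-Real.sin (θ t b - θ t a) * (kvf A (θ t) b - kvf A (θ t) a))) t := by
    unfold pot
    refine HasDerivAt.fun_sum fun a _ => HasDerivAt.fun_sum fun b _ => ?_
    exact (((hcoord b).sub (hcoord a)).cos).const_mul (A a b)
  refine h1.congr_deriv ?_
  have h2 : ∀ a b, A a b * (-Real.sin (θ t b - θ t a) * (kvf A (θ t) b - kvf A (θ t) a)) =
      kvf A (θ t) b * (A b a * Real.sin (θ t a - θ t b)) +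
      kvf A (θ t) a * (A a b * Real.sin (θ t b - θ t a)) := by
    intro a b
    rw [hA b a, ← neg_sub (θ t b) (θ t a), Real.sin_neg]
    ring
  simp only [h2, Finset.sum_add_distrib]
  rw [Finset.sum_comm]
  have h3 : ∀ a, ∑ b, kvf A (θ t) a * (A a b * Real.sin (θ t b - θ t a)) = kvf A (θ t) a ^ 2 := by
    intro a
    rw [← Finset.mul_sum]
    change kvf A (θ t) a * kvf A (θ t) a = _
    ring
  simp only [h3]
  rw [gsq]
  ring

theorem pot_le (A : V → V → ℝ) (θ : V → ℝ) : pot A θ ≤ tot A := by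
  unfold pot tot
  refine Finset.sum_le_sum fun a _ => Finset.sum_le_sum fun b _ => ?_
  calc A a b * Real.cos (θ b - θ a) ≤ |A a b * Real.cos (θ b - θ a)| := le_abs_self _
    _ = |A a b| * |Real.cos (θ b - θ a)| := abs_mul _ _
    _ ≤ |A a b| * 1 := mul_le_mul_of_nonneg_left (Real.abs_cos_le_one _) (abs_nonneg _)
    _ = |A a b| := mul_one _

theorem exists_cube_root {x : ℝ} (hx : 0 ≤ x) : ∃ ρ : ℝ, 0 ≤ ρ ∧ ρ ^ 3 = x := by
  refine ⟨x ^ (1 / 3 : ℝ), Real.rpow_nonneg hx _, ?_⟩
  rw [← Real.rpow_natCast, ← Real.rpow_mul hx]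
  norm_num

theorem tendsto_of_monotoneOn {f : ℝ → ℝ} {T B : ℝ} (hm : MonotoneOn f (Ici T))
    (hB : ∀ t, T ≤ t → f t ≤ B) : ∃ l, Tendsto f atTop (𝓝 l) := by
  have h1 : Monotone fun t => f (max t T) := by
    intro s t hst
    exact hm (mem_Ici.mpr (le_max_right _ _)) (mem_Ici.mpr (le_max_right _ _))
      (max_le_max_right _ hst)
  have h2 : BddAbove (range fun t => f (max t T)) := by
    refine ⟨B, ?_⟩
    rintro _ ⟨t, rfl⟩
    exact hB _ (le_max_right _ _)
  refine ⟨_, (tendsto_atTop_ciSup h1 h2).congr' ?_⟩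
  filter_upwards [eventually_ge_atTop T] with t ht
  rw [max_eq_left ht]

theorem stationary {A : V → V → ℝ} {φ : ℝ → (V → ℝ) → (V → ℝ)} (hφ : IsFlow (kvf A) φ)
    {y : V → ℝ} (hy : kvf A y = 0) (s : ℝ) : φ s y = y := by
  have h1 : ∀ t, HasDerivAt (fun _ : ℝ => y) (kvf A ((fun _ : ℝ => y) t)) t := by
    intro t
    simp only [hy]
    exact hasDerivAt_const t y
  have := hφ.unique (kvf_lipschitz A) h1 y (t₀ := 0) (by simp [hφ.zero])
  exact (congrFun this s).symm

theorem limit_stationary {A : V → V → ℝ} {φ : ℝ → (V → ℝ) → (V → ℝ)} (hφ : IsFlow (kvf A) φ)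
    {x y : V → ℝ} (h : Tendsto (fun t => φ t x) atTop (𝓝 y)) : kvf A y = 0 := by
  have h1 : ∀ s, φ s y = y := by
    intro s
    have h2 : Tendsto (fun t => φ s (φ t x)) atTop (𝓝 (φ s y)) :=
      ((hφ.continuous_space (kvf_lipschitz A) s).tendsto y).comp h
    have h3 : Tendsto (fun t => φ (s + t) x) atTop (𝓝 y) :=
      h.comp (tendsto_atTop_add_const_left atTop s tendsto_id)
    have h4 : (fun t => φ (s + t) x) = fun t => φ s (φ t x) := by
      ext1 t
      exact hφ.add (kvf_lipschitz A) s t x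
    rw [h4] at h3
    exact tendsto_nhds_unique h2 h3
  have h5 := hφ.deriv y 0
  rw [hφ.zero] at h5
  have h6 : (fun s => φ s y) = fun _ => y := by
    ext1 s; exact h1 s
  rw [h6] at h5
  exact h5.unique (hasDerivAt_const 0 y)

theorem converge {A : V → V → ℝ} (hA : ∀ i j, A i j = A j i)
    {φ : ℝ → (V → ℝ) → (V → ℝ)} (hφ : IsFlow (kvf A) φ)
    (hloj : ∃ (E : Finset ℝ) (C δ : ℝ), 0 ≤ C ∧ 0 < δ ∧ ∀ (θ : V → ℝ) (ρ : ℝ), 0 ≤ ρ → ρ ≤ δ →
      ρ ^ 3 = gsq A θ → ∃ e ∈ E, |pot A θ - e| ≤ C * ρ ^ 2) (x : V → ℝ) :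
    ∃ y, Tendsto (fun t => φ t x) atTop (𝓝 y) := by
  classical
  obtain ⟨E, C, δ, hC0, hδ, hE⟩ := hloj
  set P : ℝ → ℝ := fun t => pot A (φ t x) with hP
  have hPd : ∀ t, HasDerivAt P (2 * gsq A (φ t x)) t := fun t =>
    pot_hasDerivAt A hA (hφ.deriv x t)
  have hPmono : Monotone P := by
    apply monotone_of_deriv_nonneg
    · exact fun t => (hPd t).differentiableAt
    · intro t
      rw [(hPd t).deriv]
      have := gsq_nonneg A (φ t x)
      positivity
  have hPb : BddAbove (range P) := ⟨tot A, by rintro _ ⟨t, rfl⟩; exact pot_le A _⟩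
  set Pi : ℝ := ⨆ t, P t with hPi
  have hPlim : Tendsto P atTop (𝓝 Pi) := tendsto_atTop_ciSup hPmono hPb
  have hPle : ∀ t, P t ≤ Pi := fun t => le_ciSup hPb t
  -- gap
  obtain ⟨η, hη, hgap⟩ : ∃ η : ℝ, 0 < η ∧ ∀ e ∈ E, e ≠ Pi → η ≤ |e - Pi| := by
    by_cases hne : (E.erase Pi).Nonempty
    · refine ⟨(E.erase Pi).inf' hne fun e => |e - Pi|, ?_, ?_⟩
      · rw [Finset.lt_inf'_iff]
        intro e he
        exact abs_pos.mpr (sub_ne_zero.mpr (Finset.ne_of_mem_erase he))
      · intro e he hne'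
        exact Finset.inf'_le (fun e => |e - Pi|) (Finset.mem_erase.mpr ⟨hne', he⟩)
    · refine ⟨1, one_pos, fun e he hne' => ?_⟩
      exact absurd ⟨e, Finset.mem_erase.mpr ⟨hne', he⟩⟩ hne
  set h : ℝ → ℝ := fun t => Pi - P t with hh
  have hh0 : ∀ t, 0 ≤ h t := fun t => sub_nonneg.mpr (hPle t)
  have hhlim : Tendsto h atTop (𝓝 0) := by
    have := hPlim.const_sub Pi
    simpa using this
  have hhd : ∀ t, HasDerivAt h (-(2 * gsq A (φ t x))) t := by
    intro t
    exact (hPd t).const_sub Pi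
  have hev : ∀ᶠ t in atTop, h t ≤ min (η / 2) (δ ^ 2) :=
    hhlim.eventually_le_const (by positivity)
  obtain ⟨T, hT⟩ := eventually_atTop.mp hev
  set D : ℝ := C + 1 with hD
  have hD1 : 1 ≤ D := by linarith
  have key : ∀ t, T ≤ t → ∀ ρ : ℝ, 0 ≤ ρ → ρ ^ 3 = gsq A (φ t x) → h t ≤ D * ρ ^ 2 := by
    intro t ht ρ hρ0 hρ
    have hht := hT t ht
    rcases le_or_gt ρ δ with hle | hlt
    · obtain ⟨e, he, hPe⟩ := hE (φ t x) ρ hρ0 hle hρ
      have hsq : 0 ≤ ρ ^ 2 := sq_nonneg _
      by_cases hePi : e = Pi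
      · rw [hePi] at hPe
        have : h t ≤ |pot A (φ t x) - Pi| := by
          rw [abs_sub_comm]; exact le_abs_self _
        calc h t ≤ C * ρ ^ 2 := this.trans hPe
          _ ≤ D * ρ ^ 2 := mul_le_mul_of_nonneg_right (by linarith) hsq
      · have h1 := hgap e he hePi
        have h2 : |e - Pi| ≤ |pot A (φ t x) - e| + |h t| := by
          have : e - Pi = -(pot A (φ t x) - e) - h t := by simp only [hh, hP]; ring
          rw [this]
          refine (abs_sub _ _).trans ?_
          rw [abs_neg]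
        rw [abs_of_nonneg (hh0 t)] at h2
        have h3 : h t ≤ η / 2 := hht.trans (min_le_left _ _)
        have h4 : η / 2 ≤ C * ρ ^ 2 := by linarith
        calc h t ≤ C * ρ ^ 2 := h3.trans h4
          _ ≤ D * ρ ^ 2 := mul_le_mul_of_nonneg_right (by linarith) hsq
    · have h3 : h t ≤ δ ^ 2 := hht.trans (min_le_right _ _)
      have h4 : δ ^ 2 ≤ ρ ^ 2 := pow_le_pow_left₀ hδ.le hlt.le 2
      calc h t ≤ 1 * ρ ^ 2 := by linarith
        _ ≤ D * ρ ^ 2 := mul_le_mul_of_nonneg_right hD1 (sq_nonneg _)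
  by_cases hcase : ∃ t₀, T ≤ t₀ ∧ h t₀ = 0
  · -- stationary from some time on
    obtain ⟨t₀, ht₀, hz⟩ := hcase
    have hzero : ∀ t, t₀ ≤ t → h t = 0 := by
      intro t ht
      have h1 : h t ≤ h t₀ := sub_le_sub_left (hPmono ht) Pi
      linarith [hh0 t]
    have hd0 : HasDerivAt h 0 (t₀ + 1) := by
      have : h =ᶠ[𝓝 (t₀ + 1)] fun _ => 0 := by
        filter_upwards [Ioi_mem_nhds (show t₀ < t₀ + 1 by linarith)] with t ht
        exact hzero t (le_of_lt ht)
      exact (hasDerivAt_const (t₀ + 1) (0 : ℝ)).congr_of_eventuallyEq this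
    have h2 := (hhd (t₀ + 1)).unique hd0
    have h3 : gsq A (φ (t₀ + 1) x) = 0 := by linarith
    have h4 : kvf A (φ (t₀ + 1) x) = 0 := by
      ext a
      have := (Finset.sum_eq_zero_iff_of_nonneg (fun a _ => sq_nonneg _)).mp h3 a
        (Finset.mem_univ _)
      simpa using this
    refine ⟨φ (t₀ + 1) x, ?_⟩
    refine tendsto_const_nhds.congr' ?_
    filter_upwards with t
    have h5 := hφ.add (kvf_lipschitz A) (t - (t₀ + 1)) (t₀ + 1) x
    rw [sub_add_cancel, stationary hφ h4] at h5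
    exact h5.symm
  · push Not at hcase
    have hpos : ∀ t, T ≤ t → 0 < h t := fun t ht =>
      lt_of_le_of_ne (hh0 t) (Ne.symm (hcase t ht))
    set u : ℝ → ℝ := fun t => Real.sqrt (Real.sqrt (h t)) with hu
    have hu0 : ∀ t, 0 ≤ u t := fun t => Real.sqrt_nonneg _
    have hud : ∀ t, T ≤ t → HasDerivAt u
        (-(2 * gsq A (φ t x)) / (2 * Real.sqrt (h t)) / (2 * Real.sqrt (Real.sqrt (h t)))) t := by
      intro t ht
      have h1 := (hhd t).sqrt (hpos t ht).ne'
      exact h1.sqrt (Real.sqrt_pos.mpr (hpos t ht)).ne'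
    have hulim : Tendsto u atTop (𝓝 0) := by
      have h1 : Tendsto (fun t => Real.sqrt (Real.sqrt (h t))) atTop
          (𝓝 (Real.sqrt (Real.sqrt 0))) :=
        (Real.continuous_sqrt.tendsto _).comp ((Real.continuous_sqrt.tendsto _).comp hhlim)
      simpa using h1
    have hspeed : ∀ t, T ≤ t → ∀ a, |kvf A (φ t x) a| ≤
        -(2 * D * (-(2 * gsq A (φ t x)) / (2 * Real.sqrt (h t)) /
          (2 * Real.sqrt (Real.sqrt (h t))))) := by
      intro t ht a
      refine (abs_kvf_le_sqrt A (φ t x) a).trans ?_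
      obtain ⟨ρ, hρ0, hρ⟩ := exists_cube_root (gsq_nonneg A (φ t x))
      have hk := key t ht ρ hρ0 hρ
      set w := Real.sqrt (Real.sqrt (h t)) with hw
      have hwpos : 0 < w := Real.sqrt_pos.mpr (Real.sqrt_pos.mpr (hpos t ht))
      have hw2 : Real.sqrt (h t) = w ^ 2 := by
        rw [hw, Real.sq_sqrt (Real.sqrt_nonneg _)]
      have hw4 : h t = w ^ 4 := by
        have : h t = Real.sqrt (h t) ^ 2 := (Real.sq_sqrt (hh0 t)).symm
        rw [this, hw2]; ring
      rw [hw2]
      set G := gsq A (φ t x) with hG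
      have hG0 : 0 ≤ G := gsq_nonneg A _
      set sG := Real.sqrt G with hsG
      have hsG0 : 0 ≤ sG := Real.sqrt_nonneg _
      have hsG2 : sG ^ 2 = G := Real.sq_sqrt hG0
      have e1 : -(2 * D * (-(2 * G) / (2 * w ^ 2) / (2 * w))) = D * G / w ^ 3 := by
        field_simp
      rw [e1, le_div_iff₀ (by positivity)]
      -- w ^ 3 ≤ D * sG
      have e2 : w ^ 3 ≤ D * sG := by
        rw [hw4] at hk
        have e3 : (w ^ 4) ^ 3 ≤ (D * ρ ^ 2) ^ 3 := pow_le_pow_left₀ (by positivity) hk 3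
        have e4 : (w ^ 3) ^ 4 ≤ (D * sG) ^ 4 := by
          calc (w ^ 3) ^ 4 = (w ^ 4) ^ 3 := by ring
            _ ≤ (D * ρ ^ 2) ^ 3 := e3
            _ = D ^ 3 * (ρ ^ 3) ^ 2 := by ring
            _ = D ^ 3 * (sG ^ 2) ^ 2 := by rw [hρ, hsG2]
            _ ≤ D ^ 4 * (sG ^ 2) ^ 2 := by
                apply mul_le_mul_of_nonneg_right _ (by positivity)
                exact pow_le_pow_right₀ hD1 (by norm_num)
            _ = (D * sG) ^ 4 := by ring
        exact le_of_pow_le_pow_left₀ (by norm_num) (by positivity) e4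
      calc sG * w ^ 3 ≤ sG * (D * sG) := mul_le_mul_of_nonneg_left e2 hsG0
        _ = D * sG ^ 2 := by ring
        _ = D * G := by rw [hsG2]
    have hcoordd : ∀ a t, HasDerivAt (fun s => φ s x a) (kvf A (φ t x) a) t := fun a t =>
      (hasDerivAt_pi.mp (hφ.deriv x t)) a
    have hcoord : ∀ a, ∃ l, Tendsto (fun t => φ t x a) atTop (𝓝 l) := by
      intro a
      have hd1 : ∀ t, T ≤ t → HasDerivAt (fun s => φ s x a - 2 * D * u s)
          (kvf A (φ t x) a - 2 * D * (-(2 * gsq A (φ t x)) / (2 * Real.sqrt (h t)) /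
          (2 * Real.sqrt (Real.sqrt (h t))))) t := fun t ht =>
        (hcoordd a t).sub ((hud t ht).const_mul (2 * D))
      have hd2 : ∀ t, T ≤ t → HasDerivAt (fun s => φ s x a + 2 * D * u s)
          (kvf A (φ t x) a + 2 * D * (-(2 * gsq A (φ t x)) / (2 * Real.sqrt (h t)) /
          (2 * Real.sqrt (Real.sqrt (h t))))) t := fun t ht =>
        (hcoordd a t).add ((hud t ht).const_mul (2 * D))
      have hm1 : MonotoneOn (fun s => φ s x a - 2 * D * u s) (Ici T) := by
        apply monotoneOn_of_deriv_nonneg (convex_Ici T)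
        · exact fun t ht => (hd1 t ht).continuousAt.continuousWithinAt
        · intro t ht
          rw [interior_Ici] at ht
          exact (hd1 t (le_of_lt ht)).differentiableAt.differentiableWithinAt
        · intro t ht
          rw [interior_Ici] at ht
          rw [(hd1 t (le_of_lt ht)).deriv]
          have := hspeed t (le_of_lt ht) a
          rw [abs_le] at this
          linarith [this.1]
      have hm2 : AntitoneOn (fun s => φ s x a + 2 * D * u s) (Ici T) := by
        apply antitoneOn_of_deriv_nonpos (convex_Ici T)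
        · exact fun t ht => (hd2 t ht).continuousAt.continuousWithinAt
        · intro t ht
          rw [interior_Ici] at ht
          exact (hd2 t (le_of_lt ht)).differentiableAt.differentiableWithinAt
        · intro t ht
          rw [interior_Ici] at ht
          rw [(hd2 t (le_of_lt ht)).deriv]
          have := hspeed t (le_of_lt ht) a
          rw [abs_le] at this
          linarith [this.2]
      have hb : ∀ t, T ≤ t → φ t x a - 2 * D * u t ≤ φ T x a + 2 * D * u T := by
        intro t ht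
        have h1 := hm2 (mem_Ici.mpr (le_refl T)) (mem_Ici.mpr ht) ht
        simp only at h1
        have h2 : 0 ≤ 2 * D * u t := by
          have := hu0 t
          positivity
        linarith
      obtain ⟨l, hl⟩ := tendsto_of_monotoneOn hm1 hb
      refine ⟨l, ?_⟩
      have h3 := hl.add (hulim.const_mul (2 * D))
      simp only [mul_zero, add_zero] at h3
      refine h3.congr fun t => ?_
      ring
    choose l hl using hcoord
    exact ⟨l, tendsto_pi_nhds.mpr hl⟩

end Pool.Agent.H96.Kur
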