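import Mathlib
import Pool.Agent.H96.Kur.PathBlow

/-!
Almost common direction of the class sums.
-/

open Set Metric MeasureTheory Filter
open scoped Topology NNReal

namespace Pool.Agent.H96.Kur

variable {V : Type*} [Fintype V]

theorem light {c : V → ℕ} (hc : ∀ a, 1 ≤ c a) {k : ℕ} (hodd : Odd (cls c k).card) (θ : V → ℝ)
    (h : cx c θ k ^ 2 + cy c θ k ^ 2 < 1 / 4) :
    zx c θ k ^ 2 + zy c θ k ^ 2 ≤ 2 * gsq (pathA c) θ := by
  rcases (by positivity : 0 ≤ zx c θ k ^ 2 + zy c θ k ^ 2).eq_or_lt with h0 | hpos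
  · rw [← h0]
    have := gsq_nonneg (pathA c) θ
    positivity
  · obtain ⟨κ, -, -, v, hv0, hv1, -, hv2⟩ := class_dich hc hodd θ hpos
    have h3 : 1 / 2 ≤ v := by
      by_contra hcon
      push Not at hcon
      have := hv2 hcon
      linarith
    nlinarith

theorem exists_dir {c : V → ℕ} {n : ℕ} (hc : ∀ a, 1 ≤ c a)
    (hodd : ∀ k, 1 ≤ k → k ≤ n → Odd (cls c k).card) :
    ∃ K : ℝ, 0 ≤ K ∧ ∀ θ : V → ℝ, ∃ u v : ℝ, u ^ 2 + v ^ 2 = 1 ∧
      ∀ k ≤ n + 1, |u * cy c θ k - v * cx c θ k| ≤ K * Real.sqrt (gsq (pathA c) θ) := by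
  have hex : ∀ θ : V → ℝ, ∃ p : ℝ × ℝ, p.1 ^ 2 + p.2 ^ 2 = 1 ∧
      p.1 * cy c θ 1 - p.2 * cx c θ 1 = 0 := by
    intro θ
    rcases (by positivity : 0 ≤ cx c θ 1 ^ 2 + cy c θ 1 ^ 2).eq_or_lt with h0 | hpos
    · have h1 : cy c θ 1 = 0 := by nlinarith [sq_nonneg (cx c θ 1), sq_nonneg (cy c θ 1)]
      exact ⟨(1, 0), by norm_num, by simp [h1]⟩
    · set w := Real.sqrt (cx c θ 1 ^ 2 + cy c θ 1 ^ 2) with hw
      have hwpos : 0 < w := Real.sqrt_pos.mpr hpos
      have hww : w ^ 2 = cx c θ 1 ^ 2 + cy c θ 1 ^ 2 := Real.sq_sqrt hpos.le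
      refine ⟨(cx c θ 1 / w, cy c θ 1 / w), ?_, ?_⟩
      · simp only [div_pow]
        rw [← add_div, ← hww]
        exact div_self (by positivity)
      · field_simp
        ring
  choose p hp1 hp2 using hex
  set N : ℝ := (Fintype.card V : ℝ) with hN
  have hN0 : 0 ≤ N := Nat.cast_nonneg _
  set g : (V → ℝ) → ℝ := fun θ => Real.sqrt (gsq (pathA c) θ) with hg
  have hg0 : ∀ θ, 0 ≤ g θ := fun θ => Real.sqrt_nonneg _
  set cr : (V → ℝ) → ℕ → ℝ := fun θ k => (p θ).1 * cy c θ k - (p θ).2 * cx c θ k with hcr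
  have hstep : ∀ m, m ≤ n → ∃ K : ℝ, 0 ≤ K ∧ ∀ θ, |cr θ m| ≤ K * g θ ∧ |cr θ (m + 1)| ≤ K * g θ := by
    intro m
    induction m with
    | zero =>
      intro _
      refine ⟨0, le_refl _, fun θ => ⟨?_, ?_⟩⟩
      · simp only [hcr, cx_zero hc, cy_zero hc]; simp
      · simp only [hcr, zero_add, hp2 θ]; simp
    | succ m ih =>
      intro hm
      obtain ⟨K, hK0, hK⟩ := ih (by omega)
      refine ⟨8 * N ^ 2 * (m + 1) + 8 * N ^ 2 * K + 2 + 2 * K, by positivity, fun θ => ?_⟩
      obtain ⟨h1, h2⟩ := hK θ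
      have hg := hg0 θ
      constructor
      · refine h2.trans (mul_le_mul_of_nonneg_right ?_ hg)
        have : 0 ≤ 8 * N ^ 2 * ((m : ℝ) + 1) := by positivity
        have : 0 ≤ 8 * N ^ 2 * K := by positivity
        linarith
      · have hpu := hp1 θ
        have hu1 : |(p θ).1| ≤ 1 := by
          apply abs_le_one_iff_mul_self_le_one.mpr
          nlinarith [sq_nonneg (p θ).2]
        have hv1 : |(p θ).2| ≤ 1 := by
          apply abs_le_one_iff_mul_self_le_one.mpr
          nlinarith [sq_nonneg (p θ).1]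
        by_cases hl : cx c θ (m + 1) ^ 2 + cy c θ (m + 1) ^ 2 < 1 / 4
        · -- light class
          have h3 := light hc (hodd (m + 1) (by omega) hm) θ hl
          have h4 : cr θ (m + 1 + 1) = ((p θ).1 * zy c θ (m + 1) - (p θ).2 * zx c θ (m + 1)) -
              cr θ (m + 1) - cr θ m := by
            simp only [hcr, zx, zy, Nat.add_sub_cancel]
            ring
          have h5 : |(p θ).1 * zy c θ (m + 1) - (p θ).2 * zx c θ (m + 1)| ≤ 2 * g θ := by
            apply abs_le_of_sq_le_sq _ (by positivity)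
            have h6 : (2 * g θ) ^ 2 = 4 * gsq (pathA c) θ := by
              rw [mul_pow, Real.sq_sqrt (gsq_nonneg _ _)]; norm_num
            rw [h6]
            have h7 : ((p θ).1 * zy c θ (m + 1) - (p θ).2 * zx c θ (m + 1)) ^ 2 +
                ((p θ).1 * zx c θ (m + 1) + (p θ).2 * zy c θ (m + 1)) ^ 2 =
                ((p θ).1 ^ 2 + (p θ).2 ^ 2) * (zx c θ (m + 1) ^ 2 + zy c θ (m + 1) ^ 2) := by
              ring
            rw [hpu, one_mul] at h7
            have h8 := gsq_nonneg (pathA c) θ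
            nlinarith [sq_nonneg ((p θ).1 * zx c θ (m + 1) + (p θ).2 * zy c θ (m + 1))]
          rw [h4]
          have h9 : |(p θ).1 * zy c θ (m + 1) - (p θ).2 * zx c θ (m + 1) - cr θ (m + 1) - cr θ m| ≤
              2 * g θ + K * g θ + K * g θ := by
            refine (abs_sub _ _).trans (add_le_add ((abs_sub _ _).trans (add_le_add h5 h2)) h1)
          refine h9.trans ?_
          have e1 : 0 ≤ 8 * N ^ 2 * ((m : ℝ) + 1) * g θ := by positivity
          have e2 : 0 ≤ 8 * N ^ 2 * K * g θ := by positivity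
          have e3 : (8 * N ^ 2 * ((m : ℝ) + 1) + 8 * N ^ 2 * K + 2 + 2 * K) * g θ =
            8 * N ^ 2 * ((m : ℝ) + 1) * g θ + 8 * N ^ 2 * K * g θ + 2 * g θ + 2 * (K * g θ) := by
            ring
          linarith
        · push Not at hl
          have hid : cr θ (m + 1 + 1) * (cx c θ (m + 1) ^ 2 + cy c θ (m + 1) ^ 2) =
              ((p θ).1 * cx c θ (m + 1) + (p θ).2 * cy c θ (m + 1)) * flux c θ (m + 1) +
              cr θ (m + 1) * (cx c θ (m + 1) * cx c θ (m + 1 + 1) +
                cy c θ (m + 1) * cy c θ (m + 1 + 1)) := by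
            simp only [hcr, flux]
            ring
          have hf := flux_le hc θ (m + 1)
          have b1 : |(p θ).1 * cx c θ (m + 1) + (p θ).2 * cy c θ (m + 1)| ≤ 2 * N := by
            refine (abs_add_le _ _).trans ?_
            rw [abs_mul, abs_mul]
            have := mul_le_mul hu1 (abs_cx_le c θ (m + 1)) (abs_nonneg _) zero_le_one
            have := mul_le_mul hv1 (abs_cy_le c θ (m + 1)) (abs_nonneg _) zero_le_one
            linarith
          have b2 : |cx c θ (m + 1) * cx c θ (m + 1 + 1) + cy c θ (m + 1) * cy c θ (m + 1 + 1)| ≤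
              2 * N ^ 2 := by
            refine (abs_add_le _ _).trans ?_
            rw [abs_mul, abs_mul]
            have := mul_le_mul (abs_cx_le c θ (m + 1)) (abs_cx_le c θ (m + 1 + 1))
              (abs_nonneg _) hN0
            have := mul_le_mul (abs_cy_le c θ (m + 1)) (abs_cy_le c θ (m + 1 + 1))
              (abs_nonneg _) hN0
            nlinarith
          have b3 : |cr θ (m + 1 + 1)| * (1 / 4) ≤
              2 * N * (((m + 1 : ℕ) : ℝ) * (N * g θ)) + K * g θ * (2 * N ^ 2) := by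
            calc |cr θ (m + 1 + 1)| * (1 / 4)
                ≤ |cr θ (m + 1 + 1)| * (cx c θ (m + 1) ^ 2 + cy c θ (m + 1) ^ 2) :=
                  mul_le_mul_of_nonneg_left hl (abs_nonneg _)
              _ = |cr θ (m + 1 + 1) * (cx c θ (m + 1) ^ 2 + cy c θ (m + 1) ^ 2)| := by
                  rw [abs_mul, abs_of_nonneg (by positivity :
                    0 ≤ cx c θ (m + 1) ^ 2 + cy c θ (m + 1) ^ 2)]
              _ ≤ _ := by
                  rw [hid]
                  refine (abs_add_le _ _).trans ?_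
                  rw [abs_mul, abs_mul]
                  refine add_le_add (mul_le_mul b1 hf (abs_nonneg _) (by positivity)) ?_
                  exact mul_le_mul h2 b2 (abs_nonneg _) (by positivity)
          push_cast at b3
          have e3 : (8 * N ^ 2 * ((m : ℝ) + 1) + 8 * N ^ 2 * K + 2 + 2 * K) * g θ =
            4 * (2 * N * (((m : ℝ) + 1) * (N * g θ)) + K * g θ * (2 * N ^ 2)) + 2 * g θ +
              2 * (K * g θ) := by
            ring
          have e4 : 0 ≤ K * g θ := by positivity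
          rw [e3]
          linarith
  -- collect
  have hall : ∀ m, m ≤ n → ∃ K : ℝ, 0 ≤ K ∧ ∀ θ, ∀ k ≤ m + 1, |cr θ k| ≤ K * g θ := by
    intro m
    induction m with
    | zero =>
      intro h0
      obtain ⟨K, hK0, hK⟩ := hstep 0 h0
      refine ⟨K, hK0, fun θ k hk => ?_⟩
      have hk' : k = 0 ∨ k = 1 := by omega
      rcases hk' with rfl | rfl
      · exact (hK θ).1
      · exact (hK θ).2
    | succ m ih =>
      intro hm
      obtain ⟨K, hK0, hK⟩ := ih (by omega)
      obtain ⟨K', hK'0, hK'⟩ := hstep (m + 1) hm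
      refine ⟨K + K', by positivity, fun θ k hk => ?_⟩
      have hg := hg0 θ
      rcases Nat.lt_or_ge (m + 1) k with h | h
      · have : k = m + 1 + 1 := by omega
        subst this
        refine (hK' θ).2.trans (mul_le_mul_of_nonneg_right (by linarith) hg)
      · exact (hK θ k h).trans (mul_le_mul_of_nonneg_right (by linarith) hg)
  obtain ⟨K, hK0, hK⟩ := hall n (le_refl _)
  exact ⟨K, hK0, fun θ => ⟨(p θ).1, (p θ).2, hp1 θ, hK θ⟩⟩

end Pool.Agent.H96.Kur
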