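import Mathlib
import Pool.Agent.H96.Kur.Barrier

/-!
The kink phases and the quantitative energy barrier.
-/

open Set Metric MeasureTheory Filter
open scoped Topology NNReal

namespace Pool.Agent.H96.Kur

/-- `√119` -/
noncomputable def q119 : ℝ := Real.sqrt 119

theorem q119_sq : q119 ^ 2 = 119 := Real.sq_sqrt (by norm_num)
theorem q119_nonneg : 0 ≤ q119 := Real.sqrt_nonneg _

/-- phases of the kink in the seven classes -/
noncomputable def Phi : ℕ → ℝ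
  | 1 => Real.arccos (47 / 72)
  | 2 => Real.arccos (107 / 243)
  | 3 => Real.arccos (-11 / 45)
  | 4 => Real.pi
  | 5 => -Real.arccos (-11 / 45)
  | 6 => -Real.arccos (107 / 243)
  | _ => -Real.arccos (47 / 72)

theorem cosA : Real.cos (Real.arccos (47 / 72)) = 47 / 72 :=
  Real.cos_arccos (by norm_num) (by norm_num)
theorem cosB : Real.cos (Real.arccos (107 / 243)) = 107 / 243 :=
  Real.cos_arccos (by norm_num) (by norm_num)
theorem cosC : Real.cos (Real.arccos (-11 / 45)) = -11 / 45 :=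
  Real.cos_arccos (by norm_num) (by norm_num)
theorem sinA : Real.sin (Real.arccos (47 / 72)) = 5 * q119 / 72 := by
  rw [Real.sin_arccos, Real.sqrt_eq_iff_mul_self_eq (by norm_num)
    (by have := q119_nonneg; positivity)]
  have := q119_sq
  nlinarith
theorem sinB : Real.sin (Real.arccos (107 / 243)) = 20 * q119 / 243 := by
  rw [Real.sin_arccos, Real.sqrt_eq_iff_mul_self_eq (by norm_num)
    (by have := q119_nonneg; positivity)]
  have := q119_sq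
  nlinarith
theorem sinC : Real.sin (Real.arccos (-11 / 45)) = 4 * q119 / 45 := by
  rw [Real.sin_arccos, Real.sqrt_eq_iff_mul_self_eq (by norm_num)
    (by have := q119_nonneg; positivity)]
  have := q119_sq
  nlinarith

theorem cos12 : Real.cos (Phi 2 - Phi 1) = 209 / 216 := by
  simp only [Phi]
  rw [Real.cos_sub, cosA, cosB, sinA, sinB]
  have := q119_sq
  nlinarith
theorem sin12 : Real.sin (Phi 2 - Phi 1) = 5 * q119 / 216 := by
  simp only [Phi]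
  rw [Real.sin_sub, cosA, cosB, sinA, sinB]
  ring
theorem cos23 : Real.cos (Phi 3 - Phi 2) = 103 / 135 := by
  simp only [Phi]
  rw [Real.cos_sub, cosB, cosC, sinB, sinC]
  have := q119_sq
  nlinarith
theorem sin23 : Real.sin (Phi 3 - Phi 2) = 8 * q119 / 135 := by
  simp only [Phi]
  rw [Real.sin_sub, cosB, cosC, sinB, sinC]
  ring
theorem cos34 : Real.cos (Phi 4 - Phi 3) = 11 / 45 := by
  simp only [Phi]
  rw [Real.cos_pi_sub, cosC]
  ring
theorem sin34 : Real.sin (Phi 4 - Phi 3) = 4 * q119 / 45 := by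
  simp only [Phi]
  rw [Real.sin_pi_sub, sinC]
theorem cos45 : Real.cos (Phi 5 - Phi 4) = 11 / 45 := by
  simp only [Phi]
  rw [Real.cos_sub_pi, Real.cos_neg, cosC]
  ring
theorem sin45 : Real.sin (Phi 5 - Phi 4) = 4 * q119 / 45 := by
  simp only [Phi]
  rw [Real.sin_sub_pi, Real.sin_neg, sinC]
  ring
theorem cos56 : Real.cos (Phi 6 - Phi 5) = 103 / 135 := by
  simp only [Phi]
  rw [← cos23]
  simp only [Phi]
  congr 1
  ring
theorem sin56 : Real.sin (Phi 6 - Phi 5) = 8 * q119 / 135 := by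
  simp only [Phi]
  rw [← sin23]
  simp only [Phi]
  congr 1
  ring
theorem cos67 : Real.cos (Phi 7 - Phi 6) = 209 / 216 := by
  simp only [Phi]
  rw [← cos12]
  simp only [Phi]
  congr 1
  ring
theorem sin67 : Real.sin (Phi 7 - Phi 6) = 5 * q119 / 216 := by
  simp only [Phi]
  rw [← sin12]
  simp only [Phi]
  congr 1
  ring

/-- the numerical certificate -/
theorem certificate (X1 X2 X3 X4 X5 X6 X7 Q1 Q2 Q3 Q4 Q5 Q6 Q7 q : ℝ) (hq : q ^ 2 = 119)
    (h1 : X1 ^ 2 ≤ 45 * Q1) (h2 : X2 ^ 2 ≤ 3 * Q2) (h3 : X3 ^ 2 ≤ 19 * Q3)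
    (h4 : X4 ^ 2 ≤ 3 * Q4) (h5 : X5 ^ 2 ≤ 19 * Q5) (h6 : X6 ^ 2 ≤ 3 * Q6)
    (h7 : X7 ^ 2 ≤ 45 * Q7) :
    (1 / 10) * (Q1 + Q2 + Q3 + Q4 + Q5 + Q6 + Q7) - 41 / 100000 ≤
    2 * ((5 * q / 216 * (45 * X2 - 3 * X1) +
        (1 / 2) * (89 / 100) * (45 * Q2 + 3 * Q1 - 2 * X1 * X2)) +
      (8 * q / 135 * (3 * X3 - 19 * X2) +
        (1 / 2) * (68 / 100) * (3 * Q3 + 19 * Q2 - 2 * X2 * X3)) +
      (4 * q / 45 * (19 * X4 - 3 * X3) +
        (1 / 2) * (33 / 200) * (19 * Q4 + 3 * Q3 - 2 * X3 * X4)) +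
      (4 * q / 45 * (3 * X5 - 19 * X4) +
        (1 / 2) * (33 / 200) * (3 * Q5 + 19 * Q4 - 2 * X4 * X5)) +
      (8 * q / 135 * (19 * X6 - 3 * X5) +
        (1 / 2) * (68 / 100) * (19 * Q6 + 3 * Q5 - 2 * X5 * X6)) +
      (5 * q / 216 * (3 * X7 - 45 * X6) +
        (1 / 2) * (89 / 100) * (3 * Q7 + 45 * Q6 - 2 * X6 * X7))) +
    2 * ((5 * q / 72 * X1 + (1 / 2) * (57 / 100) * Q1) +
      (20 * q / 243 * X2 + (1 / 2) * (36 / 100) * Q2) +
      (4 * q / 45 * X3 + (1 / 2) * (-32 / 100) * Q3) +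
      (0 * X4 + (1 / 2) * (-108 / 100) * Q4) +
      (-(4 * q / 45) * X5 + (1 / 2) * (-32 / 100) * Q5) +
      (-(20 * q / 243) * X6 + (1 / 2) * (36 / 100) * Q6) +
      (-(5 * q / 72) * X7 + (1 / 2) * (57 / 100) * Q7)) := by
  have key : 2 * ((5 * q / 216 * (45 * X2 - 3 * X1) +
        (1 / 2) * (89 / 100) * (45 * Q2 + 3 * Q1 - 2 * X1 * X2)) +
      (8 * q / 135 * (3 * X3 - 19 * X2) +
        (1 / 2) * (68 / 100) * (3 * Q3 + 19 * Q2 - 2 * X2 * X3)) +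
      (4 * q / 45 * (19 * X4 - 3 * X3) +
        (1 / 2) * (33 / 200) * (19 * Q4 + 3 * Q3 - 2 * X3 * X4)) +
      (4 * q / 45 * (3 * X5 - 19 * X4) +
        (1 / 2) * (33 / 200) * (3 * Q5 + 19 * Q4 - 2 * X4 * X5)) +
      (8 * q / 135 * (19 * X6 - 3 * X5) +
        (1 / 2) * (68 / 100) * (19 * Q6 + 3 * Q5 - 2 * X5 * X6)) +
      (5 * q / 216 * (3 * X7 - 45 * X6) +
        (1 / 2) * (89 / 100) * (3 * Q7 + 45 * Q6 - 2 * X6 * X7))) +
    2 * ((5 * q / 72 * X1 + (1 / 2) * (57 / 100) * Q1) +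
      (20 * q / 243 * X2 + (1 / 2) * (36 / 100) * Q2) +
      (4 * q / 45 * X3 + (1 / 2) * (-32 / 100) * Q3) +
      (0 * X4 + (1 / 2) * (-108 / 100) * Q4) +
      (-(4 * q / 45) * X5 + (1 / 2) * (-32 / 100) * Q5) +
      (-(20 * q / 243) * X6 + (1 / 2) * (36 / 100) * Q6) +
      (-(5 * q / 72) * X7 + (1 / 2) * (57 / 100) * Q7)) -
      (1 / 10) * (Q1 + Q2 + Q3 + Q4 + Q5 + Q6 + Q7) =
      (157 / 50) * (Q1 - X1 ^ 2 / 45) + (5323 / 100) * (Q2 - X2 ^ 2 / 3) +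
      (423 / 200) * (Q3 - X3 ^ 2 / 19) + (509 / 100) * (Q4 - X4 ^ 2 / 3) +
      (423 / 200) * (Q5 - X5 ^ 2 / 19) + (5323 / 100) * (Q6 - X6 ^ 2 / 3) +
      (157 / 50) * (Q7 - X7 ^ 2 / 45) +
      (157 / 2250) * (X1 - (4005 / 314) * X2) ^ 2 + (157 / 2250) * (X7 - (4005 / 314) * X6) ^ 2 +
      (602087 / 94200) * (X2 - (64056 / 602087) * X3 + (-14915 / 48769047) * q) ^ 2 +
      (602087 / 94200) * (X6 - (64056 / 602087) * X5 - (-14915 / 48769047) * q) ^ 2 +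
      (89162097 / 2287930600) *
        (X3 - (125836183 / 29720699) * X4 + (-38540360 / 7222129857) * q) ^ 2 +
      (89162097 / 2287930600) *
        (X5 - (125836183 / 29720699) * X4 - (-38540360 / 7222129857) * q) ^ 2 +
      (1335026837 / 4458104850) * X4 ^ 2 - (2663819 / 779990024556) * q ^ 2 := by
    ring
  have e1 : 0 ≤ Q1 - X1 ^ 2 / 45 := by linarith
  have e2 : 0 ≤ Q2 - X2 ^ 2 / 3 := by linarith
  have e3 : 0 ≤ Q3 - X3 ^ 2 / 19 := by linarith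
  have e4 : 0 ≤ Q4 - X4 ^ 2 / 3 := by linarith
  have e5 : 0 ≤ Q5 - X5 ^ 2 / 19 := by linarith
  have e6 : 0 ≤ Q6 - X6 ^ 2 / 3 := by linarith
  have e7 : 0 ≤ Q7 - X7 ^ 2 / 45 := by linarith
  have e8 : (2663819 / 779990024556) * q ^ 2 ≤ 41 / 100000 := by
    rw [hq]; norm_num
  have e9 : 0 ≤ (157 / 50) * (Q1 - X1 ^ 2 / 45) + (5323 / 100) * (Q2 - X2 ^ 2 / 3) +
      (423 / 200) * (Q3 - X3 ^ 2 / 19) + (509 / 100) * (Q4 - X4 ^ 2 / 3) +
      (423 / 200) * (Q5 - X5 ^ 2 / 19) + (5323 / 100) * (Q6 - X6 ^ 2 / 3) +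
      (157 / 50) * (Q7 - X7 ^ 2 / 45) +
      (157 / 2250) * (X1 - (4005 / 314) * X2) ^ 2 + (157 / 2250) * (X7 - (4005 / 314) * X6) ^ 2 +
      (602087 / 94200) * (X2 - (64056 / 602087) * X3 + (-14915 / 48769047) * q) ^ 2 +
      (602087 / 94200) * (X6 - (64056 / 602087) * X5 - (-14915 / 48769047) * q) ^ 2 +
      (89162097 / 2287930600) *
        (X3 - (125836183 / 29720699) * X4 + (-38540360 / 7222129857) * q) ^ 2 +
      (89162097 / 2287930600) *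
        (X5 - (125836183 / 29720699) * X4 - (-38540360 / 7222129857) * q) ^ 2 +
      (1335026837 / 4458104850) * X4 ^ 2 := by positivity
  linarith

end Pool.Agent.H96.Kur
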