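import Mathlib
import Pool.Agent.H96.Kur.Kink

/-!
Energy barrier.
-/

open Set Metric MeasureTheory Filter
open scoped Topology NNReal

namespace Pool.Agent.H96.Kur

variable {V : Type*} [Fintype V]

/-- class sizes of the counterexample -/
def IsKinkGraph (c : V → ℕ) : Prop :=
  (∀ a, 1 ≤ c a) ∧ (∀ a, c a ≤ 7) ∧ (cls c 1).card = 45 ∧ (cls c 2).card = 3 ∧
    (cls c 3).card = 19 ∧ (cls c 4).card = 3 ∧ (cls c 5).card = 19 ∧ (cls c 6).card = 3 ∧
    (cls c 7).card = 45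

theorem class_pair_ge (c : V → ℕ) (x : V → ℝ) (hx : ∀ a, |x a| ≤ 1 / 10) (k l : ℕ)
    {w : ℝ} (hw : w ≤ Real.cos (Phi l - Phi k) - 3 / 40) :
    Real.sin (Phi l - Phi k) * ((cls c k).card * (∑ b ∈ cls c l, x b) -
        (cls c l).card * ∑ a ∈ cls c k, x a) +
      (1 / 2) * w * ((cls c k).card * (∑ b ∈ cls c l, x b ^ 2) +
        (cls c l).card * (∑ a ∈ cls c k, x a ^ 2) -
        2 * (∑ a ∈ cls c k, x a) * (∑ b ∈ cls c l, x b)) ≤
    ∑ a ∈ cls c k, ∑ b ∈ cls c l, (Real.cos (Phi (c b) - Phi (c a)) -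
      Real.cos (Phi (c b) - Phi (c a) + (x b - x a))) := by
  rw [← pair_sum]
  refine Finset.sum_le_sum fun a ha => Finset.sum_le_sum fun b hb => ?_
  rw [mem_cls.mp ha, mem_cls.mp hb]
  have hd : |x b - x a| ≤ 1 / 5 := by
    have h1 := hx a
    have h2 := hx b
    rw [abs_le] at h1 h2 ⊢
    constructor <;> linarith [h1.1, h1.2, h2.1, h2.2]
  refine le_trans ?_ (cos_sub_cos_add_ge (D := Phi l - Phi k) hd)
  nlinarith [sq_nonneg (x b - x a)]

theorem spoke_ge (c : V → ℕ) (x : V → ℝ) (hx : ∀ a, |x a| ≤ 1 / 10) (k : ℕ)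
    {w : ℝ} (hw : w ≤ Real.cos (Phi k) - 3 / 40) :
    Real.sin (Phi k) * (∑ a ∈ cls c k, x a) + (1 / 2) * w * (∑ a ∈ cls c k, x a ^ 2) ≤
    ∑ a ∈ cls c k, (Real.cos (Phi (c a)) - Real.cos (Phi (c a) + x a)) := by
  rw [Finset.mul_sum, Finset.mul_sum, ← Finset.sum_add_distrib]
  refine Finset.sum_le_sum fun a ha => ?_
  rw [mem_cls.mp ha]
  have hd : |x a| ≤ 1 / 5 := (hx a).trans (by norm_num)
  refine le_trans ?_ (cos_sub_cos_add_ge (D := Phi k) hd)
  nlinarith [sq_nonneg (x a)]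

theorem sum_seven {c : V → ℕ} (hc : ∀ a, 1 ≤ c a) (h7 : ∀ a, c a ≤ 7) (f : V → ℝ) :
    ∑ a, f a = (∑ a ∈ cls c 1, f a) + (∑ a ∈ cls c 2, f a) + (∑ a ∈ cls c 3, f a) +
      (∑ a ∈ cls c 4, f a) + (∑ a ∈ cls c 5, f a) + (∑ a ∈ cls c 6, f a) +
      (∑ a ∈ cls c 7, f a) := by
  rw [sum_fiber hc h7]
  have h3 : Finset.Icc 1 7 = ({1, 2, 3, 4, 5, 6, 7} : Finset ℕ) := by decide
  rw [h3, Finset.sum_insert (by decide), Finset.sum_insert (by decide),
    Finset.sum_insert (by decide), Finset.sum_insert (by decide), Finset.sum_insert (by decide),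
    Finset.sum_insert (by decide), Finset.sum_singleton]
  ring

theorem barrier {c : V → ℕ} (hk : IsKinkGraph c) (x : V → ℝ) (hx : ∀ a, |x a| ≤ 1 / 10) :
    (1 / 10) * (∑ a, x a ^ 2) - 41 / 100000 ≤
      (pot (pathA c) (fun a => Phi (c a)) + 2 * ∑ a, Real.cos (Phi (c a))) -
      (pot (pathA c) (fun a => Phi (c a) + x a) + 2 * ∑ a, Real.cos (Phi (c a) + x a)) := by
  obtain ⟨hc, h7, m1, m2, m3, m4, m5, m6, m7⟩ := hk
  set h : V → V → ℝ := fun a b => Real.cos (Phi (c b) - Phi (c a)) -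
      Real.cos (Phi (c b) - Phi (c a) + (x b - x a)) with hh
  have hsym : ∀ a b, h a b = h b a := by
    intro a b
    simp only [hh]
    rw [← Real.cos_neg (Phi (c b) - Phi (c a)),
      ← Real.cos_neg (Phi (c b) - Phi (c a) + (x b - x a))]
    congr 2 <;> ring
  have h0 : ∀ a, h a a = 0 := by intro a; simp [hh]
  have hin : ∀ a b, c a = c b → 0 ≤ h a b := by
    intro a b hab
    simp only [hh]
    rw [hab, sub_self, Real.cos_zero, zero_add]
    linarith [Real.cos_le_one (x b - x a)]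
  have hpot : pot (pathA c) (fun a => Phi (c a)) - pot (pathA c) (fun a => Phi (c a) + x a) =
      ∑ a, ∑ b, pathA c a b * h a b := by
    unfold pot
    rw [← Finset.sum_sub_distrib]
    refine Finset.sum_congr rfl fun a _ => ?_
    rw [← Finset.sum_sub_distrib]
    refine Finset.sum_congr rfl fun b _ => ?_
    simp only [hh]
    rw [mul_sub]
    congr 3
    ring
  have hspoke : 2 * ∑ a, Real.cos (Phi (c a)) - 2 * ∑ a, Real.cos (Phi (c a) + x a) =
      2 * ∑ a, (Real.cos (Phi (c a)) - Real.cos (Phi (c a) + x a)) := by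
    rw [Finset.sum_sub_distrib]; ring
  have hred := pair_reduce hc h7 h hsym h0 hin
  have p12 := class_pair_ge c x hx 1 2 (w := 89 / 100) (by rw [cos12]; norm_num)
  have p23 := class_pair_ge c x hx 2 3 (w := 68 / 100) (by rw [cos23]; norm_num)
  have p34 := class_pair_ge c x hx 3 4 (w := 33 / 200) (by rw [cos34]; norm_num)
  have p45 := class_pair_ge c x hx 4 5 (w := 33 / 200) (by rw [cos45]; norm_num)
  have p56 := class_pair_ge c x hx 5 6 (w := 68 / 100) (by rw [cos56]; norm_num)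
  have p67 := class_pair_ge c x hx 6 7 (w := 89 / 100) (by rw [cos67]; norm_num)
  have c1 : Real.cos (Phi 1) = 47 / 72 := cosA
  have c2 : Real.cos (Phi 2) = 107 / 243 := cosB
  have c3 : Real.cos (Phi 3) = -11 / 45 := cosC
  have c4 : Real.cos (Phi 4) = -1 := Real.cos_pi
  have c5 : Real.cos (Phi 5) = -11 / 45 := by
    change Real.cos (-_) = _; rw [Real.cos_neg]; exact cosC
  have c6 : Real.cos (Phi 6) = 107 / 243 := by
    change Real.cos (-_) = _; rw [Real.cos_neg]; exact cosB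
  have c7 : Real.cos (Phi 7) = 47 / 72 := by
    change Real.cos (-_) = _; rw [Real.cos_neg]; exact cosA
  have s1 : Real.sin (Phi 1) = 5 * q119 / 72 := sinA
  have s2 : Real.sin (Phi 2) = 20 * q119 / 243 := sinB
  have s3 : Real.sin (Phi 3) = 4 * q119 / 45 := sinC
  have s4 : Real.sin (Phi 4) = 0 := Real.sin_pi
  have s5 : Real.sin (Phi 5) = -(4 * q119 / 45) := by
    change Real.sin (-_) = _; rw [Real.sin_neg, sinC]
  have s6 : Real.sin (Phi 6) = -(20 * q119 / 243) := by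
    change Real.sin (-_) = _; rw [Real.sin_neg, sinB]
  have s7 : Real.sin (Phi 7) = -(5 * q119 / 72) := by
    change Real.sin (-_) = _; rw [Real.sin_neg, sinA]
  have t1 := spoke_ge c x hx 1 (w := 57 / 100) (by rw [c1]; norm_num)
  have t2 := spoke_ge c x hx 2 (w := 36 / 100) (by rw [c2]; norm_num)
  have t3 := spoke_ge c x hx 3 (w := -32 / 100) (by rw [c3]; norm_num)
  have t4 := spoke_ge c x hx 4 (w := -108 / 100) (by rw [c4]; norm_num)
  have t5 := spoke_ge c x hx 5 (w := -32 / 100) (by rw [c5]; norm_num)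
  have t6 := spoke_ge c x hx 6 (w := 36 / 100) (by rw [c6]; norm_num)
  have t7 := spoke_ge c x hx 7 (w := 57 / 100) (by rw [c7]; norm_num)
  rw [sin12, m1, m2] at p12
  rw [sin23, m2, m3] at p23
  rw [sin34, m3, m4] at p34
  rw [sin45, m4, m5] at p45
  rw [sin56, m5, m6] at p56
  rw [sin67, m6, m7] at p67
  rw [s1] at t1
  rw [s2] at t2
  rw [s3] at t3
  rw [s4] at t4
  rw [s5] at t5
  rw [s6] at t6
  rw [s7] at t7
  have hcs : ∀ k, (∑ a ∈ cls c k, x a) ^ 2 ≤ (cls c k).card * ∑ a ∈ cls c k, x a ^ 2 :=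
    fun k => sq_sum_le_card_mul_sum_sq
  have u1 := hcs 1
  have u2 := hcs 2
  have u3 := hcs 3
  have u4 := hcs 4
  have u5 := hcs 5
  have u6 := hcs 6
  have u7 := hcs 7
  rw [m1] at u1
  rw [m2] at u2
  rw [m3] at u3
  rw [m4] at u4
  rw [m5] at u5
  rw [m6] at u6
  rw [m7] at u7
  push_cast at p12 p23 p34 p45 p56 p67 u1 u2 u3 u4 u5 u6 u7
  have hcert := certificate (∑ a ∈ cls c 1, x a) (∑ a ∈ cls c 2, x a) (∑ a ∈ cls c 3, x a)
    (∑ a ∈ cls c 4, x a) (∑ a ∈ cls c 5, x a) (∑ a ∈ cls c 6, x a) (∑ a ∈ cls c 7, x a)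
    (∑ a ∈ cls c 1, x a ^ 2) (∑ a ∈ cls c 2, x a ^ 2) (∑ a ∈ cls c 3, x a ^ 2)
    (∑ a ∈ cls c 4, x a ^ 2) (∑ a ∈ cls c 5, x a ^ 2) (∑ a ∈ cls c 6, x a ^ 2)
    (∑ a ∈ cls c 7, x a ^ 2) q119 q119_sq u1 u2 u3 u4 u5 u6 u7
  have hsumsq := sum_seven hc h7 (fun a => x a ^ 2)
  have hsumsp := sum_seven hc h7 (fun a => Real.cos (Phi (c a)) - Real.cos (Phi (c a) + x a))
  simp only [hh] at hred
  rw [hsumsq]
  have hfin : (pot (pathA c) (fun a => Phi (c a)) + 2 * ∑ a, Real.cos (Phi (c a))) -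
      (pot (pathA c) (fun a => Phi (c a) + x a) + 2 * ∑ a, Real.cos (Phi (c a) + x a)) =
      ∑ a, ∑ b, pathA c a b * h a b +
      2 * ∑ a, (Real.cos (Phi (c a)) - Real.cos (Phi (c a) + x a)) := by
    rw [← hpot, ← hspoke]; ring
  rw [hfin, hsumsp]
  simp only [hh]
  linarith

end Pool.Agent.H96.Kur
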