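import Mathlib
import Pool.Agent.H96.Kur.Dir

/-!
Lojasiewicz inequality for odd clique blow-ups of a path.
-/

open Set Metric MeasureTheory Filter
open scoped Topology NNReal

namespace Pool.Agent.H96.Kur

variable {V : Type*} [Fintype V]

/-- matrix of the path with loops -/
noncomputable def Pm (n : ℕ) (i j : Fin n) : ℝ :=
  if (i : ℕ) = j ∨ (i : ℕ) = j + 1 ∨ (j : ℕ) = i + 1 then 1 else 0

theorem Pm_symm (n : ℕ) (i j : Fin n) : Pm n i j = Pm n j i := by
  unfold Pm
  congr 1
  apply propext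
  constructor <;> rintro (h | h | h) <;> [left; (right; right); (right; left); left; (right; right);
    (right; left)] <;> omega

theorem Pm_nonneg (n : ℕ) (i j : Fin n) : 0 ≤ Pm n i j := by
  unfold Pm; split_ifs <;> norm_num

theorem Pm_le_one (n : ℕ) (i j : Fin n) : Pm n i j ≤ 1 := by
  unfold Pm; split_ifs <;> norm_num

theorem Pm_apply (n : ℕ) (f : ℕ → ℝ) (h0 : f 0 = 0) (hn : f (n + 1) = 0) (i : Fin n) :
    ∑ j, Pm n i j * f (j + 1) = f i + f (i + 1) + f (i + 2) := by
  have h1 : ∀ j : Fin n, Pm n i j * f (j + 1) =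
      (if j = i then f (j + 1) else 0) + (if (i : ℕ) = j + 1 then f (j + 1) else 0) +
      (if (j : ℕ) = i + 1 then f (j + 1) else 0) := by
    intro j
    unfold Pm
    by_cases e1 : (i : ℕ) = j
    · have e2 : ¬ ((i : ℕ) = j + 1) := by omega
      have e3 : ¬ ((j : ℕ) = i + 1) := by omega
      have e4 : j = i := Fin.ext e1.symm
      rw [if_pos (Or.inl e1), if_pos e4, if_neg e2, if_neg e3]
      ring
    · have e4 : ¬ (j = i) := fun h => e1 (by rw [h])
      by_cases e2 : (i : ℕ) = j + 1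
      · have e3 : ¬ ((j : ℕ) = i + 1) := by omega
        rw [if_pos (Or.inr (Or.inl e2)), if_neg e4, if_pos e2, if_neg e3]
        ring
      · by_cases e3 : (j : ℕ) = i + 1
        · rw [if_pos (Or.inr (Or.inr e3)), if_neg e4, if_neg e2, if_pos e3]
          ring
        · have e5 : ¬ ((i : ℕ) = j ∨ (i : ℕ) = j + 1 ∨ (j : ℕ) = i + 1) := by
            rintro (h | h | h)
            · exact e1 h
            · exact e2 h
            · exact e3 h
          rw [if_neg e5, if_neg e4, if_neg e2, if_neg e3]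
          ring
  simp only [h1, Finset.sum_add_distrib]
  have s1 : ∑ j : Fin n, (if j = i then f (j + 1) else 0) = f (i + 1) := by
    rw [Finset.sum_ite_eq' Finset.univ i (fun j : Fin n => f (j + 1))]
    simp
  have s2 : ∑ j : Fin n, (if (i : ℕ) = j + 1 then f (j + 1) else 0) = f i := by
    by_cases hi : (i : ℕ) = 0
    · rw [hi, h0]
      apply Finset.sum_eq_zero
      intro j _
      rw [if_neg (by omega)]
    · have hlt : (i : ℕ) - 1 < n := by omega
      rw [Finset.sum_eq_single (⟨(i : ℕ) - 1, hlt⟩ : Fin n)]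
      · rw [if_pos (by simp only; omega)]
        congr 1
        simp only
        omega
      · intro j _ hj
        rw [if_neg]
        intro h
        apply hj
        apply Fin.ext
        simp only
        omega
      · intro h; exact absurd (Finset.mem_univ _) h
  have s3 : ∑ j : Fin n, (if (j : ℕ) = i + 1 then f (j + 1) else 0) = f (i + 2) := by
    by_cases hi : (i : ℕ) + 1 = n
    · have : (i : ℕ) + 2 = n + 1 := by omega
      rw [this, hn]
      apply Finset.sum_eq_zero
      intro j _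
      rw [if_neg]
      have := j.2
      omega
    · have hlt : (i : ℕ) + 1 < n := by
        have := i.2
        omega
      rw [Finset.sum_eq_single (⟨(i : ℕ) + 1, hlt⟩ : Fin n)]
      · rw [if_pos rfl]
      · intro j _ hj
        rw [if_neg]
        intro h
        apply hj
        apply Fin.ext
        exact h
      · intro h; exact absurd (Finset.mem_univ _) h
  rw [s1, s2, s3]
  ring

/-- the linear map attached to a type -/
noncomputable def Lt (n : ℕ) (t : Fin n → Option ℤ) : (Fin n → ℝ) →ₗ[ℝ] (Fin n → ℝ) where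
  toFun s i := match t i with
    | some _ => s i
    | none => ∑ j, Pm n i j * s j
  map_add' s s' := by
    ext i
    simp only [Pi.add_apply]
    cases t i with
    | some _ => rfl
    | none => simp only [mul_add, Finset.sum_add_distrib]
  map_smul' r s := by
    ext i
    simp only [Pi.smul_apply, smul_eq_mul, RingHom.id_apply]
    cases t i with
    | some _ => rfl
    | none =>
      simp only [Finset.mul_sum]
      refine Finset.sum_congr rfl fun j _ => by ring

/-- the right-hand side attached to a type -/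
noncomputable def bt (n : ℕ) (t : Fin n → Option ℤ) : Fin n → ℝ := fun i =>
  match t i with
  | some κ => (κ : ℝ)
  | none => 0

theorem Lt_some {n : ℕ} {t : Fin n → Option ℤ} {i : Fin n} {κ : ℤ} (h : t i = some κ)
    (s : Fin n → ℝ) : Lt n t s i = s i := by
  simp only [Lt, LinearMap.coe_mk, AddHom.coe_mk, h]

theorem Lt_none {n : ℕ} {t : Fin n → Option ℤ} {i : Fin n} (h : t i = none)
    (s : Fin n → ℝ) : Lt n t s i = ∑ j, Pm n i j * s j := by
  simp only [Lt, LinearMap.coe_mk, AddHom.coe_mk, h]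

theorem bt_some {n : ℕ} {t : Fin n → Option ℤ} {i : Fin n} {κ : ℤ} (h : t i = some κ) :
    bt n t i = κ := by
  simp only [bt, h]

theorem bt_none {n : ℕ} {t : Fin n → Option ℤ} {i : Fin n} (h : t i = none) :
    bt n t i = 0 := by
  simp only [bt, h]

/-- quadratic form of the path with loops -/
noncomputable def qf (n : ℕ) (s : Fin n → ℝ) : ℝ := ∑ i, s i * ∑ j, Pm n i j * s j

theorem qf_sub (n : ℕ) (s s' : Fin n → ℝ) :
    qf n s - qf n s' = ∑ i, (s i - s' i) * (∑ j, Pm n i j * s j + ∑ j, Pm n i j * s' j) := by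
  have hsym : ∑ i, s i * ∑ j, Pm n i j * s' j = ∑ i, s' i * ∑ j, Pm n i j * s j := by
    simp only [Finset.mul_sum]
    rw [Finset.sum_comm]
    refine Finset.sum_congr rfl fun i _ => Finset.sum_congr rfl fun j _ => ?_
    rw [Pm_symm]; ring
  have h1 : ∑ i, (s i - s' i) * (∑ j, Pm n i j * s j + ∑ j, Pm n i j * s' j) =
      ∑ i, s i * ∑ j, Pm n i j * s j + ∑ i, s i * ∑ j, Pm n i j * s' j -
      ∑ i, s' i * ∑ j, Pm n i j * s j - ∑ i, s' i * ∑ j, Pm n i j * s' j := by
    rw [← Finset.sum_add_distrib, ← Finset.sum_sub_distrib, ← Finset.sum_sub_distrib]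
    refine Finset.sum_congr rfl fun i _ => by ring
  rw [h1, hsym, qf, qf]
  ring

/-- all exact solutions of a type have the same value of the quadratic form -/
theorem qf_unique {n : ℕ} {t : Fin n → Option ℤ} {s s' : Fin n → ℝ} (h : Lt n t s = bt n t)
    (h' : Lt n t s' = bt n t) : qf n s = qf n s' := by
  rw [← sub_eq_zero, qf_sub]
  apply Finset.sum_eq_zero
  intro i _
  have e1 := congrFun h i
  have e2 := congrFun h' i
  cases ht : t i with
  | some κ =>
    rw [Lt_some ht, bt_some ht] at e1 e2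
    rw [e1, e2]; ring
  | none =>
    rw [Lt_none ht, bt_none ht] at e1 e2
    rw [e1, e2]; ring

theorem abs_sub_round_le {s : ℝ} {κ : ℤ} (hκ : Odd κ) :
    |s - ((if 0 ≤ s then |κ| else -|κ| : ℤ) : ℝ)| ≤ |s ^ 2 - (κ : ℝ) ^ 2| := by
  have h3 : 1 ≤ |(κ : ℝ)| := by
    have : κ ≠ 0 := by
      intro h; rw [h] at hκ; exact absurd hκ (by decide)
    have : 1 ≤ |κ| := Int.one_le_abs this
    exact_mod_cast this
  have h4 : s ^ 2 - (κ : ℝ) ^ 2 = (|s| - |(κ : ℝ)|) * (|s| + |(κ : ℝ)|) := by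
    rw [← sq_abs s, ← sq_abs (κ : ℝ)]; ring
  have h5 : |(|s| - |(κ : ℝ)|)| ≤ |s ^ 2 - (κ : ℝ) ^ 2| := by
    rw [h4, abs_mul]
    have : 1 ≤ |(|s| + |(κ : ℝ)|)| := by
      rw [abs_of_nonneg (by positivity)]
      linarith [abs_nonneg s]
    nlinarith [abs_nonneg (|s| - |(κ : ℝ)|)]
  refine le_trans (le_of_eq ?_) h5
  split_ifs with h
  · rw [abs_of_nonneg h]; push_cast; rfl
  · push Not at h
    rw [abs_of_neg h]
    push_cast
    rw [← abs_neg]
    congr 1
    ring

/-- Data extracted for one class. -/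
theorem class_data {c : V → ℕ} (hc : ∀ a, 1 ≤ c a) {k : ℕ} (hodd : Odd (cls c k).card)
    (θ : V → ℝ) {K u v ρ : ℝ} (huv : u ^ 2 + v ^ 2 = 1)
    (hcr : |u * cy c θ k - v * cx c θ k| ≤ K * Real.sqrt (gsq (pathA c) θ))
    (hρ : 0 ≤ ρ) (hg : ρ ^ 3 = gsq (pathA c) θ) :
    ∃ o : Option ℤ, o ∈ Finset.insertNone (Finset.Icc (-(Fintype.card V : ℤ)) (Fintype.card V)) ∧
      ∃ w q : ℝ, 0 ≤ w ∧ w ≤ ρ ∧ 0 ≤ q ∧ q ≤ 6 * (Fintype.card V : ℝ) ∧ w * q ≤ ρ ^ 2 ∧
        |u * zx c θ k + v * zy c θ k| ≤ q ∧ (o = none → q ≤ ρ) ∧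
        (∀ κ, o = some κ → |u * cx c θ k + v * cy c θ k - (κ : ℝ)| ≤
          3 * (Fintype.card V : ℝ) * w + K ^ 2 * ρ ^ 3) := by
  set N : ℝ := (Fintype.card V : ℝ) with hN
  have hN0 : 0 ≤ N := Nat.cast_nonneg _
  set q : ℝ := Real.sqrt (zx c θ k ^ 2 + zy c θ k ^ 2) with hq
  have hq0 : 0 ≤ q := Real.sqrt_nonneg _
  have hqq : q ^ 2 = zx c θ k ^ 2 + zy c θ k ^ 2 := Real.sq_sqrt (by positivity)
  have hzq : |u * zx c θ k + v * zy c θ k| ≤ q := by
    apply abs_le_of_sq_le_sq _ hq0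
    rw [hqq]
    have : (u * zx c θ k + v * zy c θ k) ^ 2 + (u * zy c θ k - v * zx c θ k) ^ 2 =
        (u ^ 2 + v ^ 2) * (zx c θ k ^ 2 + zy c θ k ^ 2) := by ring
    rw [huv, one_mul] at this
    nlinarith [sq_nonneg (u * zy c θ k - v * zx c θ k)]
  have hq6 : q ≤ 6 * N := by
    have h1 : |zx c θ k| ≤ 3 * N := by
      unfold zx
      refine (abs_add_le _ _).trans ?_
      have := abs_add_le (cx c θ (k - 1)) (cx c θ k)
      linarith [abs_cx_le c θ (k - 1), abs_cx_le c θ k, abs_cx_le c θ (k + 1)]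
    have h2 : |zy c θ k| ≤ 3 * N := by
      unfold zy
      refine (abs_add_le _ _).trans ?_
      have := abs_add_le (cy c θ (k - 1)) (cy c θ k)
      linarith [abs_cy_le c θ (k - 1), abs_cy_le c θ k, abs_cy_le c θ (k + 1)]
    have h3 : q ^ 2 ≤ (6 * N) ^ 2 := by
      rw [hqq, ← sq_abs (zx c θ k), ← sq_abs (zy c θ k)]
      have := pow_le_pow_left₀ (abs_nonneg _) h1 2
      have := pow_le_pow_left₀ (abs_nonneg _) h2 2
      nlinarith
    have := abs_le_of_sq_le_sq h3 (by positivity)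
    rwa [abs_of_nonneg hq0] at this
  by_cases hcase : q ≤ ρ
  · refine ⟨none, Finset.none_mem_insertNone, 0, q, le_refl _, hρ, hq0, hq6, ?_, hzq,
      fun _ => hcase, ?_⟩
    · rw [zero_mul]; positivity
    · intro κ h; exact absurd h (by simp)
  · push Not at hcase
    have hqpos : 0 < q := lt_of_le_of_lt hρ hcase
    have hzpos : 0 < zx c θ k ^ 2 + zy c θ k ^ 2 := by rw [← hqq]; positivity
    obtain ⟨κ, hκodd, hκN, w, hw0, hw1, hw2, -⟩ := class_dich hc hodd θ hzpos
    rw [← hqq, ← hg] at hw1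
    have hwρ : w ≤ ρ := by
      by_contra hcon
      push Not at hcon
      have e1 : ρ * q ^ 2 < w * q ^ 2 := mul_lt_mul_of_pos_right hcon (by positivity)
      have e2 : ρ * ρ ^ 2 ≤ ρ * q ^ 2 :=
        mul_le_mul_of_nonneg_left (pow_le_pow_left₀ hρ hcase.le 2) hρ
      nlinarith
    have hwq : w * q ≤ ρ ^ 2 := by
      have e1 : (w * q) ^ 2 ≤ (ρ ^ 2) ^ 2 := by
        calc (w * q) ^ 2 = w * (w * q ^ 2) := by ring
          _ ≤ ρ * ρ ^ 3 := mul_le_mul hwρ hw1 (by positivity) hρ
          _ = (ρ ^ 2) ^ 2 := by ring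
      have := abs_le_of_sq_le_sq e1 (by positivity)
      rwa [abs_of_nonneg (by positivity)] at this
    refine ⟨some (if 0 ≤ u * cx c θ k + v * cy c θ k then |κ| else -|κ|), ?_, w, q, hw0, hwρ,
      hq0, hq6, hwq, hzq, fun h => absurd h (by simp), ?_⟩
    · rw [Finset.some_mem_insertNone, Finset.mem_Icc]
      have h1 : |κ| ≤ (Fintype.card V : ℤ) := by exact_mod_cast hκN
      have h2 := abs_nonneg κ
      split_ifs <;> constructor <;> linarith
    · intro κ' hκ'
      have h1 : κ' = (if 0 ≤ u * cx c θ k + v * cy c θ k then |κ| else -|κ|) :=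
        (Option.some.inj hκ').symm
      rw [h1]
      refine (abs_sub_round_le hκodd).trans ?_
      have h2 : (u * cx c θ k + v * cy c θ k) ^ 2 - (κ : ℝ) ^ 2 =
          (cx c θ k ^ 2 + cy c θ k ^ 2 - (κ : ℝ) ^ 2) - (u * cy c θ k - v * cx c θ k) ^ 2 := by
        have : (u * cx c θ k + v * cy c θ k) ^ 2 + (u * cy c θ k - v * cx c θ k) ^ 2 =
          (u ^ 2 + v ^ 2) * (cx c θ k ^ 2 + cy c θ k ^ 2) := by ring
        rw [huv, one_mul] at this
        linarith
      rw [h2]
      refine (abs_sub _ _).trans (add_le_add hw2 ?_)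
      rw [abs_of_nonneg (sq_nonneg _), ← sq_abs]
      calc |u * cy c θ k - v * cx c θ k| ^ 2 ≤ (K * Real.sqrt (gsq (pathA c) θ)) ^ 2 :=
            pow_le_pow_left₀ (abs_nonneg _) hcr 2
        _ = K ^ 2 * ρ ^ 3 := by
            rw [mul_pow, Real.sq_sqrt (gsq_nonneg _ _), hg]

theorem sum_Icc_fin (n : ℕ) (f : ℕ → ℝ) : ∑ k ∈ Finset.Icc 1 n, f k = ∑ i : Fin n, f (i + 1) := by
  rw [Fin.sum_univ_eq_sum_range (fun i => f (i + 1)) n]
  induction n with
  | zero => simp
  | succ n ih => rw [Finset.sum_Icc_succ_top (by omega), Finset.sum_range_succ, ih]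

end Pool.Agent.H96.Kur
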