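import Mathlib
import Pool.Agent.H96.Kur.Loj

/-!
Lojasiewicz inequality for odd clique blow-ups of a path: main statement.
-/

open Set Metric MeasureTheory Filter
open scoped Topology NNReal

namespace Pool.Agent.H96.Kur

variable {V : Type*} [Fintype V]

theorem loj {c : V → ℕ} {n : ℕ} (hc : ∀ a, 1 ≤ c a) (hn : ∀ a, c a ≤ n)
    (hodd : ∀ k, 1 ≤ k → k ≤ n → Odd (cls c k).card) :
    ∃ (E : Finset ℝ) (C δ : ℝ), 0 ≤ C ∧ 0 < δ ∧ ∀ (θ : V → ℝ) (ρ : ℝ), 0 ≤ ρ → ρ ≤ δ →
      ρ ^ 3 = gsq (pathA c) θ → ∃ e ∈ E, |pot (pathA c) θ - e| ≤ C * ρ ^ 2 := by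
  classical
  obtain ⟨K, hK0, hdir⟩ := exists_dir hc hodd
  set N : ℝ := (Fintype.card V : ℝ) with hN
  have hN0 : 0 ≤ N := Nat.cast_nonneg _
  set T : Finset (Fin n → Option ℤ) := Fintype.piFinset fun _ =>
    Finset.insertNone (Finset.Icc (-(Fintype.card V : ℤ)) (Fintype.card V)) with hT
  choose Ct hCt0 δt hδt hoff using fun t : Fin n → Option ℤ => hoffman (Lt n t) (bt n t)
  set et : (Fin n → Option ℤ) → ℝ := fun t =>
    if h : ∃ s, Lt n t s = bt n t then qf n (Classical.choose h) - N else 0 with het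
  have hTne : T.Nonempty := ⟨fun _ => none, by
    rw [hT, Fintype.mem_piFinset]
    intro i
    exact Finset.none_mem_insertNone⟩
  set Cm : ℝ := ∑ t ∈ T, Ct t with hCm
  have hCm0 : 0 ≤ Cm := Finset.sum_nonneg fun t _ => hCt0 t
  have hCtle : ∀ t ∈ T, Ct t ≤ Cm := fun t ht =>
    Finset.single_le_sum (f := Ct) (fun t _ => hCt0 t) ht
  set δm : ℝ := T.inf' hTne δt with hδm
  have hδm0 : 0 < δm := by
    rw [hδm, Finset.lt_inf'_iff]
    exact fun t _ => hδt t
  have hδle : ∀ t ∈ T, δm ≤ δt t := fun t ht => Finset.inf'_le δt ht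
  set C1 : ℝ := 1 + 3 * N + K ^ 2 with hC1
  have hC1pos : 0 < C1 := by positivity
  set δ : ℝ := min 1 (δm / C1) with hδ
  have hδpos : 0 < δ := lt_min one_pos (by positivity)
  set C2 : ℝ := Cm * C1 with hC2
  have hC20 : 0 ≤ C2 := by positivity
  set CT : ℝ := C2 + 12 * N * 3 + 3 * N * (2 * n * C2) + K ^ 2 * (12 * N + 2 * n * C2) with hCT
  have hCT0 : 0 ≤ CT := by positivity
  refine ⟨T.image et, 3 * n * K ^ 2 + n * CT, δ, by positivity, hδpos, ?_⟩
  intro θ ρ hρ0 hρδ hρg
  have hρ1 : ρ ≤ 1 := hρδ.trans (min_le_left _ _)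
  obtain ⟨u, v, huv, hcr⟩ := hdir θ
  set g : ℝ := Real.sqrt (gsq (pathA c) θ) with hg
  have hg0 : 0 ≤ g := Real.sqrt_nonneg _
  have hgg : g ^ 2 = ρ ^ 3 := by rw [hg, Real.sq_sqrt (gsq_nonneg _ _), hρg]
  set f : ℕ → ℝ := fun k => u * cx c θ k + v * cy c θ k with hf
  have hf0 : f 0 = 0 := by simp only [hf, cx_zero hc, cy_zero hc]; ring
  have hempty : cls c (n + 1) = ∅ := by
    ext a
    have := hn a
    simp only [mem_cls, Finset.notMem_empty, iff_false]
    omega
  have hfn : f (n + 1) = 0 := by simp only [hf, cx, cy, hempty, Finset.sum_empty]; ring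
  set s : Fin n → ℝ := fun i => f (i + 1) with hs
  have hz : ∀ i : Fin n, ∑ j, Pm n i j * s j = u * zx c θ (i + 1) + v * zy c θ (i + 1) := by
    intro i
    have := Pm_apply n f hf0 hfn i
    simp only [hs]
    rw [this]
    simp only [hf, zx, zy, Nat.add_sub_cancel]
    ring
  have hdata : ∀ i : Fin n, _ := fun i => class_data hc
    (hodd ((i : ℕ) + 1) (by omega) (by have := i.2; omega)) θ huv
    (hcr ((i : ℕ) + 1) (by have := i.2; omega)) hρ0 hρg
  choose t htmem w q hw0 hwρ hq0 hq6 hwq hzq hnone hsome using hdata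
  have htT : t ∈ T := by
    rw [hT, Fintype.mem_piFinset]
    exact htmem
  -- the approximate linear system
  have hL : ∀ i, |Lt n t s i - bt n t i| ≤ C1 * ρ := by
    intro i
    cases hti : t i with
    | none =>
      rw [Lt_none hti, bt_none hti, sub_zero, hz i]
      have h1 := (hzq i).trans (hnone i hti)
      have h2 : 1 * ρ ≤ C1 * ρ := by
        apply mul_le_mul_of_nonneg_right _ hρ0
        rw [hC1]; nlinarith [sq_nonneg K]
      linarith
    | some κ =>
      rw [Lt_some hti, bt_some hti]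
      have h1 := hsome i κ hti
      have h2 : 3 * N * w i ≤ 3 * N * ρ := mul_le_mul_of_nonneg_left (hwρ i) (by positivity)
      have h3 : ρ ^ 3 ≤ ρ := by
        calc ρ ^ 3 = ρ * ρ ^ 2 := by ring
          _ ≤ ρ * 1 := mul_le_mul_of_nonneg_left (pow_le_one₀ hρ0 hρ1) hρ0
          _ = ρ := mul_one _
      have h4 : K ^ 2 * ρ ^ 3 ≤ K ^ 2 * ρ := mul_le_mul_of_nonneg_left h3 (sq_nonneg _)
      have h5 : C1 * ρ = ρ + 3 * N * ρ + K ^ 2 * ρ := by rw [hC1]; ring
      rw [h5]
      simp only [hs, hf]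
      linarith
  have hLn : ‖Lt n t s - bt n t‖ ≤ C1 * ρ := by
    rw [pi_norm_le_iff_of_nonneg (by positivity)]
    intro i
    rw [Real.norm_eq_abs]
    exact hL i
  have hLδ : ‖Lt n t s - bt n t‖ ≤ δt t := by
    refine hLn.trans ?_
    calc C1 * ρ ≤ C1 * (δm / C1) :=
          mul_le_mul_of_nonneg_left (hρδ.trans (min_le_right _ _)) hC1pos.le
      _ = δm := by field_simp
      _ ≤ δt t := hδle t htT
  obtain ⟨s', hs', hss'⟩ := hoff t s hLδ
  have hss2 : ‖s - s'‖ ≤ C2 * ρ := by
    refine hss'.trans ?_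
    calc Ct t * ‖Lt n t s - bt n t‖ ≤ Cm * (C1 * ρ) :=
          mul_le_mul (hCtle t htT) hLn (norm_nonneg _) hCm0
      _ = C2 * ρ := by rw [hC2]; ring
  have hsi : ∀ i, |s i - s' i| ≤ C2 * ρ := by
    intro i
    have := norm_le_pi_norm (s - s') i
    rw [Pi.sub_apply, Real.norm_eq_abs] at this
    linarith
  have hzi : ∀ i, |(∑ j, Pm n i j * s j) - ∑ j, Pm n i j * s' j| ≤ n * (C2 * ρ) := by
    intro i
    rw [← Finset.sum_sub_distrib]
    refine (Finset.abs_sum_le_sum_abs _ _).trans ?_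
    have : ∀ j ∈ Finset.univ, |Pm n i j * s j - Pm n i j * s' j| ≤ C2 * ρ := by
      intro j _
      rw [← mul_sub, abs_mul, abs_of_nonneg (Pm_nonneg n i j)]
      calc Pm n i j * |s j - s' j| ≤ 1 * (C2 * ρ) :=
            mul_le_mul (Pm_le_one n i j) (hsi j) (abs_nonneg _) zero_le_one
        _ = C2 * ρ := one_mul _
    refine (Finset.sum_le_sum this).trans ?_
    simp
  refine ⟨et t, Finset.mem_image_of_mem _ htT, ?_⟩
  have hex : ∃ s, Lt n t s = bt n t := ⟨s', hs'⟩
  have hett : et t = qf n s' - N := by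
    simp only [het]
    rw [dif_pos hex, qf_unique (Classical.choose_spec hex) hs']
  -- energy in terms of `s`
  have hpot : pot (pathA c) θ + N = qf n s +
      ∑ i : Fin n, (u * cy c θ (i + 1) - v * cx c θ (i + 1)) *
        (u * zy c θ (i + 1) - v * zx c θ (i + 1)) := by
    rw [hN, pot_path hc hn, sum_Icc_fin, qf, ← Finset.sum_add_distrib]
    refine Finset.sum_congr rfl fun i _ => ?_
    rw [hz i]
    simp only [hs, hf]
    have : (u * cx c θ (i + 1) + v * cy c θ (i + 1)) * (u * zx c θ (i + 1) + v * zy c θ (i + 1)) +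
        (u * cy c θ (i + 1) - v * cx c θ (i + 1)) * (u * zy c θ (i + 1) - v * zx c θ (i + 1)) =
        (u ^ 2 + v ^ 2) * (cx c θ (i + 1) * zx c θ (i + 1) + cy c θ (i + 1) * zy c θ (i + 1)) := by
      ring
    rw [this, huv, one_mul]
  have hcrossb : |∑ i : Fin n, (u * cy c θ (i + 1) - v * cx c θ (i + 1)) *
        (u * zy c θ (i + 1) - v * zx c θ (i + 1))| ≤ 3 * n * K ^ 2 * ρ ^ 2 := by
    refine (Finset.abs_sum_le_sum_abs _ _).trans ?_
    have hb : ∀ i ∈ (Finset.univ : Finset (Fin n)),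
        |(u * cy c θ (i + 1) - v * cx c θ (i + 1)) *
          (u * zy c θ (i + 1) - v * zx c θ (i + 1))| ≤ 3 * K ^ 2 * ρ ^ 2 := by
      intro i _
      have hi := i.2
      have a0 := hcr (i : ℕ) (by omega)
      have a1 := hcr ((i : ℕ) + 1) (by omega)
      have a2 := hcr ((i : ℕ) + 1 + 1) (by omega)
      have a3 : |u * zy c θ (i + 1) - v * zx c θ (i + 1)| ≤ 3 * (K * g) := by
        have : u * zy c θ (i + 1) - v * zx c θ (i + 1) =
            (u * cy c θ i - v * cx c θ i) + (u * cy c θ (i + 1) - v * cx c θ (i + 1)) +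
            (u * cy c θ (i + 1 + 1) - v * cx c θ (i + 1 + 1)) := by
          simp only [zx, zy, Nat.add_sub_cancel]
          ring
        rw [this]
        refine (abs_add_le _ _).trans ?_
        have := abs_add_le (u * cy c θ i - v * cx c θ i) (u * cy c θ (i + 1) - v * cx c θ (i + 1))
        linarith
      rw [abs_mul]
      calc |u * cy c θ (i + 1) - v * cx c θ (i + 1)| * |u * zy c θ (i + 1) - v * zx c θ (i + 1)|
          ≤ (K * g) * (3 * (K * g)) := mul_le_mul a1 a3 (abs_nonneg _) (by positivity)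
        _ = 3 * K ^ 2 * (g ^ 2) := by ring
        _ = 3 * K ^ 2 * ρ ^ 3 := by rw [hgg]
        _ ≤ 3 * K ^ 2 * ρ ^ 2 := by
            apply mul_le_mul_of_nonneg_left _ (by positivity)
            calc ρ ^ 3 = ρ ^ 2 * ρ := by ring
              _ ≤ ρ ^ 2 * 1 := mul_le_mul_of_nonneg_left hρ1 (by positivity)
              _ = ρ ^ 2 := mul_one _
    refine (Finset.sum_le_sum hb).trans ?_
    simp only [Finset.sum_const, Finset.card_univ, Fintype.card_fin, nsmul_eq_mul]
    exact le_of_eq (by ring)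
  have hqf : |qf n s - qf n s'| ≤ n * CT * ρ ^ 2 := by
    rw [qf_sub]
    refine (Finset.abs_sum_le_sum_abs _ _).trans ?_
    have hb : ∀ i ∈ (Finset.univ : Finset (Fin n)),
        |(s i - s' i) * (∑ j, Pm n i j * s j + ∑ j, Pm n i j * s' j)| ≤ CT * ρ ^ 2 := by
      intro i _
      rw [abs_mul]
      have e1 := congrFun hs' i
      have hzle : |∑ j, Pm n i j * s j| ≤ q i := by rw [hz i]; exact hzq i
      cases hti : t i with
      | none =>
        rw [Lt_none hti, bt_none hti] at e1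
        rw [e1, add_zero]
        have h1 : |∑ j, Pm n i j * s j| ≤ ρ := hzle.trans (hnone i hti)
        calc |s i - s' i| * |∑ j, Pm n i j * s j| ≤ (C2 * ρ) * ρ :=
              mul_le_mul (hsi i) h1 (abs_nonneg _) (by positivity)
          _ = C2 * ρ ^ 2 := by ring
          _ ≤ CT * ρ ^ 2 := by
              apply mul_le_mul_of_nonneg_right _ (by positivity)
              rw [hCT]
              have : 0 ≤ 12 * N * 3 + 3 * N * (2 * n * C2) + K ^ 2 * (12 * N + 2 * n * C2) := by
                positivity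
              linarith
      | some κ =>
        rw [Lt_some hti, bt_some hti] at e1
        rw [e1]
        have h1 := hsome i κ hti
        have h2 : |∑ j, Pm n i j * s j + ∑ j, Pm n i j * s' j| ≤ 2 * q i + n * (C2 * ρ) := by
          have h3 : ∑ j, Pm n i j * s j + ∑ j, Pm n i j * s' j =
              2 * (∑ j, Pm n i j * s j) - ((∑ j, Pm n i j * s j) - ∑ j, Pm n i j * s' j) := by
            ring
          rw [h3]
          refine (abs_sub _ _).trans (add_le_add ?_ (hzi i))
          rw [abs_mul, abs_two]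
          linarith
        have h4 : |s i - (κ : ℝ)| ≤ 3 * N * w i + K ^ 2 * ρ ^ 3 := h1
        have hq := hq0 i
        have hw := hw0 i
        have hw' := hwρ i
        have hwq' := hwq i
        have hq6' := hq6 i
        calc |s i - (κ : ℝ)| * |∑ j, Pm n i j * s j + ∑ j, Pm n i j * s' j|
            ≤ (3 * N * w i + K ^ 2 * ρ ^ 3) * (2 * q i + n * (C2 * ρ)) :=
              mul_le_mul h4 h2 (abs_nonneg _) (by positivity)
          _ = 6 * N * (w i * q i) + 3 * N * (n * C2) * (w i * ρ) +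
              K ^ 2 * (2 * q i + n * C2 * ρ) * ρ ^ 3 := by ring
          _ ≤ 6 * N * ρ ^ 2 + 3 * N * (n * C2) * ρ ^ 2 + K ^ 2 * (12 * N + n * C2) * ρ ^ 2 := by
              have f1 : 6 * N * (w i * q i) ≤ 6 * N * ρ ^ 2 :=
                mul_le_mul_of_nonneg_left hwq' (by positivity)
              have f2 : 3 * N * (n * C2) * (w i * ρ) ≤ 3 * N * (n * C2) * ρ ^ 2 := by
                apply mul_le_mul_of_nonneg_left _ (by positivity)
                calc w i * ρ ≤ ρ * ρ := mul_le_mul_of_nonneg_right hw' hρ0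
                  _ = ρ ^ 2 := by ring
              have f3 : ρ ^ 3 ≤ ρ ^ 2 := by
                calc ρ ^ 3 = ρ ^ 2 * ρ := by ring
                  _ ≤ ρ ^ 2 * 1 := mul_le_mul_of_nonneg_left hρ1 (by positivity)
                  _ = ρ ^ 2 := mul_one _
              have f4 : 2 * q i + n * C2 * ρ ≤ 12 * N + n * C2 := by
                have : n * C2 * ρ ≤ n * C2 * 1 := mul_le_mul_of_nonneg_left hρ1 (by positivity)
                linarith
              have f5 : K ^ 2 * (2 * q i + n * C2 * ρ) * ρ ^ 3 ≤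
                  K ^ 2 * (12 * N + n * C2) * ρ ^ 2 :=
                mul_le_mul (mul_le_mul_of_nonneg_left f4 (sq_nonneg _)) f3 (by positivity)
                  (by positivity)
              linarith
          _ = (6 * N + 3 * N * (n * C2) + K ^ 2 * (12 * N + n * C2)) * ρ ^ 2 := by ring
          _ ≤ CT * ρ ^ 2 := by
              apply mul_le_mul_of_nonneg_right _ (by positivity)
              rw [hCT]
              have : 0 ≤ C2 + 30 * N + 3 * N * (n * C2) + K ^ 2 * (n * C2) := by positivity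
              nlinarith
    refine (Finset.sum_le_sum hb).trans ?_
    simp only [Finset.sum_const, Finset.card_univ, Fintype.card_fin, nsmul_eq_mul]
    exact le_of_eq (by ring)
  have hfinal : pot (pathA c) θ - et t = (qf n s - qf n s') +
      ∑ i : Fin n, (u * cy c θ (i + 1) - v * cx c θ (i + 1)) *
        (u * zy c θ (i + 1) - v * zx c θ (i + 1)) := by
    rw [hett]
    linarith
  rw [hfinal]
  refine (abs_add_le _ _).trans ?_
  calc _ ≤ n * CT * ρ ^ 2 + 3 * n * K ^ 2 * ρ ^ 2 := add_le_add hqf hcrossb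
    _ = (3 * n * K ^ 2 + n * CT) * ρ ^ 2 := by ring

end Pool.Agent.H96.Kur
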