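import Mathlib
import Pool.Agent.H96.Kur.LojMain
import Pool.Agent.H96.Kur.Converge

/-!
Odd clique blow-ups of a path are globally synchronizing.
-/

open Set Metric MeasureTheory Filter
open scoped Topology NNReal

namespace Pool.Agent.H96.Kur

variable {V : Type*} [Fintype V]

theorem pathA_self (c : V → ℕ) (a : V) : pathA c a a = 0 := by
  unfold pathA; simp

/-- the Hessian form on the indicator of a vertex -/
theorem form_single (c : V → ℕ) (θ : V → ℝ) (a : V) :
    open Classical in
    ∑ i, ∑ j, pathA c i j * Real.cos (θ j - θ i) *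
      ((if j = a then (1 : ℝ) else 0) - (if i = a then 1 else 0)) ^ 2 =
    2 * ∑ j, pathA c a j * Real.cos (θ j - θ a) := by
  classical
  have h1 : ∀ i j, pathA c i j * Real.cos (θ j - θ i) *
      ((if j = a then (1 : ℝ) else 0) - (if i = a then 1 else 0)) ^ 2 =
      (if j = a then pathA c i j * Real.cos (θ j - θ i) else 0) +
      (if i = a then pathA c i j * Real.cos (θ j - θ i) else 0) := by
    intro i j
    by_cases hj : j = a
    · by_cases hi : i = a
      · subst hj; subst hi
        simp [pathA_self]
      · simp [hj, hi]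
    · by_cases hi : i = a
      · simp [hj, hi]
      · simp [hj, hi]
  simp only [h1, Finset.sum_add_distrib]
  have h2 : ∑ i, ∑ j, (if j = a then pathA c i j * Real.cos (θ j - θ i) else 0) =
      ∑ i, pathA c i a * Real.cos (θ a - θ i) := by
    refine Finset.sum_congr rfl fun i _ => ?_
    rw [Finset.sum_ite_eq' Finset.univ a (fun j => pathA c i j * Real.cos (θ j - θ i))]
    simp
  have h3 : ∑ i, ∑ j, (if i = a then pathA c i j * Real.cos (θ j - θ i) else 0) =
      ∑ j, pathA c a j * Real.cos (θ j - θ a) := by
    rw [Finset.sum_comm]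
    refine Finset.sum_congr rfl fun j _ => ?_
    rw [Finset.sum_ite_eq' Finset.univ a (fun i => pathA c i j * Real.cos (θ j - θ i))]
    simp
  rw [h2, h3]
  have h4 : ∑ i, pathA c i a * Real.cos (θ a - θ i) =
      ∑ j, pathA c a j * Real.cos (θ j - θ a) := by
    refine Finset.sum_congr rfl fun i _ => ?_
    rw [pathA_symm c i a, ← Real.cos_neg, neg_sub]
  rw [h4]; ring

theorem path_equilibrium {c : V → ℕ} {n : ℕ} (hc : ∀ a, 1 ≤ c a) (hn : ∀ a, c a ≤ n)
    (hodd : ∀ k, 1 ≤ k → k ≤ n → Odd (cls c k).card) (θ : V → ℝ) (hθ : kvf (pathA c) θ = 0) :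
    IsSaddle (pathA c) θ ∨
      ∀ a b, Real.cos (θ a) = Real.cos (θ b) ∧ Real.sin (θ a) = Real.sin (θ b) := by
  classical
  by_cases hs : IsSaddle (pathA c) θ
  · exact Or.inl hs
  right
  have hpos : ∀ d : V → ℝ,
      0 ≤ ∑ i, ∑ j, pathA c i j * Real.cos (θ j - θ i) * (d j - d i) ^ 2 := by
    intro d
    by_contra hcon
    push Not at hcon
    exact hs ⟨d, hcon⟩
  -- alignment with the local field
  have hr : ∀ a, ∃ r : ℝ, 1 ≤ r ∧ zx c θ (c a) = r * Real.cos (θ a) ∧
      zy c θ (c a) = r * Real.sin (θ a) := by
    intro a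
    have h1 := hpos (fun i => if i = a then 1 else 0)
    rw [form_single c θ a, cossum_path hc] at h1
    have h2 : kvf (pathA c) θ a = 0 := by rw [hθ]; rfl
    rw [kvf_path hc] at h2
    have h3 := Real.sin_sq_add_cos_sq (θ a)
    refine ⟨Real.cos (θ a) * zx c θ (c a) + Real.sin (θ a) * zy c θ (c a), by linarith, ?_, ?_⟩
    · linear_combination (-Real.sin (θ a)) * h2 - zx c θ (c a) * h3
    · linear_combination (Real.cos (θ a)) * h2 - zy c θ (c a) * h3
  -- same class, same phase
  have hsame : ∀ a b, c a = c b → Real.cos (θ a) = Real.cos (θ b) ∧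
      Real.sin (θ a) = Real.sin (θ b) := by
    intro a b hab
    obtain ⟨r, hr1, hrx, hry⟩ := hr a
    obtain ⟨s, hs1, hsx, hsy⟩ := hr b
    rw [← hab] at hsx hsy
    rw [hrx] at hsx
    rw [hry] at hsy
    have h3 := Real.sin_sq_add_cos_sq (θ a)
    have h4 := Real.sin_sq_add_cos_sq (θ b)
    have hrs : r ^ 2 = s ^ 2 := by
      have e1 : r ^ 2 = (r * Real.cos (θ a)) ^ 2 + (r * Real.sin (θ a)) ^ 2 := by
        linear_combination (-r ^ 2) * h3
      have e2 : s ^ 2 = (s * Real.cos (θ b)) ^ 2 + (s * Real.sin (θ b)) ^ 2 := by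
        linear_combination (-s ^ 2) * h4
      rw [e1, e2, hsx, hsy]
    have hrs' : r = s := by nlinarith
    rw [hrs'] at hsx hsy
    have hs0 : s ≠ 0 := by linarith
    exact ⟨mul_left_cancel₀ hs0 hsx, mul_left_cancel₀ hs0 hsy⟩
  -- flux vanishes
  have hg0 : gsq (pathA c) θ = 0 := by simp [gsq, hθ]
  have hflux : ∀ k, flux c θ k = 0 := by
    intro k
    have := flux_le hc θ k
    rw [hg0, Real.sqrt_zero, mul_zero, mul_zero] at this
    exact abs_nonpos_iff.mp this
  have hsum : ∀ a, cx c θ (c a) = (cls c (c a)).card * Real.cos (θ a) ∧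
      cy c θ (c a) = (cls c (c a)).card * Real.sin (θ a) := by
    intro a
    constructor
    · rw [cx, Finset.sum_congr rfl fun b hb => (hsame b a (mem_cls.mp hb)).1]
      simp
    · rw [cy, Finset.sum_congr rfl fun b hb => (hsame b a (mem_cls.mp hb)).2]
      simp
  have hadj : ∀ a b, c b = c a + 1 → Real.sin (θ b - θ a) = 0 := by
    intro a b hab
    have h1 := hflux (c a)
    unfold flux at h1
    rw [← hab, (hsum a).1, (hsum a).2, (hsum b).1, (hsum b).2] at h1
    have hm1 : ((cls c (c a)).card : ℝ) ≠ 0 := by
      have : a ∈ cls c (c a) := mem_cls.mpr rfl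
      have := Finset.card_pos.mpr ⟨a, this⟩
      positivity
    have hm2 : ((cls c (c b)).card : ℝ) ≠ 0 := by
      have : b ∈ cls c (c b) := mem_cls.mpr rfl
      have := Finset.card_pos.mpr ⟨b, this⟩
      positivity
    rw [Real.sin_sub]
    have h2 : ((cls c (c a)).card : ℝ) * ((cls c (c b)).card : ℝ) *
        (Real.sin (θ b) * Real.cos (θ a) - Real.cos (θ b) * Real.sin (θ a)) = 0 := by
      linarith
    rcases mul_eq_zero.mp h2 with h3 | h3
    · rcases mul_eq_zero.mp h3 with h4 | h4
      · exact absurd h4 hm1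
      · exact absurd h4 hm2
    · exact h3
  -- no antiphase edge
  have hadj' : ∀ a b, c b = c a + 1 → Real.cos (θ b) = Real.cos (θ a) ∧
      Real.sin (θ b) = Real.sin (θ a) := by
    intro a b hab
    have h1 := hadj a b hab
    have h2 : Real.cos (θ b - θ a) = 1 ∨ Real.cos (θ b - θ a) = -1 := by
      have := Real.sin_sq_add_cos_sq (θ b - θ a)
      rw [h1] at this
      have h3 : (Real.cos (θ b - θ a) - 1) * (Real.cos (θ b - θ a) + 1) = 0 := by
        linear_combination this
      rcases mul_eq_zero.mp h3 with h4 | h4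
      · left; linarith
      · right; linarith
    rcases h2 with h2 | h2
    · have e1 : θ b = (θ b - θ a) + θ a := by ring
      constructor
      · rw [e1, Real.cos_add, h1, h2]; ring
      · rw [e1, Real.sin_add, h1, h2]; ring
    · exfalso
      have hlow := hpos (fun i => if c i ≤ c a then 1 else 0)
      -- all antiphase
      have hall : ∀ i j, c i = c a → c j = c b → Real.cos (θ j - θ i) = -1 := by
        intro i j hi hj
        rw [Real.cos_sub, (hsame i a hi).1, (hsame i a hi).2, (hsame j b hj).1, (hsame j b hj).2,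
          ← Real.cos_sub]
        exact h2
      have hterm : ∀ i j, pathA c i j * Real.cos (θ j - θ i) *
          ((if c j ≤ c a then (1 : ℝ) else 0) - (if c i ≤ c a then 1 else 0)) ^ 2 ≤ 0 := by
        intro i j
        by_cases hi : c i ≤ c a
        · by_cases hj : c j ≤ c a
          · simp [hi, hj]
          · by_cases hA : pathA c i j = 0
            · simp [hA]
            · have hA' : i ≠ j ∧ (c i = c j ∨ c i = c j + 1 ∨ c j = c i + 1) := by
                by_contra hcon
                apply hA
                unfold pathA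
                rw [if_neg hcon]
              have e1 : c i = c a ∧ c j = c b := by
                rcases hA'.2 with h | h | h <;> constructor <;> omega
              rw [hall i j e1.1 e1.2]
              have := pathA_nonneg c i j
              simp only [hi, hj, if_true, if_false]
              nlinarith
        · by_cases hj : c j ≤ c a
          · by_cases hA : pathA c i j = 0
            · simp [hA]
            · have hA' : i ≠ j ∧ (c i = c j ∨ c i = c j + 1 ∨ c j = c i + 1) := by
                by_contra hcon
                apply hA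
                unfold pathA
                rw [if_neg hcon]
              have e1 : c j = c a ∧ c i = c b := by
                rcases hA'.2 with h | h | h <;> constructor <;> omega
              have e2 : Real.cos (θ j - θ i) = -1 := by
                rw [← Real.cos_neg, neg_sub]
                exact hall j i e1.1 e1.2
              rw [e2]
              have := pathA_nonneg c i j
              simp only [hi, hj, if_true, if_false]
              nlinarith
          · simp [hi, hj]
      have hab' : pathA c a b * Real.cos (θ b - θ a) *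
          ((if c b ≤ c a then (1 : ℝ) else 0) - (if c a ≤ c a then 1 else 0)) ^ 2 = -1 := by
        have e1 : ¬ (c b ≤ c a) := by omega
        have e2 : pathA c a b = 1 := by
          unfold pathA
          rw [if_pos]
          refine ⟨?_, Or.inr (Or.inr hab)⟩
          intro h; rw [h] at hab; omega
        rw [e2, h2, if_neg e1, if_pos (le_refl _)]
        norm_num
      have hneg : ∑ i, ∑ j, pathA c i j * Real.cos (θ j - θ i) *
          ((if c j ≤ c a then (1 : ℝ) else 0) - (if c i ≤ c a then 1 else 0)) ^ 2 < 0 := by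
        have e1 : ∀ i ∈ (Finset.univ : Finset V), ∑ j, pathA c i j * Real.cos (θ j - θ i) *
          ((if c j ≤ c a then (1 : ℝ) else 0) - (if c i ≤ c a then 1 else 0)) ^ 2 ≤ 0 :=
          fun i _ => Finset.sum_nonpos fun j _ => hterm i j
        have e2 : ∑ j, pathA c a j * Real.cos (θ j - θ a) *
          ((if c j ≤ c a then (1 : ℝ) else 0) - (if c a ≤ c a then 1 else 0)) ^ 2 < 0 := by
          have := Finset.sum_lt_sum (s := Finset.univ) (f := fun j => pathA c a j *
            Real.cos (θ j - θ a) * ((if c j ≤ c a then (1 : ℝ) else 0) -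
            (if c a ≤ c a then 1 else 0)) ^ 2) (g := fun _ => (0 : ℝ))
            (fun j _ => hterm a j) ⟨b, Finset.mem_univ _, by rw [hab']; norm_num⟩
          simpa using this
        have := Finset.sum_lt_sum (s := Finset.univ) (f := fun i => ∑ j, pathA c i j *
            Real.cos (θ j - θ i) * ((if c j ≤ c a then (1 : ℝ) else 0) -
            (if c i ≤ c a then 1 else 0)) ^ 2) (g := fun _ => (0 : ℝ))
            e1 ⟨a, Finset.mem_univ _, e2⟩
        simpa using this
      linarith
  -- propagate
  have hprop : ∀ k, 1 ≤ k → k ≤ n → ∀ a b, c a = 1 → c b = k → Real.cos (θ a) = Real.cos (θ b) ∧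
      Real.sin (θ a) = Real.sin (θ b) := by
    intro k hk1
    induction k, hk1 using Nat.le_induction with
    | base => intro _ a b ha hb; exact hsame a b (by rw [ha, hb])
    | succ k hk ih =>
      intro hkn a b ha hb
      have hcard : 0 < (cls c k).card := (hodd k hk (by omega)).pos
      obtain ⟨a', ha'⟩ := Finset.card_pos.mp hcard
      have ha'' := mem_cls.mp ha'
      have h1 := ih (by omega) a a' ha ha''
      have h2 := hadj' a' b (by rw [ha'', hb])
      exact ⟨h1.1.trans h2.1.symm, h1.2.trans h2.2.symm⟩
  intro a b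
  have hn1 : 1 ≤ n := (hc a).trans (hn a)
  have hcard : 0 < (cls c 1).card := (hodd 1 (le_refl _) hn1).pos
  obtain ⟨a', ha'⟩ := Finset.card_pos.mp hcard
  have ha'' := mem_cls.mp ha'
  have h1 := hprop (c a) (hc a) (hn a) a' a ha'' rfl
  have h2 := hprop (c b) (hc b) (hn b) a' b ha'' rfl
  exact ⟨h1.1.symm.trans h2.1, h1.2.symm.trans h2.2⟩

/-- Global synchronization of odd clique blow-ups of a path, flow version. -/
theorem path_sync {c : V → ℕ} {n : ℕ} (hc : ∀ a, 1 ≤ c a) (hn : ∀ a, c a ≤ n)
    (hodd : ∀ k, 1 ≤ k → k ≤ n → Odd (cls c k).card)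
    {φ : ℝ → (V → ℝ) → (V → ℝ)} (hφ : IsFlow (kvf (pathA c)) φ) :
    ∀ᵐ x : V → ℝ, ∀ a b, Tendsto (fun t => ((φ t x a - φ t x b : ℝ) : Real.Angle)) atTop (𝓝 0) := by
  have hbad := bad_null (pathA c) (pathA_symm c) hφ
  rw [← compl_mem_ae_iff] at hbad
  filter_upwards [hbad] with x hx a b
  obtain ⟨y, hy⟩ := converge (pathA_symm c) hφ (loj hc hn hodd) x
  have hstat := limit_stationary hφ hy
  rcases path_equilibrium hc hn hodd y hstat with h | h
  · exact absurd ⟨y, h, hy⟩ hx
  · have h1 : Tendsto (fun t => φ t x a - φ t x b) atTop (𝓝 (y a - y b)) :=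
      ((tendsto_pi_nhds.mp hy) a).sub ((tendsto_pi_nhds.mp hy) b)
    have h2 : ((y a - y b : ℝ) : Real.Angle) = 0 := by
      have h3 := Real.Angle.cos_sin_inj (h a b).1 (h a b).2
      rw [Real.Angle.coe_sub, h3, sub_self]
    rw [← h2]
    exact (Real.Angle.continuous_coe.tendsto _).comp h1

end Pool.Agent.H96.Kur
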