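import Mathlib
import Pool.Agent.H96.Kur.KinkBarrier
import Pool.Agent.H96.Kur.Converge

/-!
The trapped region for the blown-up path with a universal vertex.
-/

open Set Metric MeasureTheory Filter
open scoped Topology NNReal

namespace Pool.Agent.H96.Kur

variable {V : Type*} [Fintype V]

/-- coupling matrix after adding a universal vertex -/
def starA (A : V → V → ℝ) : Option V → Option V → ℝ
  | some a, some b => A a b
  | none, none => 0
  | _, _ => 1

omit [Fintype V] in
theorem starA_symm {A : V → V → ℝ} (hA : ∀ a b, A a b = A b a) (i j : Option V) :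
    starA A i j = starA A j i := by
  cases i <;> cases j <;> simp [starA, hA]

theorem pot_star (A : V → V → ℝ) (θ : Option V → ℝ) :
    pot (starA A) θ = pot A (fun a => θ (some a)) +
      2 * ∑ a, Real.cos (θ (some a) - θ none) := by
  unfold pot
  rw [Fintype.sum_option]
  simp only [Fintype.sum_option, starA, zero_mul, one_mul, zero_add, Finset.sum_add_distrib]
  have : ∑ a, Real.cos (θ none - θ (some a)) = ∑ a, Real.cos (θ (some a) - θ none) := by
    refine Finset.sum_congr rfl fun a _ => ?_
    rw [← Real.cos_neg, neg_sub]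
  rw [this]
  ring

theorem pot_shift (A : V → V → ℝ) (θ : V → ℝ) (s : ℝ) :
    pot A (fun a => s + θ a) = pot A θ := by
  unfold pot
  refine Finset.sum_congr rfl fun a _ => Finset.sum_congr rfl fun b _ => ?_
  congr 2
  ring

/-- deviation from the kink -/
noncomputable def dev (c : V → ℕ) (θ : Option V → ℝ) : V → ℝ :=
  fun a => θ (some a) - θ none - Phi (c a)

theorem pot_star_dev (c : V → ℕ) (θ : Option V → ℝ) :
    pot (starA (pathA c)) θ = pot (pathA c) (fun a => Phi (c a) + dev c θ a) +
      2 * ∑ a, Real.cos (Phi (c a) + dev c θ a) := by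
  rw [pot_star]
  have h1 : (fun a => θ (some a)) = fun a => θ none + (Phi (c a) + dev c θ a) := by
    ext a; simp only [dev]; ring
  rw [h1, pot_shift]
  congr 2
  refine Finset.sum_congr rfl fun a _ => ?_
  congr 1
  simp only [dev]; ring

/-- energy level of the kink centre -/
noncomputable def E0 (c : V → ℕ) : ℝ :=
  pot (pathA c) (fun a => Phi (c a)) + 2 * ∑ a, Real.cos (Phi (c a))

/-- trapped open set -/
def trapSet (c : V → ℕ) : Set (Option V → ℝ) :=
  {θ | ‖dev c θ‖ < 1 / 10 ∧ E0 c - 1 / 2000 < pot (starA (pathA c)) θ}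

theorem continuous_dev (c : V → ℕ) : Continuous (dev c) := by
  unfold dev
  fun_prop

theorem continuous_pot {W : Type*} [Fintype W] (A : W → W → ℝ) : Continuous (pot A) := by
  unfold pot
  fun_prop

theorem isOpen_trapSet (c : V → ℕ) : IsOpen (trapSet c) := by
  apply IsOpen.inter
  · exact isOpen_lt (continuous_dev c).norm continuous_const
  · exact isOpen_lt continuous_const (continuous_pot _)

theorem nonempty_trapSet (c : V → ℕ) : (trapSet c).Nonempty := by
  refine ⟨fun i => match i with
    | none => 0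
    | some a => Phi (c a), ?_, ?_⟩
  · have : dev c (fun i => match i with
      | none => 0
      | some a => Phi (c a)) = 0 := by
      ext a; simp [dev]
    rw [this]; norm_num
  · rw [pot_star]
    simp only [sub_zero]
    unfold E0
    linarith

theorem trapped {c : V → ℕ} (hk : IsKinkGraph c) {φ : ℝ → (Option V → ℝ) → (Option V → ℝ)}
    (hφ : IsFlow (kvf (starA (pathA c))) φ) {θ : Option V → ℝ} (hθ : θ ∈ trapSet c) :
    ∀ t, 0 ≤ t → ‖dev c (φ t θ)‖ < 1 / 10 := by
  obtain ⟨h0, hE⟩ := hθ
  set M : ℝ → ℝ := fun t => ‖dev c (φ t θ)‖ with hM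
  have hMc : Continuous M := ((continuous_dev c).comp (hφ.continuous_time θ)).norm
  have hM0 : M 0 < 1 / 10 := by simp only [hM, hφ.zero]; exact h0
  have hmono : Monotone fun t => pot (starA (pathA c)) (φ t θ) := by
    have hd := fun t => pot_hasDerivAt (starA (pathA c)) (starA_symm (pathA_symm c))
      (hφ.deriv θ t)
    apply monotone_of_deriv_nonneg
    · exact fun t => (hd t).differentiableAt
    · intro t
      rw [(hd t).deriv]
      have := gsq_nonneg (starA (pathA c)) (φ t θ)
      positivity
  have hne : ∀ t, 0 ≤ t → M t ≠ 1 / 10 := by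
    intro t ht hcon
    have h1 : ∀ a, |dev c (φ t θ) a| ≤ 1 / 10 := by
      intro a
      have := norm_le_pi_norm (dev c (φ t θ)) a
      rw [Real.norm_eq_abs] at this
      linarith
    have h2 : ∃ a, 1 / 10 ≤ |dev c (φ t θ) a| := by
      by_contra hno
      push Not at hno
      have : ‖dev c (φ t θ)‖ < 1 / 10 := by
        rw [pi_norm_lt_iff (by norm_num)]
        intro a
        rw [Real.norm_eq_abs]
        exact hno a
      exact absurd hcon (ne_of_lt this)
    obtain ⟨a, ha⟩ := h2
    have h3 := barrier hk (dev c (φ t θ)) h1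
    rw [← pot_star_dev] at h3
    have h4 : (1 / 10) ^ 2 ≤ ∑ a, dev c (φ t θ) a ^ 2 := by
      calc (1 / 10 : ℝ) ^ 2 ≤ |dev c (φ t θ) a| ^ 2 := pow_le_pow_left₀ (by norm_num) ha 2
        _ = dev c (φ t θ) a ^ 2 := sq_abs _
        _ ≤ _ := Finset.single_le_sum (f := fun a => dev c (φ t θ) a ^ 2)
            (fun _ _ => sq_nonneg _) (Finset.mem_univ a)
    have h5 := hmono ht
    simp only [hφ.zero] at h5
    unfold E0 at hE
    norm_num at h4
    linarith
  intro t ht
  by_contra hcon
  push Not at hcon
  have hiv := intermediate_value_Icc ht (hMc.continuousOn (s := Icc 0 t))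
  obtain ⟨s, hs, hs'⟩ := hiv ⟨hM0.le, hcon⟩
  exact hne s hs.1 hs'

theorem not_sync {c : V → ℕ} (hk : IsKinkGraph c) {φ : ℝ → (Option V → ℝ) → (Option V → ℝ)}
    (hφ : IsFlow (kvf (starA (pathA c))) φ) {θ : Option V → ℝ} (hθ : θ ∈ trapSet c) :
    ¬ ∀ i j, Tendsto (fun t => ((φ t θ i - φ t θ j : ℝ) : Real.Angle)) atTop (𝓝 0) := by
  intro hcon
  have h4 : 0 < (cls c 4).card := by
    rw [hk.2.2.2.2.2.1]; norm_num
  obtain ⟨a, ha⟩ := Finset.card_pos.mp h4
  have ha' := mem_cls.mp ha
  have h1 := hcon (some a) none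
  have h2 : Tendsto (fun t => Real.Angle.cos ((φ t θ (some a) - φ t θ none : ℝ) : Real.Angle))
      atTop (𝓝 (Real.Angle.cos 0)) := (Real.Angle.continuous_cos.tendsto _).comp h1
  rw [Real.Angle.cos_zero] at h2
  simp only [Real.Angle.cos_coe] at h2
  have h3 : ∀ t, 0 ≤ t → Real.cos (φ t θ (some a) - φ t θ none) ≤ 0 := by
    intro t ht
    have h5 := trapped hk hφ hθ t ht
    have h6 := norm_le_pi_norm (dev c (φ t θ)) a
    rw [Real.norm_eq_abs] at h6
    have h7 : |φ t θ (some a) - φ t θ none - Real.pi| < 1 / 10 := by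
      have h8 : dev c (φ t θ) a = φ t θ (some a) - φ t θ none - Real.pi := by
        simp only [dev, ha', Phi]
      rw [← h8]; linarith
    rw [abs_lt] at h7
    have hpi := Real.pi_gt_three
    apply Real.cos_nonpos_of_pi_div_two_le_of_le
    · linarith [h7.1]
    · linarith [h7.2]
  have h8 : (1 : ℝ) ≤ 0 := by
    refine le_of_tendsto h2 ?_
    filter_upwards [eventually_ge_atTop (0 : ℝ)] with t ht using h3 t ht
  linarith

end Pool.Agent.H96.Kur
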